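import Pool.Agent.TH63.SC.FamSys

set_option autoImplicit false
set_option linter.unusedSectionVars false

/-!
# Families of periodic broken lines from finite data (helper63)
-/

namespace Pool.Agent.TH82.FG

open Pool.Agent.TH68 Pool.Agent.Helper97.Hyp Pool.Agent.TH63.SC

/-- finite data for a family of periodic broken lines -/
structure Blk {Γ : Type*} [Group Γ] {W : WNorm Γ} {𝒜 : Type*} [MulAction Γ 𝒜]
    (Y : Sys Γ W 𝒜) (κ : Type*) where
  K : ℝ
  l : ℝ
  m : ℕ
  hm : 3 ≤ m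
  H : κ → ℕ → Γ
  A : κ → ℕ → 𝒜
  H0 : ∀ k, H k 0 = 1
  hθ : Y.θ ≤ K
  hl : 200 * K ≤ l
  left : ∀ k j, j < m → ∃ x ∈ Y.S (A k j), dist x (pt W (H k j)) ≤ K
  right : ∀ k j, j < m → ∃ x ∈ Y.S (A k j), dist x (pt W (H k (j + 1))) ≤ K
  ne : ∀ k j, j + 1 < m → A k j ≠ A k (j + 1)
  ne' : ∀ k, A k (m - 1) ≠ H k m • A k 0
  lo : ∀ k j, j < m → l ≤ dist (pt W (H k j)) (pt W (H k (j + 1)))
  hi : ∀ k j, j < m → dist (pt W (H k j)) (pt W (H k (j + 1))) ≤ 4 * l
  triv : ∀ A B : 𝒜, A ≠ B → ∀ γ : Γ, γ • A = A → γ • B = B → γ = 1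
  sep : ∀ (k k' : κ) (i j : ℕ) (γ : Γ), i < m → j < m → γ • A k i = A k' j →
    |dist (pt W (H k i)) (pt W (H k (i + 1))) - dist (pt W (H k' j)) (pt W (H k' (j + 1)))| ≤
      136 * K → k = k' ∧ i = j

namespace Blk

variable {Γ : Type*} [Group Γ] {W : WNorm Γ} {𝒜 : Type*} [MulAction Γ 𝒜]
  {Y : Sys Γ W 𝒜} {κ : Type*} (D : Blk Y κ)

/-- the points of the broken line, as group elements -/
def h (k : κ) (i : ℤ) : Γ := D.H k D.m ^ (i / D.m) * D.H k (i % D.m).toNat

/-- the lines -/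
def L (k : κ) (i : ℤ) : 𝒜 := D.H k D.m ^ (i / D.m) • D.A k (i % D.m).toNat

lemma m_pos : (0 : ℤ) < D.m := by
  have := D.hm
  omega

/-- division with remainder -/
lemma idx (i : ℤ) : ∃ (s : ℤ) (j : ℕ), j < D.m ∧ i = D.m * s + j := by
  have h0 := D.m_pos
  refine ⟨i / D.m, (i % D.m).toNat, ?_, ?_⟩
  · have h1 := Int.emod_lt_of_pos i h0
    omega
  · have h1 := Int.emod_nonneg i h0.ne'
    have h2 := Int.mul_ediv_add_emod i D.m
    omega

lemma h_eq (k : κ) (s : ℤ) {j : ℕ} (hj : j < D.m) :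
    D.h k (D.m * s + j) = D.H k D.m ^ s * D.H k j := by
  have h0 := D.m_pos
  have h1 : ((D.m : ℤ) * s + j) / D.m = s := by
    rw [add_comm, Int.add_mul_ediv_left _ _ h0.ne', Int.ediv_eq_zero_of_lt (by omega) (by omega),
      zero_add]
  have h2 : ((D.m : ℤ) * s + j) % D.m = j := by
    rw [add_comm, Int.add_mul_emod_self_left, Int.emod_eq_of_lt (by omega) (by omega)]
  unfold h
  rw [h1, h2, Int.toNat_natCast]

lemma L_eq (k : κ) (s : ℤ) {j : ℕ} (hj : j < D.m) :
    D.L k (D.m * s + j) = D.H k D.m ^ s • D.A k j := by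
  have h0 := D.m_pos
  have h1 : ((D.m : ℤ) * s + j) / D.m = s := by
    rw [add_comm, Int.add_mul_ediv_left _ _ h0.ne', Int.ediv_eq_zero_of_lt (by omega) (by omega),
      zero_add]
  have h2 : ((D.m : ℤ) * s + j) % D.m = j := by
    rw [add_comm, Int.add_mul_emod_self_left, Int.emod_eq_of_lt (by omega) (by omega)]
  unfold L
  rw [h1, h2, Int.toNat_natCast]

lemma h_mul (k : κ) (s : ℤ) : D.h k (D.m * s) = D.H k D.m ^ s := by
  have := D.h_eq k s (j := 0) (by have := D.hm; omega)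
  rw [Nat.cast_zero, add_zero, D.H0, mul_one] at this
  exact this

lemma h_succ (k : κ) (s : ℤ) {j : ℕ} (hj : j < D.m) :
    D.h k (D.m * s + j + 1) = D.H k D.m ^ s * D.H k (j + 1) := by
  rcases Nat.lt_or_ge (j + 1) D.m with h1 | h1
  · have := D.h_eq k s h1
    push_cast at this
    rw [← add_assoc] at this
    exact this
  · have h2 : j + 1 = D.m := le_antisymm hj h1
    have h3 : (D.m : ℤ) * s + j + 1 = D.m * (s + 1) := by
      have : (j : ℤ) + 1 = D.m := by exact_mod_cast h2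
      rw [add_assoc, this]; ring
    rw [h3, D.h_mul, h2, zpow_add_one]

lemma h_per (k : κ) (i : ℤ) : D.h k (i + D.m) = D.H k D.m * D.h k i := by
  obtain ⟨s, j, hj, rfl⟩ := D.idx i
  rw [show (D.m : ℤ) * s + j + D.m = D.m * (s + 1) + j by ring, D.h_eq k _ hj, D.h_eq k _ hj,
    ← mul_assoc, ← zpow_one_add, add_comm]

lemma L_per (k : κ) (i : ℤ) : D.L k (i + D.m) = D.H k D.m • D.L k i := by
  obtain ⟨s, j, hj, rfl⟩ := D.idx i
  rw [show (D.m : ℤ) * s + j + D.m = D.m * (s + 1) + j by ring, D.L_eq k _ hj, D.L_eq k _ hj,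
    smul_smul, ← zpow_one_add, add_comm]

lemma L_succ (k : κ) (s : ℤ) {j : ℕ} (hj : j < D.m) :
    D.L k (D.m * s + j + 1) =
      D.H k D.m ^ s • (if j + 1 < D.m then D.A k (j + 1) else D.H k D.m • D.A k 0) := by
  split_ifs with h1
  · have := D.L_eq k s h1
    push_cast at this
    rw [← add_assoc] at this
    exact this
  · have h2 : j + 1 = D.m := by omega
    have h3 : (D.m : ℤ) * s + j + 1 = D.m * (s + 1) + (0 : ℕ) := by
      have : (j : ℤ) + 1 = D.m := by exact_mod_cast h2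
      rw [add_assoc, this]; push_cast; ring
    rw [h3, D.L_eq k _ (by have := D.hm; omega), smul_smul, ← zpow_add_one]

lemma dist_step (k : κ) (s : ℤ) {j : ℕ} (hj : j < D.m) :
    dist (pt W (D.h k (D.m * s + j))) (pt W (D.h k (D.m * s + j + 1))) =
      dist (pt W (D.H k j)) (pt W (D.H k (j + 1))) := by
  rw [D.h_eq k s hj, D.h_succ k s hj, ← smul_pt, ← smul_pt, dist_smul]

/-- the family -/
def fam : Fam Y κ where
  K := D.K
  l := D.l
  m := D.m
  hm := D.hm
  r := fun k => D.H k D.m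
  P := fun k i => pt W (D.h k i)
  A := fun k i => D.L k i
  br := fun k =>
    { hθ := D.hθ
      hl := D.hl
      left := by
        intro i
        obtain ⟨s, j, hj, rfl⟩ := D.idx i
        obtain ⟨x, hx, hd⟩ := D.left k j hj
        refine ⟨D.H k D.m ^ s • x, ?_, ?_⟩
        · rw [D.L_eq k s hj]; exact Y.smul_mem _ _ _ hx
        · rw [D.h_eq k s hj, ← smul_pt, dist_smul]; exact hd
      right := by
        intro i
        obtain ⟨s, j, hj, rfl⟩ := D.idx i
        obtain ⟨x, hx, hd⟩ := D.right k j hj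
        refine ⟨D.H k D.m ^ s • x, ?_, ?_⟩
        · rw [D.L_eq k s hj]; exact Y.smul_mem _ _ _ hx
        · rw [D.h_succ k s hj, ← smul_pt, dist_smul]; exact hd
      ne := by
        intro i
        obtain ⟨s, j, hj, rfl⟩ := D.idx i
        rw [D.L_eq k s hj, D.L_succ k s hj]
        intro h
        have h1 := smul_left_cancel _ h
        split_ifs at h1 with h2
        · exact D.ne k j h2 h1
        · apply D.ne' k
          rw [← h1]
          congr 1
          omega
      lo := by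
        intro i
        obtain ⟨s, j, hj, rfl⟩ := D.idx i
        rw [D.dist_step k s hj]
        exact D.lo k j hj
      hi := by
        intro i
        obtain ⟨s, j, hj, rfl⟩ := D.idx i
        rw [D.dist_step k s hj]
        exact D.hi k j hj }
  perP := by
    intro k i
    rw [smul_pt, D.h_per]
  perA := D.L_per
  triv := D.triv
  sep := by
    intro k k' i i' γ hA hd
    obtain ⟨s, j, hj, rfl⟩ := D.idx i
    obtain ⟨s', j', hj', rfl⟩ := D.idx i'
    rw [D.dist_step k s hj, D.dist_step k' s' hj'] at hd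
    rw [D.L_eq k s hj, D.L_eq k' s' hj'] at hA
    obtain ⟨h1, h2⟩ := D.sep k k' j j' ((D.H k' D.m ^ s')⁻¹ * γ * D.H k D.m ^ s) hj hj'
      (by rw [mul_smul, mul_smul, hA, inv_smul_smul]) hd
    refine ⟨h1, s' - s, ?_⟩
    rw [h2]; ring

end Blk

end Pool.Agent.TH82.FG
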