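import Pool.Agent.TH63.SC.BlkII

set_option autoImplicit false
set_option linter.unusedSectionVars false

/-!
# The relator of the first step (helper63)
-/

namespace Pool.Agent.TH82.FG

open Pool.Agent.TH68 Pool.Agent.Helper97.Hyp Pool.Agent.TH63.SC

variable {Q : Type} [Group Q] {ψ : FF →* Q} {P : Subgroup GG} {W : WNorm Q} {δ : ℝ}

theorem blkI (h : St ψ P W δ) {u c : GG} (g : FF) (T : Pre ψ W u)
    (hc : ∀ b, ¬ Commute (ψ (ka b c)) (ψ (ka b u))) {K l : ℝ} {p : ℕ} (hp : 3 ≤ p)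
    (hK : T.K₀ + W.ℓ (ψ (al c)) + W.ℓ (ψ (be (ph g)) * (ψ g)⁻¹) ≤ K) {N : ℕ → ℕ}
    (hN : Exps ψ W (u ^ T.a) K l p N) :
    ∃ B : Blk T.Y Unit, B.K = K ∧ B.l = l ∧ B.m = 2 * p ∧
      (B.H () (2 * p) = ψ (al (Wp (u ^ T.a) c N p) *
        be ((Wp (u ^ T.a) c N p)⁻¹ * ph g) * g⁻¹)) ∧
      (∀ j, j < p → B.A () j =
        ⟨true, ((ψ (al (Wp (u ^ T.a) c N j * c)) : Q) : Q ⧸ T.E true)⟩) ∧
      (∀ j, p ≤ j → B.A () j = ⟨false, ((ψ (al (Wp (u ^ T.a) c N p)) *
        ψ (be ((Wp (u ^ T.a) c N p)⁻¹ * Wp (u ^ T.a) c N (2 * p - j))) : Q) :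
          Q ⧸ T.E false)⟩) ∧
      (∀ j, j ≤ p → B.H () j = ψ (al (Wp (u ^ T.a) c N j))) := by
  have hθ := T.hθ
  have hδ := T.Y.hδ
  have hδθ := T.Y.hθ
  have hlc : (0 : ℝ) ≤ W.ℓ (ψ (al c)) := Nat.cast_nonneg _
  obtain ⟨τ₀, hτ₀⟩ : ∃ τ₀, τ₀ = ψ (be (ph g)) * (ψ g)⁻¹ := ⟨_, rfl⟩
  rw [← hτ₀] at hK
  have hle : (0 : ℝ) ≤ W.ℓ τ₀ := Nat.cast_nonneg _
  have hl := hN.hl
  obtain ⟨v, hv⟩ : ∃ v, v = u ^ T.a := ⟨_, rfl⟩
  rw [← hv]
  obtain ⟨X, hX⟩ : ∃ X, X = ψ (al (Wp v c N p)) := ⟨_, rfl⟩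
  obtain ⟨H, hH⟩ : ∃ H : Unit → ℕ → Q, H = fun _ j =>
    if j ≤ p then ψ (al (Wp v c N j)) else if j < 2 * p then
      X * ψ (be ((Wp v c N p)⁻¹ * Wp v c N (2 * p - j))) else
      X * ψ (be ((Wp v c N p)⁻¹ * ph g)) * (ψ g)⁻¹ := ⟨_, rfl⟩
  obtain ⟨A, hA⟩ : ∃ A : Unit → ℕ → (Σ b : Bool, Q ⧸ T.E b), A = fun _ j =>
    if j < p then ⟨true, ((ψ (al (Wp v c N j * c)) : Q) : Q ⧸ T.E true)⟩ else
      ⟨false, ((X * ψ (be ((Wp v c N p)⁻¹ * Wp v c N (2 * p - j))) : Q) : Q ⧸ T.E false)⟩ :=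
    ⟨_, rfl⟩
  have H1 : ∀ j, j ≤ p → H () j = ψ (al (Wp v c N j)) := by
    intro j hj
    rw [hH]
    exact if_pos hj
  have H2 : ∀ i j, i < p → j + i + 1 = 2 * p →
      H () j = X * ψ (be ((Wp v c N p)⁻¹ * Wp v c N (i + 1))) := by
    intro i j hi hj
    rcases Nat.lt_or_ge p j with h1 | h1
    · rw [hH]
      simp only
      rw [if_neg (by omega), if_pos (by omega), show 2 * p - j = i + 1 by omega]
    · have h2 : j = p := by omega
      have h3 : i + 1 = p := by omega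
      rw [h2, H1 p le_rfl, h3, inv_mul_cancel, map_one, map_one, mul_one, hX]
  have H3 : ∀ i j, i < p → j + i + 1 = 2 * p → ∃ τ : Q, (W.ℓ τ : ℝ) ≤ W.ℓ τ₀ ∧ (i ≠ 0 → τ = 1) ∧
      H () (j + 1) = X * ψ (be ((Wp v c N p)⁻¹ * Wp v c N i)) * τ := by
    intro i j hi hj
    rcases Nat.eq_zero_or_pos i with h1 | h1
    · refine ⟨τ₀, le_rfl, fun h => absurd h1 h, ?_⟩
      rw [hH]
      simp only
      rw [if_neg (by omega), if_neg (by omega), h1, Wp, mul_one, map_mul, map_mul, hτ₀]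
      group
    · refine ⟨1, ?_, fun _ => rfl, ?_⟩
      · rw [W.one', Nat.cast_zero]; exact hle
      · obtain ⟨i', rfl⟩ : ∃ i', i = i' + 1 := ⟨i - 1, by omega⟩
        rw [H2 i' (j + 1) (by omega) (by omega), mul_one]
  have H4 : H () (2 * p) = X * ψ (be ((Wp v c N p)⁻¹ * ph g)) * (ψ g)⁻¹ := by
    rw [hH]
    simp only
    rw [if_neg (by omega), if_neg (by omega)]
  have A1 : ∀ j, j < p → A () j = ⟨true, ((ψ (al (Wp v c N j * c)) : Q) : Q ⧸ T.E true)⟩ := by
    intro j hj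
    rw [hA]
    exact if_pos hj
  have A2 : ∀ j, p ≤ j → A () j =
      ⟨false, ((X * ψ (be ((Wp v c N p)⁻¹ * Wp v c N (2 * p - j))) : Q) : Q ⧸ T.E false)⟩ := by
    intro j hj
    rw [hA]
    exact if_neg (by omega)
  have A3 : ∀ i j, i < p → j + i + 1 = 2 * p → A () j =
      ⟨false, ((X * ψ (be ((Wp v c N p)⁻¹ * Wp v c N (i + 1))) : Q) : Q ⧸ T.E false)⟩ := by
    intro i j hi hj
    rw [A2 j (by omega), show 2 * p - j = i + 1 by omega]
  have cases : ∀ j, j < 2 * p → j < p ∨ ∃ i, i < p ∧ j + i + 1 = 2 * p := by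
    intro j hj
    rcases Nat.lt_or_ge j p with h1 | h1
    · exact Or.inl h1
    · exact Or.inr ⟨2 * p - 1 - j, by omega, by omega⟩
  -- steps
  have S2 : ∀ i, ψ (be ((Wp v c N p)⁻¹ * Wp v c N i)) =
      ψ (be ((Wp v c N p)⁻¹ * Wp v c N (i + 1))) * (ψ (be v) ^ (N i : ℤ))⁻¹ * (ψ (be c))⁻¹ := by
    intro i
    rw [zpow_natCast, ← map_pow, ← map_pow, ← map_inv, ← map_inv, ← map_inv, ← map_inv, ← map_mul,
      ← map_mul, ← map_mul, ← map_mul, Wp]
    congr 2
    group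
  have d1 : ∀ j, j < p → |dist (pt W (H () j)) (pt W (H () (j + 1))) - lam ψ W v (N j)| ≤ K := by
    intro j hj
    rw [H1 j hj.le, H1 (j + 1) hj, Wp, map_mul, map_mul, dist_mul_right', map_mul, map_mul]
    have a2 := ell_mul (W := W) (ψ (al c)) (ψ (al (v ^ N j)))
    have a4 := ell_ge_right (W := W) (ψ (al c)) (ψ (al (v ^ N j)))
    have a5 : (W.ℓ (ψ (al (v ^ N j))) : ℝ) = lam ψ W v (N j) := rfl
    rw [a5] at a2 a4
    rw [abs_le]
    constructor <;> linarith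
  have d2 : ∀ i j, i < p → j + i + 1 = 2 * p →
      |dist (pt W (H () j)) (pt W (H () (j + 1))) - lam ψ W v (N i)| ≤ K := by
    intro i j hi hj
    obtain ⟨τ, h1, -, h2⟩ := H3 i j hi hj
    rw [h2, H2 i j hi hj, S2 i]
    have e1 : X * (ψ (be ((Wp v c N p)⁻¹ * Wp v c N (i + 1))) * (ψ (be v) ^ (N i : ℤ))⁻¹ *
        (ψ (be c))⁻¹) * τ = X * ψ (be ((Wp v c N p)⁻¹ * Wp v c N (i + 1))) *
        ((ψ (be v) ^ (N i : ℤ))⁻¹ * ((ψ (be c))⁻¹ * τ)) := by group
    rw [e1, dist_mul_right']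
    have a2 := ell_mul (W := W) (ψ (be v) ^ (N i : ℤ))⁻¹ ((ψ (be c))⁻¹ * τ)
    have a3 := ell_ge_left (W := W) (ψ (be v) ^ (N i : ℤ))⁻¹ ((ψ (be c))⁻¹ * τ)
    have a4 := ell_mul (W := W) (ψ (be c))⁻¹ τ
    have a5 : (W.ℓ (ψ (be v) ^ (N i : ℤ)) : ℝ) = lam ψ W v (N i) := by
      rw [zpow_natCast, ← map_pow, ← map_pow]
      exact h.lam_ka false v (N i)
    have a6 : W.ℓ (ψ (be c)) = W.ℓ (ψ (al c)) := (h.len_eq c).symm
    rw [W.inv', a5] at a2 a3
    rw [W.inv', a6] at a4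
    rw [abs_le]
    constructor <;> linarith
  refine ⟨{ K := K, l := l, m := 2 * p, hm := by omega, H := H, A := A,
            H0 := ?_, hθ := by linarith, hl := hl, left := ?_, right := ?_, ne := ?_, ne' := ?_,
            lo := ?_, hi := ?_, triv := T.triv, sep := ?_ },
    rfl, rfl, rfl, ?_, ?_, ?_, ?_⟩
  · intro _
    rw [H1 0 (by omega)]
    rw [Wp, map_one, map_one]
  · intro _ j hj
    rcases cases j hj with h0 | ⟨i, hi, h0⟩
    · rw [H1 j h0.le, A1 j h0]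
      have h1 : ψ (al (Wp v c N j)) = ψ (al (Wp v c N j * c)) * (ψ (al c))⁻¹ := by
        rw [map_mul, map_mul, mul_inv_cancel_right]
      rw [h1]
      exact near_line0 T true _ _ (by rw [W.inv']; linarith)
    · rw [H2 i j hi h0, A3 i j hi h0]
      have := near_line0 T false (X * ψ (be ((Wp v c N p)⁻¹ * Wp v c N (i + 1)))) 1 (K := K)
        (by rw [W.one', Nat.cast_zero]; linarith)
      rwa [mul_one] at this
  · intro _ j hj
    rcases cases j hj with h0 | ⟨i, hi, h0⟩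
    · rw [H1 (j + 1) h0, A1 j h0]
      have h2 : ψ (al (Wp v c N (j + 1))) =
          ψ (al (Wp v c N j * c)) * ψ (ka true v) ^ (N j : ℤ) * 1 := by
        rw [mul_one, zpow_natCast, ← map_pow, ← map_pow]
        change _ = _ * ψ (al (v ^ N j))
        rw [← map_mul, ← map_mul, Wp, mul_assoc]
      rw [h2, hv]
      exact near_line' T true _ _ _ (by rw [W.one', Nat.cast_zero]; linarith)
    · obtain ⟨τ, h1, -, h2⟩ := H3 i j hi h0
      rw [h2, A3 i j hi h0, S2 i]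
      have e1 : X * (ψ (be ((Wp v c N p)⁻¹ * Wp v c N (i + 1))) * (ψ (be v) ^ (N i : ℤ))⁻¹ *
          (ψ (be c))⁻¹) * τ = X * ψ (be ((Wp v c N p)⁻¹ * Wp v c N (i + 1))) *
          ψ (ka false v) ^ (-(N i : ℤ)) * ((ψ (be c))⁻¹ * τ) := by
        change _ = X * ψ (be ((Wp v c N p)⁻¹ * Wp v c N (i + 1))) *
          ψ (be v) ^ (-(N i : ℤ)) * ((ψ (be c))⁻¹ * τ)
        rw [zpow_neg]
        group
      rw [e1, hv]
      apply near_line' T false
      have a4 := ell_mul (W := W) (ψ (be c))⁻¹ τ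
      have a6 : W.ℓ (ψ (be c)) = W.ℓ (ψ (al c)) := (h.len_eq c).symm
      rw [W.inv', a6] at a4
      linarith
  · intro _ j hj
    rcases cases j (by omega) with h0 | ⟨i, hi, h0⟩
    · rcases Nat.lt_or_ge (j + 1) p with h1 | h1
      · rw [A1 j h0, A1 (j + 1) h1]
        apply line_ne
        have h2 : (ψ (al (Wp v c N j * c)))⁻¹ * ψ (al (Wp v c N (j + 1) * c)) =
            ψ (ka true v) ^ (N j : ℤ) * ψ (ka true c) := by
          change _ = ψ (al v) ^ (N j : ℤ) * ψ (al c)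
          rw [zpow_natCast, ← map_pow, ← map_pow, ← map_inv, ← map_inv, ← map_mul, ← map_mul,
            ← map_mul, ← map_mul, Wp]
          congr 2
          group
        rw [h2, hv]
        exact pow_not_E T true _ (hc true)
      · rw [A1 j h0, A2 (j + 1) h1]
        exact line_ne' (by decide) _ _
    · obtain ⟨i', rfl⟩ : ∃ i', i = i' + 1 := ⟨i - 1, by omega⟩
      rw [A3 (i' + 1) j hi h0, A3 i' (j + 1) (by omega) (by omega)]
      apply line_ne
      have h2 : (X * ψ (be ((Wp v c N p)⁻¹ * Wp v c N (i' + 1 + 1))))⁻¹ *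
          (X * ψ (be ((Wp v c N p)⁻¹ * Wp v c N (i' + 1)))) =
          ψ (ka false v) ^ (-(N (i' + 1) : ℤ)) * (ψ (ka false c))⁻¹ := by
        rw [S2 (i' + 1)]
        change _ = ψ (be v) ^ (-(N (i' + 1) : ℤ)) * (ψ (be c))⁻¹
        rw [zpow_neg]
        group
      rw [h2, hv]
      apply pow_not_E T false _
      intro h3
      exact hc false (Commute.inv_left_iff.1 h3)
  · intro _
    rw [A3 0 (2 * p - 1) (by omega) (by omega), A1 0 (by omega), smul_line]
    exact line_ne' (by decide) _ _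
  · intro _ j hj
    rcases cases j hj with h0 | ⟨i, hi, h0⟩
    · have h1 := d1 j h0
      have h2 := hN.lo j
      rw [← hv] at h2
      rw [abs_le] at h1
      linarith
    · have h1 := d2 i j hi h0
      have h2 := hN.lo i
      rw [← hv] at h2
      rw [abs_le] at h1
      linarith
  · intro _ j hj
    rcases cases j hj with h0 | ⟨i, hi, h0⟩
    · have h1 := d1 j h0
      have h2 := hN.hi j h0
      rw [← hv] at h2
      rw [abs_le] at h1
      linarith
    · have h1 := d2 i j hi h0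
      have h2 := hN.hi i hi
      rw [← hv] at h2
      rw [abs_le] at h1
      linarith
  · intro _ _ j j' γ hj hj' hA hd
    refine ⟨rfl, ?_⟩
    have gap := hN.gap
    rw [← hv] at gap
    rw [abs_le] at hd
    rcases cases j hj with h0 | ⟨i, hi, h0⟩
    · rcases cases j' hj' with h0' | ⟨i', hi', h0'⟩
      · apply gap
        have h1 := d1 j h0
        have h2 := d1 j' h0'
        rw [abs_le] at h1 h2 ⊢
        constructor <;> linarith
      · exfalso
        rw [A1 j h0, A3 i' j' hi' h0'] at hA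
        have e1 : true = false := congrArg Sigma.fst hA
        exact absurd e1 (by decide)
    · rcases cases j' hj' with h0' | ⟨i', hi', h0'⟩
      · exfalso
        rw [A3 i j hi h0, A1 j' h0'] at hA
        have e1 : false = true := congrArg Sigma.fst hA
        exact absurd e1 (by decide)
      · have h3 : i = i' := by
          apply gap
          have h1 := d2 i j hi h0
          have h2 := d2 i' j' hi' h0'
          rw [abs_le] at h1 h2 ⊢
          constructor <;> linarith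
        omega
  · change H () (2 * p) = _
    rw [H4, hX]
    simp only [map_mul, map_inv]
  · exact A1
  · intro j hj
    change A () j = _
    rw [A2 j hj, hX]
  · exact H1

end Pool.Agent.TH82.FG
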