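import Pool.Agent.TH63.SC.Wrd

set_option autoImplicit false
set_option linter.unusedSectionVars false

/-!
# The relators of the second step (helper63)
-/

namespace Pool.Agent.TH82.FG

open Pool.Agent.TH68 Pool.Agent.Helper97.Hyp Pool.Agent.TH63.SC

variable {Q : Type} [Group Q] {ψ : FF →* Q} {P : Subgroup GG} {W : WNorm Q} {δ : ℝ}

lemma dist_mul_right' (x y : Q) : dist (pt W x) (pt W (x * y)) = W.ℓ y := by
  rw [dist_def, out_pt, out_pt, inv_mul_cancel_left]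

lemma near_line' {u : GG} (T : Pre ψ W u) (b : Bool) (γ : Q) (n : ℤ) (τ : Q) {K : ℝ}
    (hK : T.K₀ + W.ℓ τ ≤ K) : ∃ x ∈ T.Y.S ⟨b, (γ : Q ⧸ T.E b)⟩,
      dist x (pt W (γ * ψ (ka b (u ^ T.a)) ^ n * τ)) ≤ K := by
  obtain ⟨x, hx, hd⟩ := T.near b γ n
  refine ⟨x, hx, ?_⟩
  have h1 := dist_triangle x (pt W (γ * ψ (ka b (u ^ T.a)) ^ n))
    (pt W (γ * ψ (ka b (u ^ T.a)) ^ n * τ))
  rw [dist_mul_right'] at h1
  linarith

lemma near_line0 {u : GG} (T : Pre ψ W u) (b : Bool) (γ : Q) (τ : Q) {K : ℝ}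
    (hK : T.K₀ + W.ℓ τ ≤ K) : ∃ x ∈ T.Y.S ⟨b, (γ : Q ⧸ T.E b)⟩,
      dist x (pt W (γ * τ)) ≤ K := by
  have := near_line' T b γ 0 τ hK
  rwa [zpow_zero, mul_one] at this

/-- powers do not matter for membership in the centralizer -/
lemma pow_not_E {u : GG} (T : Pre ψ W u) (b : Bool) (n : ℤ) {x : Q}
    (hx : ¬ Commute x (ψ (ka b u))) : ψ (ka b (u ^ T.a)) ^ n * x ∉ T.E b := by
  intro h
  rw [T.mem_E] at h
  apply hx
  have h1 : Commute (ψ (ka b (u ^ T.a)) ^ n) (ψ (ka b u)) := by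
    rw [map_pow, map_pow]
    exact ((Commute.refl _).pow_left _).zpow_left _
  have h2 : x = (ψ (ka b (u ^ T.a)) ^ n)⁻¹ * (ψ (ka b (u ^ T.a)) ^ n * x) := by group
  rw [h2]
  exact (h1.inv_left).mul_left h

theorem blkII (h : St ψ P W δ) {u c e : GG} (T : Pre ψ W u)
    (hc : ∀ b, ¬ Commute (ψ (ka b c)) (ψ (ka b u)))
    (he : ∀ b, ¬ Commute (ψ (ka b (e * c))) (ψ (ka b u))) {K l : ℝ} {p : ℕ} (hp : 3 ≤ p)
    (hK : T.K₀ + W.ℓ (ψ (al c)) + W.ℓ (ψ (al e)) ≤ K) {N : ℕ → ℕ}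
    (hN : Exps ψ W (u ^ T.a) K l p N) :
    ∃ B : Blk T.Y Bool, B.K = K ∧ B.l = l ∧ B.m = p ∧
      (∀ k, B.H k p = ψ (ka k (Wp (u ^ T.a) c N p * e))) ∧
      (∀ k j, B.A k j = ⟨k, ((ψ (ka k (Wp (u ^ T.a) c N j * c)) : Q) : Q ⧸ T.E k)⟩) ∧
      (∀ k j, j < p → B.H k j = ψ (ka k (Wp (u ^ T.a) c N j))) := by
  have hθ := T.hθ
  have hδ := T.Y.hδ
  have hδθ := T.Y.hθ
  have hlc : (0 : ℝ) ≤ W.ℓ (ψ (al c)) := Nat.cast_nonneg _
  have hle : (0 : ℝ) ≤ W.ℓ (ψ (al e)) := Nat.cast_nonneg _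
  have hl := hN.hl
  obtain ⟨v, hv⟩ : ∃ v, v = u ^ T.a := ⟨_, rfl⟩
  obtain ⟨H, hH⟩ : ∃ H : Bool → ℕ → Q, H = fun k j =>
    if j < p then ψ (ka k (Wp v c N j)) else ψ (ka k (Wp v c N p * e)) := ⟨_, rfl⟩
  have H1 : ∀ k j, j < p → H k j = ψ (ka k (Wp v c N j)) := by
    intro k j hj
    rw [hH]
    exact if_pos hj
  have H2 : ∀ k, H k p = ψ (ka k (Wp v c N p * e)) := by
    intro k
    rw [hH]
    exact if_neg (lt_irrefl _)
  have H3 : ∀ k j, j < p → ∃ e' : GG, (W.ℓ (ψ (ka k e')) : ℝ) ≤ W.ℓ (ψ (al e)) ∧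
      H k (j + 1) = ψ (ka k (Wp v c N j * (c * v ^ N j) * e')) := by
    intro k j hj
    rcases Nat.lt_or_ge (j + 1) p with h1 | h1
    · refine ⟨1, ?_, ?_⟩
      · rw [map_one, map_one, W.one', Nat.cast_zero]; exact hle
      · rw [H1 k _ h1, mul_one]; rfl
    · have h2 : p = j + 1 := le_antisymm h1 hj
      refine ⟨e, by rw [h.ell_ka], ?_⟩
      rw [← h2, H2]
      rw [h2]; rfl
  have hdist : ∀ k j, j < p → |dist (pt W (H k j)) (pt W (H k (j + 1))) - lam ψ W v (N j)| ≤ K := by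
    intro k j hj
    obtain ⟨e', he', h1⟩ := H3 k j hj
    rw [h1, H1 k j hj, mul_assoc, map_mul, map_mul, dist_mul_right', map_mul, map_mul, map_mul,
      map_mul]
    have a1 := ell_mul (W := W) (ψ (ka k c) * ψ (ka k (v ^ N j))) (ψ (ka k e'))
    have a2 := ell_mul (W := W) (ψ (ka k c)) (ψ (ka k (v ^ N j)))
    have a3 := ell_ge_left (W := W) (ψ (ka k c) * ψ (ka k (v ^ N j))) (ψ (ka k e'))
    have a4 := ell_ge_right (W := W) (ψ (ka k c)) (ψ (ka k (v ^ N j)))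
    rw [h.lam_ka] at a2 a4
    rw [h.ell_ka k c] at a2 a4
    rw [abs_le]
    constructor <;> linarith
  refine ⟨{ K := K, l := l, m := p, hm := hp, H := H,
            A := fun k j => ⟨k, ((ψ (ka k (Wp v c N j * c)) : Q) : Q ⧸ T.E k)⟩,
            H0 := ?_, hθ := by linarith, hl := hl, left := ?_, right := ?_, ne := ?_, ne' := ?_,
            lo := ?_, hi := ?_, triv := T.triv, sep := ?_ },
    rfl, rfl, rfl, ?_, ?_, ?_⟩
  · intro k
    rw [H1 k 0 (by omega)]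
    rw [Wp, map_one, map_one]
  · intro k j hj
    rw [H1 k j hj]
    have h1 : ψ (ka k (Wp v c N j)) = ψ (ka k (Wp v c N j * c)) * (ψ (ka k c))⁻¹ := by
      rw [map_mul, map_mul, mul_inv_cancel_right]
    rw [h1]
    exact near_line0 T k _ _ (by rw [W.inv', h.ell_ka]; linarith)
  · intro k j hj
    obtain ⟨e', he', h1⟩ := H3 k j hj
    rw [h1]
    have h2 : ψ (ka k (Wp v c N j * (c * v ^ N j) * e')) =
        ψ (ka k (Wp v c N j * c)) * ψ (ka k v) ^ (N j : ℤ) * ψ (ka k e') := by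
      rw [zpow_natCast, ← map_pow, ← map_pow, ← map_mul, ← map_mul, ← map_mul, ← map_mul,
        mul_assoc (Wp v c N j) c]
    rw [h2, hv]
    exact near_line' T k _ _ _ (by linarith)
  · intro k j hj
    apply line_ne
    have h2 : (ψ (ka k (Wp v c N j * c)))⁻¹ * ψ (ka k (Wp v c N (j + 1) * c)) =
        ψ (ka k v) ^ (N j : ℤ) * ψ (ka k c) := by
      rw [zpow_natCast, ← map_pow, ← map_pow, ← map_inv, ← map_inv, ← map_mul, ← map_mul,
        ← map_mul, ← map_mul, Wp]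
      congr 2
      group
    rw [h2, hv]
    exact pow_not_E T k _ (hc k)
  · intro k
    obtain ⟨q, hq⟩ : ∃ q, p = q + 1 := ⟨p - 1, by omega⟩
    rw [H2, smul_line, show p - 1 = q by omega, hq]
    apply line_ne
    have h2 : (ψ (ka k (Wp v c N q * c)))⁻¹ *
        (ψ (ka k (Wp v c N (q + 1) * e)) * ψ (ka k (Wp v c N 0 * c))) =
        ψ (ka k v) ^ (N q : ℤ) * ψ (ka k (e * c)) := by
      rw [zpow_natCast, ← map_pow, ← map_pow, ← map_inv, ← map_inv, ← map_mul, ← map_mul,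
        ← map_mul, ← map_mul, ← map_mul, ← map_mul, Wp, Wp]
      congr 2
      group
    rw [h2, hv]
    exact pow_not_E T k _ (he k)
  · intro k j hj
    have h1 := hdist k j hj
    have h2 := hN.lo j
    rw [← hv] at h2
    rw [abs_le] at h1
    linarith
  · intro k j hj
    have h1 := hdist k j hj
    have h2 := hN.hi j hj
    rw [← hv] at h2
    rw [abs_le] at h1
    linarith
  · intro k k' i j γ hi hj hA hd
    have hk : k = k' := congrArg Sigma.fst hA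
    refine ⟨hk, ?_⟩
    apply hN.gap
    rw [← hv]
    have h1 := hdist k i hi
    have h2 := hdist k' j hj
    rw [abs_le] at h1 h2 hd ⊢
    constructor <;> linarith
  · intro k
    rw [hv] at H2
    exact H2 k
  · intro k j
    exact congrArg (fun v => (⟨k, ((ψ (ka k (Wp v c N j * c)) : Q) : Q ⧸ T.E k)⟩ :
      Σ b : Bool, Q ⧸ T.E b)) hv
  · intro k j hj
    rw [hv] at H1
    exact H1 k j hj

end Pool.Agent.TH82.FG
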