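import Pool.Agent.TH68.Sys

set_option autoImplicit false
set_option linter.unusedSectionVars false

/-!
# Broken lines along a system of lines (helper63)

`Br Y K l L P A`: `P` is a bi-infinite sequence of points whose consecutive members lie close to a
line `A i` of the system `Y`, with consecutive lines distinct and with steps between `l` and `L`.
-/

namespace Pool.Agent.TH63.SC

open Pool.Agent.Helper97.Hyp Pool.Agent.TH68

variable {Γ : Type*} [Group Γ] {W : WNorm Γ} {𝒜 : Type*} [MulAction Γ 𝒜]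

/-- broken lines -/
structure Br (Y : Sys Γ W 𝒜) (K l L : ℝ) (P : ℤ → Pt W) (A : ℤ → 𝒜) : Prop where
  hθ : Y.θ ≤ K
  hl : 200 * K ≤ l
  left : ∀ i, ∃ x ∈ Y.S (A i), dist x (P i) ≤ K
  right : ∀ i, ∃ y ∈ Y.S (A i), dist y (P (i + 1)) ≤ K
  ne : ∀ i, A i ≠ A (i + 1)
  lo : ∀ i, l ≤ dist (P i) (P (i + 1))
  hi : ∀ i, dist (P i) (P (i + 1)) ≤ L

namespace Br

variable {Y : Sys Γ W 𝒜} {K l L : ℝ} {P : ℤ → Pt W} {A : ℤ → 𝒜}

lemma K_one (h : Br Y K l L P A) : 1 ≤ K := Y.hδ.trans (Y.hθ.trans h.hθ)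

lemma δ_le (h : Br Y K l L P A) : Y.δ ≤ K := Y.hθ.trans h.hθ

lemma l_le (h : Br Y K l L P A) : l ≤ L := (h.lo 0).trans (h.hi 0)

/-- the reversed broken line -/
lemma rev (h : Br Y K l L P A) : Br Y K l L (fun i => P (-i)) (fun i => A (-i - 1)) where
  hθ := h.hθ
  hl := h.hl
  left i := by
    obtain ⟨y, hy, hd⟩ := h.right (-i - 1)
    rw [sub_add_cancel] at hd
    exact ⟨y, hy, hd⟩
  right i := by
    obtain ⟨y, hy, hd⟩ := h.left (-i - 1)
    refine ⟨y, hy, ?_⟩
    rw [show -(i + 1) = -i - 1 by ring]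
    exact hd
  ne i := by
    have := h.ne (-i - 2)
    rw [show -i - 2 + 1 = -i - 1 by ring] at this
    rw [show -(i + 1) - 1 = -i - 2 by ring]
    exact this.symm
  lo i := by
    have := h.lo (-i - 1)
    rw [sub_add_cancel, dist_comm] at this
    rw [show -(i + 1) = -i - 1 by ring]
    exact this
  hi i := by
    have := h.hi (-i - 1)
    rw [sub_add_cancel, dist_comm] at this
    rw [show -(i + 1) = -i - 1 by ring]
    exact this

/-- translates -/
lemma smul (h : Br Y K l L P A) (g : Γ) : Br Y K l L (fun i => g • P i) (fun i => g • A i) where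
  hθ := h.hθ
  hl := h.hl
  left i := by
    obtain ⟨y, hy, hd⟩ := h.left i
    exact ⟨g • y, Y.smul_mem g _ _ hy, by rw [dist_smul]; exact hd⟩
  right i := by
    obtain ⟨y, hy, hd⟩ := h.right i
    exact ⟨g • y, Y.smul_mem g _ _ hy, by rw [dist_smul]; exact hd⟩
  ne i hi := h.ne i (smul_left_cancel g hi)
  lo i := by rw [dist_smul]; exact h.lo i
  hi i := by rw [dist_smul]; exact h.hi i

/-- two blocks on different lines cannot run along each other -/
lemma cross {Y : Sys Γ W 𝒜} {K : ℝ} (hθ : Y.θ ≤ K) {A B : 𝒜} (hAB : A ≠ B) {x x' y y' : Pt W}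
    (hx : ∃ z ∈ Y.S A, dist z x ≤ K) (hx' : ∃ z ∈ Y.S A, dist z x' ≤ K)
    (hy : ∃ z ∈ Y.S B, dist z y ≤ K) (hy' : ∃ z ∈ Y.S B, dist z y' ≤ K) :
    (dist x' y - dist x' y') - (dist x y - dist x y') ≤ 10 * K := by
  obtain ⟨a, ha, hax⟩ := hx
  obtain ⟨a', ha', hax'⟩ := hx'
  obtain ⟨b, hb, hby⟩ := hy
  obtain ⟨b', hb', hby'⟩ := hy'
  have h1 := Y.small B A hAB.symm a' ha' a ha
  have h2 := le_pd (p := a') (q := a) hb hb'
  have e1 := dist_triangle4 x' a' b y
  have e2 := dist_triangle4 a' x' y' b'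
  have e3 := dist_triangle4 a x y b
  have e4 := dist_triangle4 x a b' y'
  rw [dist_comm x' a'] at e1
  rw [dist_comm y' b'] at e2
  rw [dist_comm y b] at e3
  rw [dist_comm x a] at e4
  linarith

/-- the angle at the vertices -/
lemma exc_two (h : Br Y K l L P A) (i : ℤ) : exc (P i) (P (i + 2)) (P (i + 1)) ≤ 21 * K := by
  have hK := h.hθ
  obtain ⟨x, hx, hxd⟩ := h.left i
  obtain ⟨y, hy, hyd⟩ := h.right i
  obtain ⟨u, hu, hud⟩ := h.left (i + 1)
  obtain ⟨v, hv, hvd⟩ := h.right (i + 1)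
  rw [show i + 1 + 1 = i + 2 by ring] at hvd
  obtain ⟨q, hq⟩ := Y.proj (A (i + 1)) x
  obtain ⟨q', hq'⟩ := Y.proj (A (i + 1)) y
  have h1 := Y.small (A (i + 1)) (A i) (h.ne i).symm x hx y hy
  have h2 := le_pd_of_proj hq hq'
  have h3 := proj_dist_le hq' hu
  have h4 := hq.2 v hv
  -- distance from `q` to `u`
  have h5 := dist_triangle y (P (i + 1)) u
  rw [dist_comm (P (i + 1)) u] at h5
  have h6 := dist_triangle4 q q' y u
  rw [dist_comm q' y] at h6
  have h7 : exc x v q ≤ K := by unfold exc; linarith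
  have h8 := exc_move x v q u
  have h9 := exc_move x v u (P (i + 1))
  have h10 := exc_move_left x (P i) v (P (i + 1))
  have h11 := exc_move_right (P i) v (P (i + 2)) (P (i + 1))
  linarith

/-- shifted sequences -/
lemma seq_exc (h : Br Y K l L P A) (m : ℤ) {i j k : ℕ} (hij : i ≤ j) (hjk : j ≤ k) :
    exc (P (m + i)) (P (m + k)) (P (m + j)) ≤ 25 * K := by
  have hK := h.δ_le
  have hK1 := h.K_one
  have hl := h.hl
  have := bg Y.hyp (x := fun n : ℕ => P (m + n)) (a := 21 * K) (by linarith)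
    (fun n => by
      have h1 := h.exc_two (m + n)
      push_cast
      rw [show m + ((n : ℤ) + 2) = m + n + 2 by ring, show m + ((n : ℤ) + 1) = m + n + 1 by ring]
      exact h1)
    (fun n => by
      have h1 := h.lo (m + n)
      push_cast
      rw [show m + ((n : ℤ) + 1) = m + n + 1 by ring]
      linarith) hij hjk
  linarith

/-- broken lines are coarse lines -/
lemma exc_le (h : Br Y K l L P A) {i j k : ℤ} (hij : i ≤ j) (hjk : j ≤ k) :
    exc (P i) (P k) (P j) ≤ 25 * K := by
  have := h.seq_exc i (i := 0) (j := (j - i).toNat) (k := (k - i).toNat) (Nat.zero_le _)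
    (by omega)
  rw [show i + ((0 : ℕ) : ℤ) = i by simp, show i + (((j - i).toNat : ℕ) : ℤ) = j by omega,
    show i + (((k - i).toNat : ℕ) : ℤ) = k by omega] at this
  exact this

/-- monotonicity -/
lemma dist_add (h : Br Y K l L P A) {i j k : ℤ} (hij : i ≤ j) (hjk : j ≤ k) :
    dist (P i) (P j) + dist (P j) (P k) ≤ dist (P i) (P k) + 25 * K := by
  have := h.exc_le hij hjk
  unfold exc at this
  linarith

lemma lo_lt (h : Br Y K l L P A) {i j : ℤ} (hij : i < j) : l - 25 * K ≤ dist (P i) (P j) := by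
  have h1 := h.dist_add (i := i) (j := i + 1) (k := j) (by omega) (by omega)
  have h2 := h.lo i
  have h3 := dist_nonneg (x := P (i + 1)) (y := P j)
  linarith

/-- linear growth -/
lemma growth (h : Br Y K l L P A) (i : ℤ) (n : ℕ) : n * (l - 25 * K) ≤ dist (P i) (P (i + n)) := by
  have hK := h.K_one
  induction n with
  | zero => simp
  | succ n ih =>
    rcases Nat.eq_zero_or_pos n with rfl | hn
    · have := h.lo i
      norm_num
      linarith
    · have h1 := h.dist_add (i := i) (j := i + n) (k := i + n + 1) (by omega) (by omega)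
      have h2 := h.lo (i + n)
      push_cast
      rw [show i + ((n : ℤ) + 1) = i + n + 1 by ring]
      linarith

lemma growth' (h : Br Y K l L P A) (i j : ℤ) :
    ((j - i).natAbs : ℝ) * (l - 25 * K) ≤ dist (P i) (P j) := by
  rcases le_total i j with hij | hij
  · have := h.growth i (j - i).natAbs
    rwa [show i + ((j - i).natAbs : ℤ) = j by omega] at this
  · have := h.growth j (j - i).natAbs
    rwa [show j + ((j - i).natAbs : ℤ) = i by omega, dist_comm] at this

/-- nearest points exist -/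
lemma exists_min (h : Br Y K l L P A) (x : Pt W) : ∃ m : ℤ, ∀ j : ℤ, dist x (P m) ≤ dist x (P j) := by
  have hK := h.K_one
  have hl := h.hl
  have hfin : {j : ℤ | dist x (P j) ≤ dist x (P 0)}.Finite := by
    apply (Set.finite_Icc (-⌈2 * dist x (P 0)⌉) ⌈2 * dist x (P 0)⌉).subset
    intro j hj
    have hj' : dist x (P j) ≤ dist x (P 0) := hj
    have h1 := h.growth' 0 j
    rw [sub_zero] at h1
    have h3 := dist_triangle (P 0) x (P j)
    rw [dist_comm (P 0) x] at h3
    have h4 : (j.natAbs : ℝ) ≤ 2 * dist x (P 0) := by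
      have : (j.natAbs : ℝ) * 1 ≤ (j.natAbs : ℝ) * (l - 25 * K) :=
        mul_le_mul_of_nonneg_left (by linarith) (Nat.cast_nonneg _)
      linarith
    have h5 : ((j.natAbs : ℤ) : ℝ) ≤ 2 * dist x (P 0) := by rw [Int.cast_natCast]; exact h4
    have h6 : (j.natAbs : ℤ) ≤ ⌈2 * dist x (P 0)⌉ := by
      have := Int.le_ceil (2 * dist x (P 0))
      exact_mod_cast h5.trans this
    constructor <;> omega
  have hne : {j : ℤ | dist x (P j) ≤ dist x (P 0)}.Nonempty := ⟨0, by simp⟩
  obtain ⟨m, hm, hmin⟩ := Set.exists_min_image _ (fun j : ℤ => dist x (P j)) hfin hne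
  refine ⟨m, fun j => ?_⟩
  by_cases hj : dist x (P j) ≤ dist x (P 0)
  · exact hmin j hj
  · push Not at hj
    have : dist x (P m) ≤ dist x (P 0) := hm
    linarith

/-- nearest points are projections -/
lemma proj_of_min (h : Br Y K l L P A) {x : Pt W} {m : ℤ}
    (hm : ∀ j : ℤ, dist x (P m) ≤ dist x (P j)) : IsProj (L + 2 * K) (Set.range P) x (P m) := by
  have hK := h.K_one
  have hδ := h.δ_le
  have hl := h.hl
  refine ⟨⟨m, rfl⟩, ?_⟩
  rintro _ ⟨j, rfl⟩
  have key : ∀ r : ℤ, dist (P m) (P r) ≤ L → l ≤ dist (P m) (P r) →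
      dist (P m) (P r) + dist (P r) (P j) ≤ dist (P m) (P j) + 25 * K →
      dist x (P m) + dist (P m) (P j) ≤ dist x (P j) + (L + 2 * K) := by
    intro r h1 h1' h2
    have h3 := hm r
    have h4 := Y.hyp.cases x (P r) (P m) (P j)
    rw [dist_comm (P r) (P m)] at h4
    rcases h4 with h4 | h4 <;> linarith
  rcases lt_trichotomy m j with hmj | rfl | hmj
  · apply key (m + 1) (h.hi m) (h.lo m)
    exact h.dist_add (by omega) (by omega)
  · rw [dist_self]
    have := (h.lo 0).trans (h.hi 0)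
    linarith
  · have h1 := h.hi (m - 1)
    have h2 := h.lo (m - 1)
    rw [sub_add_cancel, dist_comm] at h1 h2
    apply key (m - 1) h1 h2
    have := h.dist_add (i := j) (j := m - 1) (k := m) (by omega) (by omega)
    rw [dist_comm (P m) (P (m - 1)), dist_comm (P (m - 1)) (P j), dist_comm (P m) (P j)]
    linarith

lemma proj (h : Br Y K l L P A) (x : Pt W) :
    ∃ m : ℤ, IsProj (L + 2 * K) (Set.range P) x (P m) := by
  obtain ⟨m, hm⟩ := h.exists_min x
  exact ⟨m, h.proj_of_min hm⟩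

end Br

end Pool.Agent.TH63.SC
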