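import Pool.Agent.TH63.SC.FamSys
import Pool.Agent.TH82.FG.State

set_option autoImplicit false
set_option linter.unusedSectionVars false

/-!
# The cells of a strip (helper63)
-/

namespace Pool.Agent.TH63.SC

open Pool.Agent.Helper97.Hyp Pool.Agent.TH68

section arith

lemma run_lo {p a b : ℤ} (hp : 0 < p) (hab : a < b)
    (H : ∀ w, a ≤ w → w < b → w % (2 * p) < p) :
    2 * p * (a / (2 * p)) ≤ a ∧ b ≤ 2 * p * (a / (2 * p)) + p := by
  have h1 := Int.mul_ediv_add_emod a (2 * p)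
  have h2 := Int.emod_nonneg a (show (2 * p : ℤ) ≠ 0 by omega)
  refine ⟨by omega, ?_⟩
  by_contra hcon
  push Not at hcon
  have h3 := H a le_rfl hab
  have h4 := H (2 * p * (a / (2 * p)) + p) (by omega) hcon
  rw [Int.mul_add_emod_self_left, Int.emod_eq_of_lt (by omega) (by omega)] at h4
  omega

lemma run_hi {p a b : ℤ} (hp : 0 < p) (hab : a < b)
    (H : ∀ w, a ≤ w → w < b → p ≤ w % (2 * p)) :
    2 * p * (a / (2 * p)) + p ≤ a ∧ b ≤ 2 * p * (a / (2 * p)) + 2 * p := by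
  have h1 := Int.mul_ediv_add_emod a (2 * p)
  have h2 := H a le_rfl hab
  have h3 := Int.emod_lt_of_pos a (show (0 : ℤ) < 2 * p by omega)
  refine ⟨by omega, ?_⟩
  by_contra hcon
  push Not at hcon
  have h4 := H (2 * p * (a / (2 * p)) + 2 * p) (by omega) hcon
  rw [show 2 * p * (a / (2 * p)) + 2 * p = 2 * p * (a / (2 * p) + 1) by ring,
    Int.mul_emod_right] at h4
  omega

lemma eq_of_close {p s s' : ℤ} (h : |2 * p * s - 2 * p * s'| < 2 * p) : s = s' := by
  have hp : 0 < 2 * p := lt_of_le_of_lt (abs_nonneg _) h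
  rw [← mul_sub, abs_mul, abs_of_pos hp] at h
  have h1 : |s - s'| < 1 := by
    by_contra hcon
    push Not at hcon
    have := mul_le_mul_of_nonneg_left hcon hp.le
    omega
  rw [Int.abs_lt_one_iff] at h1
  omega

/-- the arithmetic of the cells -/
lemma core {p C : ℤ} (hC : 0 ≤ C) (hp : 10 * (C + 100) ≤ p) {u k k' v t : ℤ}
    (TA : ∀ w, min u k + 6 ≤ w → w + 7 ≤ max u k → w % (2 * p) < p)
    (TB : ∀ w, min k' v + 6 ≤ w → w + 7 ≤ max k' v → p ≤ w % (2 * p))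
    (hkk : |k - k'| ≤ C) (hv : |v - u - 2 * p * t| ≤ C) (ht : t ≠ 0) :
    ∃ s w w' : ℤ, min u k + 6 ≤ w ∧ w + 7 ≤ max u k ∧ w / (2 * p) = s ∧
      min k' v + 6 ≤ w' ∧ w' + 7 ≤ max k' v ∧
      ((t = 1 ∧ |u - 2 * p * s| ≤ 2 * C + 18 ∧ |k - (2 * p * s + p)| ≤ 2 * C + 18 ∧
          |k' - (2 * p * s + p)| ≤ 2 * C + 18 ∧ w' / (2 * p) = s) ∨
        (t = -1 ∧ |u - (2 * p * s + p)| ≤ 2 * C + 18 ∧ |k - 2 * p * s| ≤ 2 * C + 18 ∧
          |k' - 2 * p * s| ≤ 2 * C + 18 ∧ w' / (2 * p) = s - 1)) := by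
  have hp0 : 0 < p := by omega
  have LA : max u k - min u k ≤ p + 12 := by
    by_contra hcon
    push Not at hcon
    have := run_lo hp0 (a := min u k + 6) (b := max u k - 6) (by omega)
      (fun w h1 h2 => TA w h1 (by omega))
    omega
  have LB : max k' v - min k' v ≤ p + 12 := by
    by_contra hcon
    push Not at hcon
    have := run_hi hp0 (a := min k' v + 6) (b := max k' v - 6) (by omega)
      (fun w h1 h2 => TB w h1 (by omega))
    omega
  rw [abs_le] at hkk hv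
  have ht1 : |2 * p * t| < 4 * p := by
    rw [abs_lt]; constructor <;> omega
  have ht2 : t = 1 ∨ t = -1 := by
    rw [abs_mul, abs_of_pos (by omega : 0 < 2 * p)] at ht1
    have h1 : |t| < 2 := by
      by_contra hcon
      push Not at hcon
      have := mul_le_mul_of_nonneg_left hcon (by omega : 0 ≤ 2 * p)
      omega
    rw [abs_lt] at h1
    omega
  rcases ht2 with rfl | rfl
  · rw [mul_one] at hv
    have h1 : u + 100 < k := by omega
    have h2 : k' + 100 < v := by omega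
    rw [min_eq_left (by omega : u ≤ k), max_eq_right (by omega : u ≤ k)] at TA LA ⊢
    rw [min_eq_left (by omega : k' ≤ v), max_eq_right (by omega : k' ≤ v)] at TB LB ⊢
    obtain ⟨a1, a2⟩ := run_lo hp0 (a := u + 6) (b := k - 6) (by omega)
      (fun w h1 h2 => TA w h1 (by omega))
    obtain ⟨b1, b2⟩ := run_hi hp0 (a := k' + 6) (b := v - 6) (by omega)
      (fun w h1 h2 => TB w h1 (by omega))
    have hs : (u + 6) / (2 * p) = (k' + 6) / (2 * p) := by
      apply eq_of_close (p := p)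
      rw [abs_lt]; constructor <;> omega
    rw [← hs] at b1 b2
    refine ⟨(u + 6) / (2 * p), u + 6, k' + 6, le_rfl, by omega, rfl, le_rfl, by omega, ?_⟩
    left
    refine ⟨rfl, ?_, ?_, ?_, hs.symm⟩ <;> rw [abs_le] <;> constructor <;> omega
  · rw [mul_neg, mul_one] at hv
    have h1 : k + 100 < u := by omega
    have h2 : v + 100 < k' := by omega
    rw [min_eq_right (by omega : k ≤ u), max_eq_left (by omega : k ≤ u)] at TA LA ⊢
    rw [min_eq_right (by omega : v ≤ k'), max_eq_left (by omega : v ≤ k')] at TB LB ⊢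
    obtain ⟨a1, a2⟩ := run_lo hp0 (a := k + 6) (b := u - 6) (by omega)
      (fun w h1 h2 => TA w h1 (by omega))
    obtain ⟨b1, b2⟩ := run_hi hp0 (a := v + 6) (b := k' - 6) (by omega)
      (fun w h1 h2 => TB w h1 (by omega))
    have hs : (k + 6) / (2 * p) = (v + 6) / (2 * p) + 1 := by
      apply eq_of_close (p := p)
      rw [mul_add, mul_one, abs_lt]; constructor <;> omega
    have hs' : 2 * p * ((k + 6) / (2 * p)) = 2 * p * ((v + 6) / (2 * p)) + 2 * p := by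
      rw [hs]; ring
    refine ⟨(k + 6) / (2 * p), k + 6, v + 6, le_rfl, by omega, rfl, le_rfl, by omega, ?_⟩
    right
    refine ⟨rfl, ?_, ?_, ?_, by omega⟩ <;> rw [abs_le] <;> constructor <;> omega

end arith

variable {Γ : Type*} [Group Γ] {W : WNorm Γ} {𝒜 : Type*} [MulAction Γ 𝒜]

namespace Br

variable {Y : Sys Γ W 𝒜} {K l : ℝ} {P : ℤ → Pt W} {A : ℤ → 𝒜}

lemma range_neg (P : ℤ → Pt W) : Set.range (fun i : ℤ => P (-i)) = Set.range P := by
  ext x
  constructor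
  · rintro ⟨i, rfl⟩; exact ⟨-i, rfl⟩
  · rintro ⟨i, rfl⟩; exact ⟨-i, by simp⟩

/-- blocks between projections are crossed -/
lemma pd_block (hP : Br Y K l (4 * l) P A) {u v w : ℤ} (huw : u + 6 ≤ w) (hwv : w + 7 ≤ v)
    {p q : Pt W} (hu : IsProj (4 * l + 2 * K) (Set.range P) p (P u))
    (hv : IsProj (4 * l + 2 * K) (Set.range P) q (P v)) : l / 2 ≤ pd (Y.S (A w)) p q := by
  have hK := hP.K_one
  have hl := hP.hl
  have g1 : 4 * l < dist (P u) (P w) := by
    have h1 := hP.growth' u w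
    have h2 : (6 : ℝ) ≤ ((w - u).natAbs : ℝ) := by exact_mod_cast (by omega : 6 ≤ (w - u).natAbs)
    have h3 := mul_le_mul_of_nonneg_right h2 (by linarith : 0 ≤ l - 25 * K)
    linarith
  have g2 : 4 * l < dist (P (w + 1)) (P v) := by
    have h1 := hP.growth' (w + 1) v
    have h2 : (6 : ℝ) ≤ ((v - (w + 1)).natAbs : ℝ) := by
      exact_mod_cast (by omega : 6 ≤ (v - (w + 1)).natAbs)
    have h3 := mul_le_mul_of_nonneg_right h2 (by linarith : 0 ≤ l - 25 * K)
    linarith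
  have hlo := hP.lo w
  have e1 := hP.split_left (w := w) (w' := w + 1) (by omega) (by omega) hu g1
  have e2 := hP.rev.split_left (u := -v) (w := -(w + 1)) (w' := -w) (by omega) (by omega)
    (p := q) (by rw [range_neg]; simpa using hv) (by
      simp only [neg_neg]
      rw [dist_comm]
      linarith)
  simp only [neg_neg] at e2
  obtain ⟨a, ha, had⟩ := hP.left w
  obtain ⟨b, hb, hbd⟩ := hP.right w
  have h1 := le_pd (p := p) (q := q) hb ha
  have t2 := dist_triangle p b (P (w + 1))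
  have t3 := dist_triangle p (P w) a
  have t4' := dist_triangle q (P (w + 1)) b
  have t5 := dist_triangle q a (P w)
  rw [dist_comm (P w) a] at t3
  rw [dist_comm (P (w + 1)) b] at t4'
  unfold exc at e1 e2
  rw [dist_comm (P (w + 1)) (P w)] at e2
  linarith

lemma pd_block' (hP : Br Y K l (4 * l) P A) {u v w : ℤ} (huw : min u v + 6 ≤ w)
    (hwv : w + 7 ≤ max u v) {p q : Pt W} (hu : IsProj (4 * l + 2 * K) (Set.range P) p (P u))
    (hv : IsProj (4 * l + 2 * K) (Set.range P) q (P v)) : l / 2 ≤ pd (Y.S (A w)) p q := by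
  rcases le_total u v with h | h
  · rw [min_eq_left h] at huw
    rw [max_eq_right h] at hwv
    exact hP.pd_block huw hwv hu hv
  · rw [min_eq_right h] at huw
    rw [max_eq_left h] at hwv
    rw [pd_symm (Y.Sne _)]
    exact hP.pd_block huw hwv hv hu

lemma up (hP : Br Y K l (4 * l) P A) (i : ℤ) (n : ℕ) : dist (P i) (P (i + n)) ≤ n * (4 * l) := by
  induction n with
  | zero => simp
  | succ n ih =>
    have h1 := hP.hi (i + n)
    have h2 := dist_triangle (P i) (P (i + n)) (P (i + n + 1))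
    push_cast
    rw [← add_assoc]
    linarith

lemma up' (hP : Br Y K l (4 * l) P A) {i j : ℤ} {C : ℕ} (h : |i - j| ≤ C) :
    dist (P i) (P j) ≤ C * (4 * l) := by
  have hK := hP.K_one
  have hl := hP.hl
  have key : ∀ n : ℕ, n ≤ C → (n : ℝ) * (4 * l) ≤ C * (4 * l) := fun n hn =>
    mul_le_mul_of_nonneg_right (by exact_mod_cast hn) (by linarith)
  rw [abs_le] at h
  rcases le_total i j with hij | hij
  · have h1 := hP.up i (j - i).toNat
    rw [Int.toNat_of_nonneg (by omega), add_sub_cancel] at h1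
    exact h1.trans (key _ (by omega))
  · have h1 := hP.up j (i - j).toNat
    rw [Int.toNat_of_nonneg (by omega), add_sub_cancel, dist_comm] at h1
    exact h1.trans (key _ (by omega))

/-- close points have close indices -/
lemma idx_le (hP : Br Y K l (4 * l) P A) {i j : ℤ} {C : ℕ} (h : dist (P i) (P j) ≤ C * l) :
    |i - j| ≤ 2 * C := by
  have hK := hP.K_one
  have hl := hP.hl
  have h1 := hP.growth' i j
  have h2 : ((j - i).natAbs : ℝ) * (l / 2) ≤ ((j - i).natAbs : ℝ) * (l - 25 * K) :=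
    mul_le_mul_of_nonneg_left (by linarith) (Nat.cast_nonneg _)
  have h3 : ((j - i).natAbs : ℝ) * l ≤ (2 * C : ℕ) * l := by push_cast; linarith
  have h4 : ((j - i).natAbs : ℝ) ≤ (2 * C : ℕ) := le_of_mul_le_mul_right h3 (by linarith)
  have h5 : (j - i).natAbs ≤ 2 * C := by exact_mod_cast h4
  rw [abs_le]
  omega

end Br

end Pool.Agent.TH63.SC

namespace Pool.Agent.TH82.FG

open Pool.Agent.TH68 Pool.Agent.Helper97.Hyp Pool.Agent.TH63.SC

variable {Γ : Type*} [Group Γ] {W : WNorm Γ}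

/-- points near a geodesic of a coset of a geodesic subgroup -/
lemma Geo.near63 {δ : ℝ} (hyp : GHyp (Pt W) δ) {C : Subgroup Γ} (hC : Geo W C) (y : Γ) {c c' : Γ}
    (hc : c ∈ C) (hc' : c' ∈ C) {q : Pt W} {a : ℝ} (hq : exc (pt W (y * c)) (pt W (y * c')) q ≤ a) :
    ∃ x ∈ C, exc (pt W (y * c)) (pt W (y * c')) (pt W (y * x)) = 0 ∧
      dist q (pt W (y * x)) ≤ 2 * a + 2 * δ := by
  have hd : ∀ x x' : Γ, dist (pt W (y * x)) (pt W (y * x')) = W.ℓ (x⁻¹ * x') := by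
    intro x x'
    rw [dist_def, out_pt, out_pt, mul_inv_rev]
    congr 2
    group
  have ha : 0 ≤ a := (exc_nonneg _ _ _).trans hq
  obtain ⟨k, hk, hk1, hk2⟩ : ∃ k : ℕ, k ≤ W.ℓ (c⁻¹ * c') ∧
      (k : ℝ) ≤ dist (pt W (y * c)) q ∧ dist (pt W (y * c)) q ≤ k + a := by
    rcases le_total (nd (pt W (y * c)) q) (W.ℓ (c⁻¹ * c')) with h1 | h1
    · refine ⟨nd (pt W (y * c)) q, h1, ?_, ?_⟩
      · rw [dist_eq_nd]
      · rw [dist_eq_nd]; linarith
    · refine ⟨W.ℓ (c⁻¹ * c'), le_rfl, ?_, ?_⟩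
      · rw [dist_eq_nd]; exact_mod_cast h1
      · unfold exc at hq
        rw [hd] at hq
        have := dist_nonneg (x := q) (y := pt W (y * c'))
        linarith
  obtain ⟨e, he, f, hf, hef, h1, h2⟩ := hC (c⁻¹ * c') (mul_mem (inv_mem hc) hc') k hk
  have h3 : dist (pt W (y * c)) (pt W (y * (c * e))) = k := by
    rw [hd, inv_mul_cancel_left, h1]
  have h4 : exc (pt W (y * c)) (pt W (y * c')) (pt W (y * (c * e))) = 0 := by
    unfold exc
    rw [h3, hd, hd]
    have h5 : (c * e)⁻¹ * c' = f := by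
      rw [mul_inv_rev, mul_assoc, ← hef]; group
    rw [h5]
    have h6 : (k : ℝ) + W.ℓ f = W.ℓ (c⁻¹ * c') := by exact_mod_cast h2
    linarith
  refine ⟨c * e, mul_mem hc he, h4, ?_⟩
  have h5 := order_close hyp hq (h4.le.trans ha)
  rw [h3, abs_of_nonneg (by linarith)] at h5
  linarith

/-- the cells of a strip -/
theorem cells_of {𝒜 : Type*} [MulAction Γ 𝒜] {Y : Sys Γ W 𝒜} (D : Fam Y Unit) {p : ℕ}
    (hp : 10 ^ 12 ≤ p) (hm : D.m = 2 * p) {A B : Subgroup Γ} (hA : Geo W A) (hB : Geo W B)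
    {h : ℤ → Γ} (hP : ∀ i, D.P () i = pt W (h i)) {w g₀ : Γ}
    (h0 : ∀ s : ℤ, h (2 * p * s) = D.r () ^ s) (h1 : ∀ s : ℤ, h (2 * p * s + p) = D.r () ^ s * w)
    (XA : ∀ (γ : Γ) (i : ℤ), ∀ a ∈ A, ∀ a' ∈ A, D.l / 2 ≤ pd (Y.S (γ • D.A () i)) (pt W a) (pt W a') →
      i % (2 * p) < p ∧ γ * D.r () ^ (i / (2 * p)) ∈ A)
    (XB : ∀ (γ : Γ) (i : ℤ) (y : Γ), ∀ b ∈ B, ∀ b' ∈ B,
      D.l / 2 ≤ pd (Y.S (γ • D.A () i)) (pt W (y * b)) (pt W (y * b')) →
      p ≤ i % (2 * p) ∧ y⁻¹ * (γ * D.r () ^ (i / (2 * p)) * w) ∈ B)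
    (hr : w⁻¹ * D.r () * g₀ ∈ B) {Z : Sys Γ W D.Ax} (R : Spq Z)
    (hθ : Z.θ = 100 * D.l) (hS : Z.S = D.S)
    (hG : ∀ k γ g, g ∈ R.G (D.ax k γ) ↔ ∃ j : ℤ, g = γ * D.r k ^ j * γ⁻¹) :
    Cells Z R A B w g₀ (D.r ()) (10 ^ 9 * D.l) := by
  intro a₀ ha₀ a₁ ha₁ y b₁ hb₁ b₀ hb₀ S ρ hρ hρ1 q₁ hq₁ q₂ hq₂ hρq hab hqa hqb
  obtain ⟨k₀, γ, rfl⟩ := D.ax_surj S
  have hk₀ : k₀ = () := rfl
  subst hk₀
  obtain ⟨t, rfl⟩ := (hG _ _ _).1 hρ
  have ht : t ≠ 0 := by
    rintro rfl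
    exact hρ1 (by rw [zpow_zero]; group)
  have hb := (D.br ()).smul γ
  have hK := hb.K_one
  have hl := hb.hl
  have hδK := hb.δ_le
  rw [hS] at hq₁ hq₂
  obtain ⟨i₁, rfl⟩ := (D.mem_S _ _ _).1 hq₁
  obtain ⟨i₂, rfl⟩ := (D.mem_S _ _ _).1 hq₂
  rw [hθ] at hρq hab hqa hqb
  -- nearest points
  obtain ⟨a', ha', -, ha'd⟩ := hA.near63 Y.hyp 1 ha₀ ha₁ (q := γ • D.P () i₁)
    (a := 1000 * (100 * D.l)) (by simpa only [one_mul] using hqa)
  obtain ⟨b', hb', -, hb'd⟩ := hB.near63 Y.hyp y hb₁ hb₀ hqb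
  rw [one_mul] at ha'd
  obtain ⟨u, hu⟩ := hb.proj (pt W a')
  obtain ⟨k, hk⟩ := hb.proj (pt W a₁)
  obtain ⟨k', hk'⟩ := hb.proj (pt W (y * b₁))
  obtain ⟨v, hv⟩ := hb.proj (pt W (y * b'))
  -- indices
  have c1 : |u - i₁| ≤ 10 ^ 6 := by
    have e1 : dist (pt W a') (γ • D.P () u) ≤ dist (pt W a') (γ • D.P () i₁) + _ :=
      proj_dist_le hu ⟨i₁, rfl⟩
    have e2 := dist_triangle (γ • D.P () u) (pt W a') (γ • D.P () i₁)
    rw [dist_comm (γ • D.P () u) (pt W a')] at e2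
    rw [dist_comm] at ha'd
    have := hb.idx_le (i := u) (j := i₁) (C := 5 * 10 ^ 5) (by push_cast; linarith)
    push_cast at this
    linarith
  have c2 : |v - i₂| ≤ 10 ^ 6 := by
    have e1 : dist (pt W (y * b')) (γ • D.P () v) ≤ dist (pt W (y * b')) (γ • D.P () i₂) + _ :=
      proj_dist_le hv ⟨i₂, rfl⟩
    have e2 := dist_triangle (γ • D.P () v) (pt W (y * b')) (γ • D.P () i₂)
    rw [dist_comm (γ • D.P () v) (pt W (y * b'))] at e2
    rw [dist_comm] at hb'd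
    have := hb.idx_le (i := v) (j := i₂) (C := 5 * 10 ^ 5) (by push_cast; linarith)
    push_cast at this
    linarith
  have c3 : |k - k'| ≤ 10 ^ 6 := by
    have e1 := le_pd_of_proj hk hk'
    have e2 := pd_le_dist (S := Set.range fun i => γ • D.P () i) ⟨_, ⟨k, rfl⟩⟩ (pt W a₁)
      (pt W (y * b₁))
    have := hb.idx_le (i := k) (j := k') (C := 5 * 10 ^ 5) (by push_cast; linarith)
    push_cast at this
    linarith
  have hρi : (γ * D.r () ^ t * γ⁻¹) • γ • D.P () i₁ = γ • D.P () (i₁ + 2 * p * t) := by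
    have := D.perz () t i₁
    rw [hm] at this
    push_cast at this
    rw [show i₁ + t * (2 * (p : ℤ)) = i₁ + 2 * p * t by ring] at this
    rw [this, smul_smul, smul_smul]
    congr 1
    group
  have c4 : |i₁ + 2 * p * t - i₂| ≤ 10 ^ 6 := by
    rw [hρi] at hρq
    have := hb.idx_le (i := i₁ + 2 * p * t) (j := i₂) (C := 5 * 10 ^ 5) (by push_cast; linarith)
    push_cast at this
    linarith
  have c5 : |v - u - 2 * p * t| ≤ 3 * 10 ^ 6 := by
    rw [abs_le] at c1 c2 c4 ⊢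
    constructor <;> linarith
  -- types
  have TA : ∀ w, min u k + 6 ≤ w → w + 7 ≤ max u k →
      w % (2 * p) < p ∧ γ * D.r () ^ (w / (2 * p)) ∈ A := fun w h1 h2 =>
    XA γ w a' ha' a₁ ha₁ (hb.pd_block' h1 h2 hu hk)
  have TB : ∀ w, min k' v + 6 ≤ w → w + 7 ≤ max k' v → p ≤ w % (2 * p) ∧ _ := fun w h1 h2 =>
    XB γ w y b₁ hb₁ b' hb' (hb.pd_block' h1 h2 hk' hv)
  obtain ⟨s, x, x', x1, x2, x3, x4, x5, hcase⟩ := core (p := (p : ℤ)) (C := 3 * 10 ^ 6)
    (u := u) (k := k) (k' := k') (v := v) (t := t) (by norm_num) (by omega)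
    (fun w h1 h2 => (TA w h1 h2).1) (fun w h1 h2 => (TB w h1 h2).1) (by linarith) c5 ht
  have hgA : γ * D.r () ^ s ∈ A := by
    have := (TA x x1 x2).2
    rwa [x3] at this
  have hgB := (TB x' x4 x5).2
  have hPs : ∀ s : ℤ, γ • D.P () (2 * p * s) = pt W (γ * D.r () ^ s) := fun s => by
    rw [hP, h0, smul_pt]
  have hPs' : ∀ s : ℤ, γ • D.P () (2 * p * s + p) = pt W (γ * D.r () ^ s * w) := fun s => by
    rw [hP, h1, smul_pt, mul_assoc]
  have far : ∀ {i j : ℤ}, |i - j| ≤ 2 * (3 * 10 ^ 6) + 18 →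
      dist (γ • D.P () i) (γ • D.P () j) ≤ 10 ^ 8 * D.l := by
    intro i j hij
    have := hb.up' (i := i) (j := j) (C := 10 ^ 7) (by push_cast; linarith)
    push_cast at this
    linarith
  have hq₁u : dist (γ • D.P () i₁) (γ • D.P () u) ≤ 10 ^ 8 * D.l := far (by
    rw [abs_sub_comm]; linarith)
  have ek : exc (γ • D.P () i₁) (pt W a₁) (γ • D.P () k) ≤ 10 * D.l := by
    have : dist (pt W a₁) (γ • D.P () k) + dist (γ • D.P () k) (γ • D.P () i₁) ≤
      dist (pt W a₁) (γ • D.P () i₁) + _ := hk.2 _ ⟨i₁, rfl⟩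
    rw [exc_comm]
    unfold exc
    linarith
  have ek' : exc (pt W (y * b₁)) (γ • D.P () i₂) (γ • D.P () k') ≤ 10 * D.l := by
    have : dist (pt W (y * b₁)) (γ • D.P () k') + dist (γ • D.P () k') (γ • D.P () i₂) ≤
      dist (pt W (y * b₁)) (γ • D.P () i₂) + _ := hk'.2 _ ⟨i₂, rfl⟩
    unfold exc
    linarith
  refine ⟨γ * D.r () ^ s, hgA, ?_⟩
  rcases hcase with ⟨rfl, d1, d2, d3, d4⟩ | ⟨rfl, d1, d2, d3, d4⟩
  · left
    rw [d4] at hgB
    refine ⟨by rw [zpow_one]; group, ?_, ?_, ?_, by rw [mul_assoc y⁻¹]; exact hgB⟩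
    · have e1 := far d1
      rw [hPs] at e1
      have e2 := dist_triangle (γ • D.P () i₁) (γ • D.P () u) (pt W (γ * D.r () ^ s))
      linarith
    · have e1 := far d2
      rw [hPs'] at e1
      have e2 := exc_move (γ • D.P () i₁) (pt W a₁) (γ • D.P () k) (pt W (γ * D.r () ^ s * w))
      linarith
    · have e1 := far d3
      rw [hPs'] at e1
      have e2 := exc_move (pt W (y * b₁)) (γ • D.P () i₂) (γ • D.P () k')
        (pt W (γ * D.r () ^ s * w))
      linarith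
  · right
    rw [d4] at hgB
    refine ⟨by rw [zpow_neg, zpow_one]; group, ?_, ?_, ?_, ?_⟩
    · have e1 := far d1
      rw [hPs'] at e1
      have e2 := dist_triangle (γ • D.P () i₁) (γ • D.P () u) (pt W (γ * D.r () ^ s * w))
      linarith
    · have e1 := far d2
      rw [hPs] at e1
      have e2 := exc_move (γ • D.P () i₁) (pt W a₁) (γ • D.P () k) (pt W (γ * D.r () ^ s))
      linarith
    · have e1 := far d3
      rw [hPs] at e1
      have e2 := exc_move (pt W (y * b₁)) (γ • D.P () i₂) (γ • D.P () k')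
        (pt W (γ * D.r () ^ s))
      linarith
    · have e1 := mul_mem hgB hr
      have e2 : y⁻¹ * (γ * D.r () ^ s) * g₀ =
          y⁻¹ * (γ * D.r () ^ (s - 1) * w) * (w⁻¹ * D.r () * g₀) := by
        rw [zpow_sub_one]; group
      rw [e2]; exact e1

end Pool.Agent.TH82.FG
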