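import Pool.Agent.TH63.SC.Br

set_option autoImplicit false
set_option linter.unusedSectionVars false

/-!
# Two broken lines running along each other have the same vertices (helper63)
-/

namespace Pool.Agent.TH63.SC

open Pool.Agent.Helper97.Hyp Pool.Agent.TH68

variable {Γ : Type*} [Group Γ] {W : WNorm Γ} {𝒜 : Type*} [MulAction Γ 𝒜]

namespace Br

variable {Y : Sys Γ W 𝒜} {K l L : ℝ}

/-- points near the same geodesic -/
lemma near_dist (hδ : Y.δ ≤ K) {p q x y : Pt W} (hx : exc p q x ≤ 29 * K)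
    (hy : exc p q y ≤ 29 * K) : dist x y ≤ |dist p x - dist p y| + 31 * K := by
  have := order_close Y.hyp hx hy
  linarith

/-- a block of one broken line cannot run over a vertex of another one -/
lemma turn (hθ : Y.θ ≤ K) {A A' B : 𝒜} (hA : A ≠ A') {p q x₀ x₁ x₂ y y' : Pt W}
    (n₀ : exc p q x₀ ≤ 29 * K) (n₁ : exc p q x₁ ≤ 29 * K) (n₂ : exc p q x₂ ≤ 29 * K)
    (m : exc p q y ≤ 29 * K) (m' : exc p q y' ≤ 29 * K)
    (a₀ : ∃ z ∈ Y.S A, dist z x₀ ≤ K) (a₁ : ∃ z ∈ Y.S A, dist z x₁ ≤ K)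
    (a₁' : ∃ z ∈ Y.S A', dist z x₁ ≤ K) (a₂ : ∃ z ∈ Y.S A', dist z x₂ ≤ K)
    (b : ∃ z ∈ Y.S B, dist z y ≤ K) (b' : ∃ z ∈ Y.S B, dist z y' ≤ K)
    (h0 : dist p x₀ + 37 * K ≤ dist p x₁) (h1 : dist p x₁ + 37 * K ≤ dist p x₂)
    (h2 : dist p y + 37 * K ≤ dist p x₁) (h3 : dist p x₁ + 37 * K ≤ dist p y') : False := by
  have hK : 1 ≤ K := Y.hδ.trans (Y.hθ.trans hθ)
  have hδ : Y.δ ≤ K := Y.hθ.trans hθ
  have t1 := dist_triangle p y x₁
  rw [dist_comm y x₁] at t1
  have t2 := near_dist hδ n₁ m'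
  rw [abs_of_nonpos (by linarith)] at t2
  have t3 := near_dist hδ n₁ m
  rw [abs_of_nonneg (by linarith)] at t3
  have t4 := dist_triangle p x₁ y'
  have e1 : A = B := by
    by_contra hne
    have h4 := cross hθ hne a₀ a₁ b b'
    have t5 := near_dist hδ n₀ m
    have t6 := dist_triangle p x₀ y'
    rcases abs_cases (dist p x₀ - dist p y) with ⟨h5, -⟩ | ⟨h5, -⟩ <;> rw [h5] at t5 <;> linarith
  have e2 : A' = B := by
    by_contra hne
    have h4 := cross hθ hne a₁' a₂ b b'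
    have t5 := dist_triangle p y x₂
    rw [dist_comm y x₂] at t5
    have t6 := near_dist hδ n₂ m'
    rcases abs_cases (dist p x₂ - dist p y') with ⟨h5, -⟩ | ⟨h5, -⟩ <;> rw [h5] at t6 <;> linarith
  exact hA (e1.trans e2.symm)

/-- blocks with close endpoints lie on the same line -/
lemma line_eq (hθ : Y.θ ≤ K) (hl : 200 * K ≤ l) {A B : 𝒜} {x x' y y' : Pt W}
    (a : ∃ z ∈ Y.S A, dist z x ≤ K) (a' : ∃ z ∈ Y.S A, dist z x' ≤ K)
    (b : ∃ z ∈ Y.S B, dist z y ≤ K) (b' : ∃ z ∈ Y.S B, dist z y' ≤ K)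
    (h1 : dist x y ≤ 68 * K) (h2 : dist x' y' ≤ 68 * K) (h3 : l ≤ dist x x') : A = B := by
  have hK : 1 ≤ K := Y.hδ.trans (Y.hθ.trans hθ)
  by_contra hne
  have h4 := cross hθ hne a a' b b'
  have t1 := dist_triangle x y x'
  have t2 := dist_triangle x y' x'
  rw [dist_comm y x'] at t1
  rw [dist_comm y' x'] at t2
  linarith

variable {P Q : ℤ → Pt W} {A B : ℤ → 𝒜}

lemma split_left (hP : Br Y K l L P A) {u w w' : ℤ} (huw : u ≤ w) (hww : w ≤ w') {p : Pt W}
    (hu : IsProj (L + 2 * K) (Set.range P) p (P u)) (hd : L < dist (P u) (P w)) :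
    exc p (P w') (P w) ≤ 27 * K := by
  have hδ := hP.δ_le
  have hl := hP.hl
  have hL := hP.l_le
  have hK := hP.K_one
  have h1 := hP.exc_le huw hww
  rcases exc_split Y.hyp (P u) (P w') p (P w) with h2 | h2
  · exfalso
    have h3 := hu.2 (P w) ⟨w, rfl⟩
    unfold exc at h2 h1
    rw [dist_comm (P w) p, dist_comm (P u) p] at h2
    linarith
  · linarith

lemma near_mid (hP : Br Y K l L P A) {u v w : ℤ} (huw : u ≤ w) (hwv : w ≤ v) {p q : Pt W}
    (hu : IsProj (L + 2 * K) (Set.range P) p (P u)) (hv : IsProj (L + 2 * K) (Set.range P) q (P v))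
    (hd : L < dist (P u) (P w)) (hd' : L < dist (P w) (P v)) : exc p q (P w) ≤ 29 * K := by
  have hδ := hP.δ_le
  have hl := hP.hl
  have hL := hP.l_le
  have hK := hP.K_one
  have h1 := hP.split_left huw hwv hu hd
  rcases exc_split Y.hyp p (P v) q (P w) with h2 | h2
  · linarith
  · exfalso
    have h3 := hv.2 (P w) ⟨w, rfl⟩
    unfold exc at h2 h1
    rw [dist_comm (P v) (P w)] at h3
    linarith

/-- the crossing theorem -/
theorem crossing (hP : Br Y K l L P A) (hQ : Br Y K l L Q B) {j m : ℤ} (hjm : j < m) {u v : ℤ}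
    (huv : u < v) (hu : IsProj (L + 2 * K) (Set.range P) (Q j) (P u))
    (hv : IsProj (L + 2 * K) (Set.range P) (Q m) (P v)) (hfar : 9 * L < dist (P u) (P v)) :
    ∃ w k : ℤ, dist (P w) (Q k) ≤ 68 * K ∧ dist (P (w + 1)) (Q (k + 1)) ≤ 68 * K ∧
      dist (P (w + 2)) (Q (k + 2)) ≤ 68 * K ∧ A w = B k ∧ A (w + 1) = B (k + 1) := by
  classical
  have hδ := hP.δ_le
  have hl := hP.hl
  have hL := hP.l_le
  have hK := hP.K_one
  have hθ := hP.hθ
  -- the first vertex far from `P u`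
  have hex : ∃ n : ℕ, L < dist (P u) (P (u + n)) :=
    ⟨(v - u).toNat, by rw [show u + ((v - u).toNat : ℤ) = v by omega]; linarith⟩
  obtain ⟨n, hn⟩ : ∃ n, n = Nat.find hex := ⟨_, rfl⟩
  have hn1 : L < dist (P u) (P (u + n)) := hn ▸ Nat.find_spec hex
  have hn0 : n ≠ 0 := by
    rintro rfl
    rw [Nat.cast_zero, add_zero, dist_self] at hn1
    linarith
  have hn2 : dist (P u) (P (u + n)) ≤ 2 * L := by
    have h1 : ¬ L < dist (P u) (P (u + (n - 1 : ℕ))) := Nat.find_min hex (by omega)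
    have h2 := hP.hi (u + (n - 1 : ℕ))
    rw [show u + ((n - 1 : ℕ) : ℤ) + 1 = u + n by omega] at h2
    have h3 := dist_triangle (P u) (P (u + (n - 1 : ℕ))) (P (u + n))
    linarith
  obtain ⟨z, hz⟩ : ∃ z : ℤ, z = u + n := ⟨_, rfl⟩
  rw [← hz] at hn1 hn2
  have huz : u ≤ z := by omega
  have hup : ∀ i : ℕ, dist (P u) (P (z + i)) ≤ (2 + i) * L := by
    intro i
    induction i with
    | zero => simpa using hn2
    | succ i ih =>
      have h2 := hP.hi (z + i)
      have h3 := dist_triangle (P u) (P (z + i)) (P (z + i + 1))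
      push_cast
      rw [← add_assoc]
      linarith
  have hlow : ∀ i : ℕ, L < dist (P u) (P (z + i)) := by
    intro i
    rcases Nat.eq_zero_or_pos i with rfl | hi
    · simpa using hn1
    · have h1 := hP.dist_add (i := u) (j := z) (k := z + i) huz (by omega)
      have h2 := hP.lo_lt (i := z) (j := z + i) (by omega)
      linarith
  have hzv : ∀ i : ℕ, i ≤ 4 → z + i ≤ v := by
    intro i hi
    by_contra hcon
    push Not at hcon
    have h1 := hP.dist_add (i := u) (j := v) (k := z + i) huv.le hcon.le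
    have h2 := hup i
    have h3 : (i : ℝ) ≤ 4 := by exact_mod_cast hi
    have h4 : (2 + (i : ℝ)) * L ≤ 6 * L := mul_le_mul_of_nonneg_right (by linarith) (by linarith)
    have h5 := dist_nonneg (x := P v) (y := P (z + i))
    linarith
  have hfv : ∀ i : ℕ, i ≤ 4 → 3 * L < dist (P (z + i)) (P v) := by
    intro i hi
    have h2 := hup i
    have h3 : (i : ℝ) ≤ 4 := by exact_mod_cast hi
    have h4 : (2 + (i : ℝ)) * L ≤ 6 * L := mul_le_mul_of_nonneg_right (by linarith) (by linarith)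
    have h5 := dist_triangle (P u) (P (z + i)) (P v)
    linarith
  have hnear : ∀ i : ℕ, i ≤ 4 → exc (Q j) (Q m) (P (z + i)) ≤ 29 * K := fun i hi =>
    hP.near_mid (by omega) (hzv i hi) hu hv (hlow i) (by have := hfv i hi; linarith)
  have hinc : ∀ i : ℕ, i ≤ 3 →
      dist (Q j) (P (z + i)) + (l - 27 * K) ≤ dist (Q j) (P (z + (i + 1 : ℕ))) := by
    intro i hi
    have h1 := hP.split_left (w := z + i) (w' := z + (i + 1 : ℕ)) (by omega) (by omega) hu (hlow i)
    have h2 := hP.lo (z + i)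
    rw [show z + (i : ℤ) + 1 = z + ((i + 1 : ℕ) : ℤ) by push_cast; ring] at h2
    unfold exc at h1
    linarith
  -- the vertices of `Q`
  have qnear : ∀ k : ℤ, j ≤ k → k ≤ m → exc (Q j) (Q m) (Q k) ≤ 29 * K := by
    intro k h1 h2
    have := hQ.exc_le h1 h2
    linarith
  have qinc : ∀ k k' : ℤ, j ≤ k → k < k' →
      dist (Q j) (Q k) + (l - 50 * K) ≤ dist (Q j) (Q k') := by
    intro k k' h1 h2
    have h3 := hQ.dist_add h1 h2.le
    have h4 := hQ.lo_lt h2
    linarith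
  have qinc1 : ∀ k : ℤ, j ≤ k →
      dist (Q j) (Q k) + (l - 25 * K) ≤ dist (Q j) (Q (k + 1)) := by
    intro k h1
    have h3 := hQ.dist_add (i := j) (j := k) (k := k + 1) h1 (by omega)
    have h4 := hQ.lo k
    linarith
  have hlast : ∀ i : ℕ, i ≤ 4 → dist (Q j) (P (z + i)) < dist (Q j) (Q m) := by
    intro i hi
    have h1 := hnear i hi
    have h2 := hfv i hi
    have h3 := hv.2 (P (z + i)) ⟨_, rfl⟩
    rw [dist_comm (P v) (P (z + i)), dist_comm (Q m) (P (z + i))] at h3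
    unfold exc at h1
    have h4 := dist_nonneg (x := Q m) (y := P v)
    linarith
  -- matching
  have hmatch : ∀ i : ℕ, 1 ≤ i → i ≤ 3 → ∃ k : ℤ, j ≤ k ∧ k ≤ m ∧
      |dist (Q j) (P (z + i)) - dist (Q j) (Q k)| ≤ 37 * K := by
    intro i hi1 hi3
    have hex2 : ∃ n : ℕ, dist (Q j) (P (z + i)) < dist (Q j) (Q (j + n)) :=
      ⟨(m - j).toNat, by
        rw [show j + ((m - j).toNat : ℤ) = m by omega]; exact hlast i (by omega)⟩
    obtain ⟨t, ht⟩ : ∃ t, t = Nat.find hex2 := ⟨_, rfl⟩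
    have ht1 : dist (Q j) (P (z + i)) < dist (Q j) (Q (j + t)) := ht ▸ Nat.find_spec hex2
    have ht0 : t ≠ 0 := by
      rintro rfl
      rw [Nat.cast_zero, add_zero, dist_self] at ht1
      have := dist_nonneg (x := Q j) (y := P (z + i))
      linarith
    have htm : j + (t : ℤ) ≤ m := by
      have h1 : t ≤ (m - j).toNat := by
        rw [ht]
        apply Nat.find_min'
        rw [show j + ((m - j).toNat : ℤ) = m by omega]
        exact hlast i (by omega)
      omega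
    have ht2 : dist (Q j) (Q (j + (t - 1 : ℕ))) ≤ dist (Q j) (P (z + i)) :=
      not_lt.1 (Nat.find_min hex2 (by omega))
    obtain ⟨k, hk⟩ : ∃ k : ℤ, k = j + (t - 1 : ℕ) := ⟨_, rfl⟩
    rw [show j + (t : ℤ) = k + 1 by omega] at ht1 htm
    rw [← hk] at ht2
    by_cases c1 : dist (Q j) (P (z + i)) ≤ dist (Q j) (Q k) + 37 * K
    · refine ⟨k, by omega, by omega, ?_⟩
      rw [abs_of_nonneg (by linarith)]
      linarith
    by_cases c2 : dist (Q j) (Q (k + 1)) ≤ dist (Q j) (P (z + i)) + 37 * K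
    · refine ⟨k + 1, by omega, by omega, ?_⟩
      rw [abs_of_nonpos (by linarith)]
      linarith
    exfalso
    push Not at c1 c2
    obtain ⟨i', rfl⟩ : ∃ i', i = i' + 1 := ⟨i - 1, by omega⟩
    have a1 := hinc i' (by omega)
    have a2 := hinc (i' + 1) (by omega)
    have r1 := hP.right (z + i')
    rw [show z + (i' : ℤ) + 1 = z + ((i' + 1 : ℕ) : ℤ) by push_cast; ring] at r1
    have r2 := hP.right (z + (i' + 1 : ℕ))
    rw [show z + ((i' + 1 : ℕ) : ℤ) + 1 = z + ((i' + 1 + 1 : ℕ) : ℤ) by push_cast; ring] at r2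
    have hne := hP.ne (z + i')
    rw [show z + (i' : ℤ) + 1 = z + ((i' + 1 : ℕ) : ℤ) by push_cast; ring] at hne
    exact turn hθ hne (hnear i' (by omega)) (hnear (i' + 1) (by omega))
      (hnear (i' + 1 + 1) (by omega)) (qnear k (by omega) (by omega))
      (qnear (k + 1) (by omega) (by omega)) (hP.left _) r1 (hP.left _) r2 (hQ.left k) (hQ.right k)
      (by linarith) (by linarith) (by linarith) (by linarith)
  have hnext : ∀ i : ℕ, 1 ≤ i → i ≤ 2 → ∀ k k' : ℤ, j ≤ k → k ≤ m → j ≤ k' → k' ≤ m →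
      |dist (Q j) (P (z + i)) - dist (Q j) (Q k)| ≤ 37 * K →
      |dist (Q j) (P (z + (i + 1 : ℕ))) - dist (Q j) (Q k')| ≤ 37 * K → k' = k + 1 := by
    intro i hi1 hi2 k k' hk1 hk2 hk1' hk2' e1 e2
    rw [abs_le] at e1 e2
    have a1 := hinc i (by omega)
    have hlt : k < k' := by
      by_contra hcon
      push Not at hcon
      have h1 : dist (Q j) (Q k') ≤ dist (Q j) (Q k) := by
        rcases hcon.eq_or_lt with h2 | h2
        · rw [h2]
        · have := qinc k' k hk1' h2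
          linarith
      linarith
    by_contra hne
    have hlt2 : k + 1 < k' := by omega
    have b1 := qinc1 k hk1
    have b2 := qinc1 (k + 1) (by omega)
    have b3 := qinc (k + 1) k' (by omega) hlt2
    have r1 := hP.right (z + i)
    rw [show z + (i : ℤ) + 1 = z + ((i + 1 : ℕ) : ℤ) by push_cast; ring] at r1
    exact turn hθ (hQ.ne k) (qnear k hk1 hk2) (qnear (k + 1) (by omega) (by omega))
      (qnear (k + 1 + 1) (by omega) (by omega)) (hnear i (by omega)) (hnear (i + 1) (by omega))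
      (hQ.left k) (hQ.right k) (hQ.left (k + 1)) (hQ.right (k + 1)) (hP.left _) r1
      (by linarith) (by linarith) (by linarith) (by linarith)
  obtain ⟨k₁, h11, h12, h13⟩ := hmatch 1 le_rfl (by omega)
  obtain ⟨k₂, h21, h22, h23⟩ := hmatch 2 (by omega) (by omega)
  obtain ⟨k₃, h31, h32, h33⟩ := hmatch 3 (by omega) le_rfl
  have e2 := hnext 1 le_rfl (by omega) k₁ k₂ h11 h12 h21 h22 h13 h23
  have e3 := hnext 2 (by omega) le_rfl k₂ k₃ h21 h22 h31 h32 h23 h33
  have d1 := near_dist hδ (hnear 1 (by omega)) (qnear k₁ h11 h12)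
  have d2 := near_dist hδ (hnear 2 (by omega)) (qnear k₂ h21 h22)
  have d3 := near_dist hδ (hnear 3 (by omega)) (qnear k₃ h31 h32)
  subst e2
  subst e3
  refine ⟨z + (1 : ℕ), k₁, by linarith, ?_, ?_, ?_, ?_⟩
  · rw [show z + ((1 : ℕ) : ℤ) + 1 = z + ((2 : ℕ) : ℤ) by push_cast; ring]
    linarith
  · rw [show z + ((1 : ℕ) : ℤ) + 2 = z + ((3 : ℕ) : ℤ) by push_cast; ring,
      show k₁ + 2 = k₁ + 1 + 1 by ring]
    linarith
  · have r1 := hP.right (z + (1 : ℕ))
    rw [show z + ((1 : ℕ) : ℤ) + 1 = z + ((2 : ℕ) : ℤ) by push_cast; ring] at r1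
    have l1 := hP.lo (z + (1 : ℕ))
    rw [show z + ((1 : ℕ) : ℤ) + 1 = z + ((2 : ℕ) : ℤ) by push_cast; ring] at l1
    exact line_eq hθ hl (hP.left _) r1 (hQ.left k₁) (hQ.right k₁) (by linarith) (by linarith) l1
  · rw [show z + ((1 : ℕ) : ℤ) + 1 = z + ((2 : ℕ) : ℤ) by push_cast; ring]
    have r1 := hP.right (z + (2 : ℕ))
    rw [show z + ((2 : ℕ) : ℤ) + 1 = z + ((3 : ℕ) : ℤ) by push_cast; ring] at r1
    have l1 := hP.lo (z + (2 : ℕ))
    rw [show z + ((2 : ℕ) : ℤ) + 1 = z + ((3 : ℕ) : ℤ) by push_cast; ring] at l1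
    exact line_eq hθ hl (hP.left _) r1 (hQ.left _) (hQ.right _) (by linarith) (by linarith) l1

end Br

end Pool.Agent.TH63.SC
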