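import Pool.Agent.TH68.Wind
import Pool.Agent.TH68.C.Defs

set_option autoImplicit false
set_option linter.unusedSectionVars false

/-!
# Spinning families on locally finite systems of axes (helper63)
-/

namespace Pool.Agent.TH63.SC

open Pool.Agent.Helper97.Hyp Pool.Agent.TH68 Pool.Agent.TH68.C

/-- a locally finite system of axes -/
structure Fine (Γ : Type*) [Group Γ] (W : WNorm Γ) (𝒜 : Type*) [MulAction Γ 𝒜] where
  δ : ℝ
  ϑ : ℝ
  hyp : GHyp (Pt W) δ
  hδ : 1 ≤ δ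
  hϑ : δ ≤ ϑ
  S : 𝒜 → Set (Pt W)
  Sne : ∀ A, (S A).Nonempty
  smul_mem : ∀ (γ : Γ) (A : 𝒜) (x : Pt W), x ∈ S A → γ • x ∈ S (γ • A)
  proj : ∀ (A : 𝒜) (x : Pt W), ∃ q, IsProj ϑ (S A) x q
  small : ∀ A B : 𝒜, A ≠ B → ∀ p ∈ S B, ∀ q ∈ S B, pd (S A) p q ≤ ϑ
  fin : ∀ (p : Pt W) (R : ℝ), {A | ∃ x ∈ S A, dist p x ≤ R}.Finite

namespace Fine

variable {Γ : Type*} [Group Γ] {W : WNorm Γ} {𝒜 : Type*} [MulAction Γ 𝒜] (F : Fine Γ W 𝒜)

lemma ϑ_one : 1 ≤ F.ϑ := F.hδ.trans F.hϑ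

lemma mem_smul (γ : Γ) (A : 𝒜) (x : Pt W) : x ∈ F.S (γ • A) ↔ γ⁻¹ • x ∈ F.S A := by
  constructor
  · intro h
    have := F.smul_mem γ⁻¹ _ _ h
    rwa [inv_smul_smul] at this
  · intro h
    have := F.smul_mem γ _ _ h
    rwa [smul_inv_smul] at this

/-- the system -/
def sys : Sys Γ W 𝒜 where
  δ := F.δ
  θ := 7 * F.ϑ
  hyp := F.hyp
  hδ := F.hδ
  hθ := by have := F.hϑ; have := F.ϑ_one; linarith
  S := F.S
  Sne := F.Sne
  smul_mem := F.smul_mem
  proj A x := by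
    obtain ⟨q, hq⟩ := F.proj A x
    refine ⟨q, hq.1, fun s hs => ?_⟩
    have := hq.2 s hs
    have := F.ϑ_one
    linarith
  small A B hAB p hp q hq := by
    have := F.small A B hAB p hp q hq
    have := F.ϑ_one
    linarith

lemma closer {A B : 𝒜} (hAB : A ≠ B) {p b : Pt W} (hb : b ∈ F.S B)
    (hd : 7 * F.ϑ < pd (F.S A) p b) :
    Metric.infDist p (F.S A) < Metric.infDist p (F.S B) := by
  have hδ := F.hδ
  have hϑ := F.hϑ
  have h1 : Metric.infDist p (F.S A) + 1 ≤ Metric.infDist p (F.S B) := by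
    rw [Metric.le_infDist (F.Sne B)]
    intro b₁ hb₁
    obtain ⟨p', hp'⟩ := F.proj A p
    obtain ⟨b', hb'⟩ := F.proj A b₁
    have h2 := pd_tri (F.Sne A) p b₁ b
    have h3 := F.small A B hAB b₁ hb₁ b hb
    have h4 := far_of_pd F.hyp hp' hb' (by linarith)
    have h5 := Metric.infDist_le_dist_of_mem (x := p) hp'.1
    have h6 := dist_nonneg (x := b₁) (y := b')
    linarith
  linarith

lemma fin_ax (p q : Pt W) : {A : 𝒜 | 7 * F.ϑ < pd (F.S A) p q}.Finite := by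
  have hδ := F.hδ
  have hϑ := F.hϑ
  apply (F.fin p (dist p q + 3 * F.ϑ + 2 * F.δ)).subset
  intro A hA
  have hA' : 7 * F.ϑ < pd (F.S A) p q := hA
  obtain ⟨p', hp'⟩ := F.proj A p
  obtain ⟨q', hq'⟩ := F.proj A q
  have h4 := far_of_pd F.hyp hp' hq' (by linarith)
  refine ⟨p', hp'.1, ?_⟩
  have h6 := dist_nonneg (x := q) (y := q')
  linarith

/-- the projection system -/
noncomputable def ps : ProjSys Γ 𝒜 (Pt W) where
  d A p q := pd (F.S A) p q
  S := F.S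
  r p A := Metric.infDist p (F.S A)
  θ := 7 * F.ϑ
  θpos := by have := F.ϑ_one; linarith
  symm A p q := pd_symm (F.Sne A) p q
  tri A p q s := pd_tri (F.Sne A) p q s
  self A p := pd_self (F.Sne A) p
  inv γ A p q := pd_smul (F.Sne A) (F.mem_smul γ A) p q
  Sinv γ A p hp := F.smul_mem γ A p hp
  Sne := F.Sne
  proj A B p q hAB hp hq := by
    have h1 := F.small A B hAB p hp q hq
    have := F.ϑ_one
    linarith
  beh A B p a b hAB ha hb := by
    by_contra hcon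
    push Not at hcon
    have h1 := F.closer hAB hb hcon.1
    have h2 := F.closer hAB.symm ha hcon.2
    linarith
  closer A B p b hAB hb hd := F.closer hAB hb hd
  fin := F.fin_ax

variable {M : ℝ} (G : 𝒜 → Subgroup Γ) (hM : 701 * F.ϑ ≤ M)
  (hG : ∀ (γ : Γ) A g, g ∈ G A → γ * g * γ⁻¹ ∈ G (γ • A))
  (hfix : ∀ A, ∀ r ∈ G A, r • A = A)
  (hspin : ∀ A, ∀ r ∈ G A, r ≠ 1 → ∀ q ∈ F.S A, M ≤ dist q (r • q))

/-- the spinning family of the library -/
noncomputable def spin : Spin F.ps where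
  G := G
  M := M - F.ϑ
  hM := by
    change 100 * (7 * F.ϑ) ≤ _
    linarith
  Gconj := hG
  Gfix A n hn := hfix A n hn
  spin A n p hn hn1 := by
    obtain ⟨p', hp'⟩ := F.proj A p
    have h0 : n • A = A := hfix A n hn
    have h1 : IsProj F.ϑ (F.S A) (n • p) (n • p') := by
      apply hp'.smul (γ := n)
      intro x
      have := F.mem_smul n A x
      rwa [h0] at this
    have h2 := le_pd_of_proj hp' h1
    have h3 := hspin A n hn hn1 p' hp'.1
    change M - F.ϑ ≤ pd _ _ _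
    linarith

lemma iSup_normal (hG : ∀ (γ : Γ) A g, g ∈ G A → γ * g * γ⁻¹ ∈ G (γ • A)) :
    (⨆ A, G A).Normal where
  conj_mem n hn γ := by
    have h1 : (⨆ A, G A) ≤ (⨆ A, G A).comap (MulAut.conj γ).toMonoidHom := by
      apply iSup_le
      intro A x hx
      rw [Subgroup.mem_comap]
      exact (le_iSup G (γ • A)) (hG γ A x hx)
    exact h1 hn

/-- the spinning family -/
noncomputable def sp0 (hcob : ∃ R : ℝ, ∀ A, ∀ p ∈ F.S A, ∀ q ∈ F.S A, ∃ r ∈ G A,
    dist p (r • q) ≤ R) : Sp0 F.sys where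
  M := M
  N := ⨆ A, G A
  normal := iSup_normal G hG
  G := G
  G_le := le_iSup G
  fix := hfix
  spin := hspin
  wind n hn hn1 x := by
    obtain ⟨A, r, hr, hr1, h⟩ := (F.spin G hM hG hfix hspin).swind x hn hn1
    refine ⟨A, r, hr, hr1, ?_⟩
    have h1 : pd (F.S A) (r • x) (n • x) ≤ 42 * (7 * F.ϑ) := h
    have := F.ϑ_one
    change pd (F.S A) (r • x) (n • x) ≤ 50 * (7 * F.ϑ)
    linarith
  cob := hcob

end Fine

end Pool.Agent.TH63.SC
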