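import Pool.Agent.TH63.SC.Cross
import Pool.Agent.TH63.SC.Fine

set_option autoImplicit false
set_option linter.unusedSectionVars false

/-!
# The spinning family of a periodic broken line (helper63)
-/

namespace Pool.Agent.TH63.SC

open Pool.Agent.Helper97.Hyp Pool.Agent.TH68 Pool.Agent.TH68.C

variable {Γ : Type*} [Group Γ] {W : WNorm Γ} {𝒜 : Type*} [MulAction Γ 𝒜]

/-- a rigid periodic broken line -/
structure Eqv (Y : Sys Γ W 𝒜) (K l L : ℝ) (P : ℤ → Pt W) (A : ℤ → 𝒜) (T : ℕ) (r : Γ) : Prop where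
  br : Br Y K l L P A
  hT : 0 < T
  per : ∀ i, P (i + T) = r • P i
  rig : ∀ (g : Γ) (w k : ℤ), dist (P w) (g • P k) ≤ 68 * K →
    dist (P (w + 1)) (g • P (k + 1)) ≤ 68 * K → dist (P (w + 2)) (g • P (k + 2)) ≤ 68 * K →
    A w = g • A k → A (w + 1) = g • A (k + 1) → g ∈ Subgroup.zpowers r
  rig' : ∀ (g : Γ) (w k : ℤ), dist (P (w + 1)) (g • P k) ≤ 68 * K →
    dist (P w) (g • P (k + 1)) ≤ 68 * K → A w ≠ g • A k

/-- the translates of a periodic line -/
def ln (P : ℤ → Pt W) (r : Γ) (B : Γ ⧸ Subgroup.zpowers r) : Set (Pt W) :=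
  {x | ∃ γ : Γ, (γ : Γ ⧸ Subgroup.zpowers r) = B ∧ ∃ i, γ • P i = x}

lemma ln_smul (P : ℤ → Pt W) (r : Γ) (γ : Γ) (B : Γ ⧸ Subgroup.zpowers r) (x : Pt W) :
    x ∈ ln P r (γ • B) ↔ γ⁻¹ • x ∈ ln P r B := by
  constructor
  · rintro ⟨β, hβ, i, rfl⟩
    refine ⟨γ⁻¹ * β, ?_, i, mul_smul _ _ _⟩
    have h1 : ((γ⁻¹ * β : Γ) : Γ ⧸ Subgroup.zpowers r) = γ⁻¹ • (β : Γ ⧸ Subgroup.zpowers r) := rfl
    rw [h1, hβ, inv_smul_smul]
  · rintro ⟨β, hβ, i, hx⟩
    refine ⟨γ * β, ?_, i, ?_⟩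
    · have h1 : ((γ * β : Γ) : Γ ⧸ Subgroup.zpowers r) = γ • (β : Γ ⧸ Subgroup.zpowers r) := rfl
      rw [h1, hβ]
    · rw [mul_smul, hx, smul_inv_smul]

lemma ln_ne (P : ℤ → Pt W) (r : Γ) (B : Γ ⧸ Subgroup.zpowers r) : (ln P r B).Nonempty := by
  obtain ⟨γ, rfl⟩ := QuotientGroup.mk_surjective B
  exact ⟨γ • P 0, γ, rfl, 0, rfl⟩

namespace Eqv

variable {Y : Sys Γ W 𝒜} {K l L : ℝ} {P : ℤ → Pt W} {A : ℤ → 𝒜} {T : ℕ} {r : Γ}
variable (h : Eqv Y K l L P A T r)

include h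

lemma perz (s i : ℤ) : P (i + s * T) = r ^ s • P i := by
  have key : ∀ (n : ℕ) (i : ℤ), P (i + n * T) = r ^ n • P i := by
    intro n
    induction n with
    | zero => intro i; simp
    | succ n ih =>
      intro i
      have h1 := h.per (i + n * T)
      rw [ih, smul_smul, ← pow_succ'] at h1
      rw [← h1]
      congr 1
      push_cast
      ring
  rcases Int.natAbs_eq s with hs | hs
  · have h1 := key s.natAbs i
    rw [← zpow_natCast, ← hs] at h1
    exact h1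
  · have h1 := key s.natAbs (i + s * T)
    have h2 : i + s * T + (s.natAbs : ℤ) * T = i := by
      have : (s.natAbs : ℤ) = -s := by omega
      rw [this]; ring
    rw [h2, ← zpow_natCast, show (s.natAbs : ℤ) = -s by omega] at h1
    rw [h1, smul_smul, ← zpow_add, add_neg_cancel, zpow_zero, one_smul]

lemma ln_coe (γ : Γ) (x : Pt W) : x ∈ ln P r (γ : Γ ⧸ Subgroup.zpowers r) ↔ ∃ i, x = γ • P i := by
  constructor
  · rintro ⟨β, hβ, i, rfl⟩
    obtain ⟨s, hs⟩ := QuotientGroup.eq.mp hβ.symm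
    have hs' : β = γ * r ^ s := by
      have : r ^ s = γ⁻¹ * β := hs
      rw [this]; group
    refine ⟨i + s * T, ?_⟩
    rw [h.perz, hs', mul_smul]
  · rintro ⟨i, rfl⟩
    exact ⟨γ, rfl, i, rfl⟩

lemma ln_one : ln P r ((1 : Γ) : Γ ⧸ Subgroup.zpowers r) = Set.range P := by
  ext x
  rw [h.ln_coe]
  constructor
  · rintro ⟨i, rfl⟩; exact ⟨i, by rw [one_smul]⟩
  · rintro ⟨i, rfl⟩; exact ⟨i, by rw [one_smul]⟩

lemma up (i : ℤ) (n : ℕ) : dist (P i) (P (i + n)) ≤ n * L := by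
  induction n with
  | zero => simp
  | succ n ih =>
    have h1 := h.br.hi (i + n)
    have h2 := dist_triangle (P i) (P (i + n)) (P (i + n + 1))
    push_cast
    rw [← add_assoc]
    linarith

lemma L_pos : 200 ≤ L := by
  have := h.br.K_one
  have := h.br.hl
  have := h.br.l_le
  linarith

/-- translates which are not the line itself have small projections -/
lemma small_one {g : Γ} (hg : g ∉ Subgroup.zpowers r) (i j : ℤ) :
    pd (Set.range P) (g • P i) (g • P j) ≤ 11 * L := by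
  have hL := h.L_pos
  have hK := h.br.K_one
  have hl := h.br.hl
  have hlL := h.br.l_le
  have hne : (Set.range P).Nonempty := ⟨P 0, 0, rfl⟩
  wlog hij : i < j generalizing i j with H
  · rcases (not_lt.1 hij).eq_or_lt with h1 | h1
    · rw [h1, pd_self hne]; linarith
    · rw [pd_symm hne]; exact H j i h1
  obtain ⟨u, hu⟩ := h.br.proj (g • P i)
  obtain ⟨v, hv⟩ := h.br.proj (g • P j)
  have h1 := pd_le_of_proj hu hv
  by_cases hfar : 9 * L < dist (P u) (P v)
  swap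
  · push Not at hfar
    linarith
  exfalso
  rcases lt_trichotomy u v with huv | rfl | huv
  · obtain ⟨w, k, e1, e2, e3, e4, e5⟩ := h.br.crossing (h.br.smul g) hij huv hu hv hfar
    exact hg (h.rig g w k e1 e2 e3 e4 e5)
  · rw [dist_self] at hfar; linarith
  · have hr : Set.range (fun i : ℤ => P (-i)) = Set.range P := by
      ext x
      constructor
      · rintro ⟨i, rfl⟩; exact ⟨-i, rfl⟩
      · rintro ⟨i, rfl⟩; exact ⟨-i, by simp⟩
    obtain ⟨w, k, e1, e2, -, e4, -⟩ := h.br.rev.crossing (h.br.smul g) hij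
      (u := -u) (v := -v) (by omega) (by rw [hr]; simpa using hu) (by rw [hr]; simpa using hv)
      (by simpa using hfar)
    apply h.rig' g (-w - 1) k _ _ e4
    · rw [sub_add_cancel]; exact e1
    · rw [show -(w + 1) = -w - 1 by ring] at e2
      exact e2

/-- the fine system -/
def fine : Fine Γ W (Γ ⧸ Subgroup.zpowers r) where
  δ := Y.δ
  ϑ := 11 * L
  hyp := Y.hyp
  hδ := Y.hδ
  hϑ := by
    have := h.br.δ_le
    have := h.br.K_one
    have := h.br.hl
    have := h.br.l_le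
    linarith
  S := ln P r
  Sne := ln_ne P r
  smul_mem γ B x hx := by rw [ln_smul, inv_smul_smul]; exact hx
  proj B x := by
    obtain ⟨γ, rfl⟩ := QuotientGroup.mk_surjective B
    obtain ⟨m, hm⟩ := h.br.proj (γ⁻¹ • x)
    refine ⟨γ • P m, (h.ln_coe γ _).2 ⟨m, rfl⟩, ?_⟩
    intro s hs
    obtain ⟨i, rfl⟩ := (h.ln_coe γ s).1 hs
    have h1 := hm.2 (P i) ⟨i, rfl⟩
    have h2 : dist (γ⁻¹ • x) (P m) = dist x (γ • P m) := by
      rw [← dist_smul γ, smul_inv_smul]
    have h3 : dist (γ⁻¹ • x) (P i) = dist x (γ • P i) := by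
      rw [← dist_smul γ, smul_inv_smul]
    rw [dist_smul, ← h2, ← h3]
    have := h.br.K_one
    have := h.br.hl
    have := h.br.l_le
    linarith
  small B C hBC p hp q hq := by
    obtain ⟨α, rfl⟩ := QuotientGroup.mk_surjective B
    obtain ⟨β, rfl⟩ := QuotientGroup.mk_surjective C
    obtain ⟨i, rfl⟩ := (h.ln_coe β p).1 hp
    obtain ⟨j, rfl⟩ := (h.ln_coe β q).1 hq
    have hT : ∀ x, x ∈ ln P r (α : Γ ⧸ Subgroup.zpowers r) ↔ α⁻¹ • x ∈ Set.range P := by
      intro x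
      rw [h.ln_coe]
      constructor
      · rintro ⟨i, rfl⟩; exact ⟨i, by rw [inv_smul_smul]⟩
      · rintro ⟨i, hi⟩; exact ⟨i, by rw [hi, smul_inv_smul]⟩
    have hne : (Set.range P).Nonempty := ⟨P 0, 0, rfl⟩
    have h1 := pd_smul hne hT (α⁻¹ • β • P i) (α⁻¹ • β • P j)
    rw [smul_inv_smul, smul_inv_smul, smul_smul, smul_smul] at h1
    change pd (ln P r (α : Γ ⧸ Subgroup.zpowers r)) _ _ ≤ _
    rw [h1]
    apply h.small_one
    intro hmem
    exact hBC (QuotientGroup.eq.mpr hmem)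
  fin p R := by
    have hT := h.hT
    apply ((proper (P 0) (dist (P 0) p + R + T * L)).image
      (fun γ : Γ => (γ : Γ ⧸ Subgroup.zpowers r))).subset
    rintro B ⟨x, hx, hd⟩
    obtain ⟨γ, rfl⟩ := QuotientGroup.mk_surjective B
    obtain ⟨i, rfl⟩ := (h.ln_coe γ x).1 hx
    have h0 : (0 : ℤ) < T := by exact_mod_cast hT
    refine ⟨γ * r ^ (i / T), ?_, ?_⟩
    · change dist (P 0) ((γ * r ^ (i / (T : ℤ))) • P 0) ≤ _
      have h1 := dist_triangle4 (P 0) p (γ • P i) ((γ * r ^ (i / (T : ℤ))) • P 0)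
      have h2 : dist (γ • P i) ((γ * r ^ (i / (T : ℤ))) • P 0) ≤ T * L := by
        have h3 := h.perz (i / T) (i % T)
        have h4 : i % T + i / T * T = i := by
          rw [mul_comm]; exact Int.emod_add_mul_ediv i T
        rw [h4] at h3
        rw [h3, mul_smul, dist_smul, dist_smul, dist_comm]
        have h5 := h.up 0 (i % T).toNat
        have h6 : 0 ≤ i % T := Int.emod_nonneg _ h0.ne'
        have h7 : i % T < T := Int.emod_lt_of_pos _ h0
        rw [show (0 : ℤ) + ((i % T).toNat : ℤ) = i % T by omega] at h5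
        have h8 : (((i % T).toNat : ℕ) : ℝ) ≤ T := by
          have : (i % T).toNat ≤ T := by omega
          exact_mod_cast this
        have h9 := h.L_pos
        have h10 := mul_le_mul_of_nonneg_right h8 (show (0 : ℝ) ≤ L by linarith)
        linarith
      linarith
    · apply QuotientGroup.eq.mpr
      rw [mul_inv_rev, inv_mul_cancel_right]
      exact inv_mem (Subgroup.zpow_mem_zpowers _ _)

omit h in
lemma mem_stab {γ g : Γ} (hg : g ∈ MulAction.stabilizer Γ (γ : Γ ⧸ Subgroup.zpowers r)) :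
    ∃ s : ℤ, g = γ * r ^ s * γ⁻¹ := by
  rw [MulAction.mem_stabilizer_iff] at hg
  have h1 : ((g * γ : Γ) : Γ ⧸ Subgroup.zpowers r) = (γ : Γ ⧸ Subgroup.zpowers r) := hg
  obtain ⟨s, hs⟩ := QuotientGroup.eq.mp h1.symm
  refine ⟨s, ?_⟩
  have : r ^ s = γ⁻¹ * (g * γ) := hs
  rw [this]; group

lemma spin_le {B : Γ ⧸ Subgroup.zpowers r} {g : Γ} (hg : g ∈ MulAction.stabilizer Γ B)
    (hg1 : g ≠ 1) {q : Pt W} (hq : q ∈ ln P r B) : T * (l - 25 * K) ≤ dist q (g • q) := by
  obtain ⟨γ, rfl⟩ := QuotientGroup.mk_surjective B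
  obtain ⟨i, rfl⟩ := (h.ln_coe γ q).1 hq
  obtain ⟨s, rfl⟩ := mem_stab hg
  have hs : s ≠ 0 := by
    rintro rfl
    apply hg1
    rw [zpow_zero, mul_one, mul_inv_cancel]
  have h1 : (γ * r ^ s * γ⁻¹) • γ • P i = γ • P (i + s * T) := by
    rw [h.perz, smul_smul, smul_smul]; congr 1; group
  rw [h1, dist_smul]
  have h2 := h.br.growth' i (i + s * T)
  rw [add_sub_cancel_left] at h2
  have h3 : (T : ℝ) ≤ ((s * (T : ℤ)).natAbs : ℝ) := by
    have : T ≤ (s * (T : ℤ)).natAbs := by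
      rw [Int.natAbs_mul, Int.natAbs_natCast]
      have : 1 ≤ s.natAbs := by omega
      nlinarith
    exact_mod_cast this
  have h4 : 0 ≤ l - 25 * K := by
    have := h.br.K_one
    have := h.br.hl
    linarith
  exact (mul_le_mul_of_nonneg_right h3 h4).trans h2

lemma cob : ∃ R : ℝ, ∀ B : Γ ⧸ Subgroup.zpowers r, ∀ p ∈ ln P r B, ∀ q ∈ ln P r B,
    ∃ g ∈ MulAction.stabilizer Γ B, dist p (g • q) ≤ R := by
  have hT := h.hT
  have h0 : (0 : ℤ) < T := by exact_mod_cast hT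
  refine ⟨T * L, ?_⟩
  intro B p hp q hq
  obtain ⟨γ, rfl⟩ := QuotientGroup.mk_surjective B
  obtain ⟨i, rfl⟩ := (h.ln_coe γ p).1 hp
  obtain ⟨j, rfl⟩ := (h.ln_coe γ q).1 hq
  refine ⟨γ * r ^ ((i - j) / T) * γ⁻¹, ?_, ?_⟩
  · rw [MulAction.mem_stabilizer_iff]
    change ((γ * r ^ ((i - j) / (T : ℤ)) * γ⁻¹ * γ : Γ) : Γ ⧸ Subgroup.zpowers r) = _
    apply QuotientGroup.eq.mpr
    have : (γ * r ^ ((i - j) / (T : ℤ)) * γ⁻¹ * γ)⁻¹ * γ = (r ^ ((i - j) / (T : ℤ)))⁻¹ := by group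
    rw [this]
    exact inv_mem (Subgroup.zpow_mem_zpowers _ _)
  · have h1 : (γ * r ^ ((i - j) / (T : ℤ)) * γ⁻¹) • γ • P j = γ • P (j + (i - j) / T * T) := by
      rw [h.perz, smul_smul, smul_smul]; congr 1; group
    rw [h1, dist_smul, dist_comm]
    have h5 := h.up (j + (i - j) / T * T) ((i - j) % T).toNat
    have h6 : 0 ≤ (i - j) % T := Int.emod_nonneg _ h0.ne'
    have h7 : (i - j) % T < T := Int.emod_lt_of_pos _ h0
    have h4 : (i - j) % T + (i - j) / T * T = i - j := by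
      rw [mul_comm]; exact Int.emod_add_mul_ediv (i - j) T
    rw [show j + (i - j) / T * T + (((i - j) % T).toNat : ℤ) = i by
      rw [Int.toNat_of_nonneg h6]; linarith] at h5
    have h8 : ((((i - j) % T).toNat : ℕ) : ℝ) ≤ T := by
      have : ((i - j) % T).toNat ≤ T := by omega
      exact_mod_cast this
    have h9 := h.L_pos
    have h10 := mul_le_mul_of_nonneg_right h8 (show (0 : ℝ) ≤ L by linarith)
    linarith

/-- the spinning family -/
noncomputable def sp (hM : 8000 * L ≤ T * (l - 25 * K)) : Sp0 h.fine.sys :=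
  h.fine.sp0 (M := T * (l - 25 * K)) (fun B => MulAction.stabilizer Γ B)
    (by change 701 * (11 * L) ≤ _; have := h.L_pos; linarith)
    (fun γ B g hg => by
      rw [MulAction.mem_stabilizer_iff] at hg ⊢
      rw [smul_smul, inv_mul_cancel_right, mul_smul, hg])
    (fun B g hg => hg) (fun B g hg hg1 q hq => h.spin_le hg hg1 hq) h.cob

lemma sp_N (hM : 8000 * L ≤ T * (l - 25 * K)) : (h.sp hM).N = Subgroup.normalClosure {r} := by
  apply le_antisymm
  · change (⨆ B : Γ ⧸ Subgroup.zpowers r, MulAction.stabilizer Γ B) ≤ _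
    apply iSup_le
    intro B
    obtain ⟨γ, rfl⟩ := QuotientGroup.mk_surjective B
    intro g hg
    obtain ⟨s, rfl⟩ := mem_stab hg
    exact Subgroup.normalClosure_normal.conj_mem _ (Subgroup.zpow_mem _
      (Subgroup.subset_normalClosure (Set.mem_singleton _)) _) _
  · have := (h.sp hM).normal
    apply Subgroup.normalClosure_le_normal
    rw [Set.singleton_subset_iff]
    apply (h.sp hM).G_le ((1 : Γ) : Γ ⧸ Subgroup.zpowers r)
    change r ∈ MulAction.stabilizer Γ ((1 : Γ) : Γ ⧸ Subgroup.zpowers r)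
    rw [MulAction.mem_stabilizer_iff]
    change ((r * 1 : Γ) : Γ ⧸ Subgroup.zpowers r) = _
    apply QuotientGroup.eq.mpr
    rw [mul_one, mul_one]
    exact inv_mem (Subgroup.mem_zpowers _)

lemma sp_stab (hM : 8000 * L ≤ T * (l - 25 * K)) (B : Γ ⧸ Subgroup.zpowers r) (e : Γ)
    (he : e • B = B) : e ∈ (h.sp hM).G B := he

lemma sp_M (hM : 8000 * L ≤ T * (l - 25 * K)) : (h.sp hM).M = T * (l - 25 * K) := rfl

lemma sys_θ : h.fine.sys.θ = 77 * L := by
  change 7 * (11 * L) = _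
  ring

end Eqv

end Pool.Agent.TH63.SC
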