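import Pool.Agent.TH82.FG.Defs

set_option autoImplicit false
set_option linter.unusedSectionVars false

/-!
# Spinning families on raw systems of axes (helper63)
-/

namespace Pool.Agent.TH82.FG

open Pool.Agent.TH68 Pool.Agent.Helper97.Hyp

namespace Raw

variable {Γ : Type*} [Group Γ] {W : WNorm Γ} {𝒜 : Type*} [MulAction Γ 𝒜] (F : Raw Γ W 𝒜)

lemma mem_smul (γ : Γ) (A : 𝒜) (x : Pt W) : x ∈ F.S (γ • A) ↔ γ⁻¹ • x ∈ F.S A := by
  constructor
  · intro h
    have := F.smul_mem γ⁻¹ _ _ h
    rwa [inv_smul_smul] at this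
  · intro h
    have := F.smul_mem γ _ _ h
    rwa [smul_inv_smul] at this

lemma closer {A B : 𝒜} (hAB : A ≠ B) {p b : Pt W} (hb : b ∈ F.S B)
    (hd : F.θ < pd (F.S A) p b) :
    Metric.infDist p (F.S A) < Metric.infDist p (F.S B) := by
  have hδ := F.hδ
  have hc := F.hc
  have hs := F.hs
  unfold Raw.θ at hd
  have h1 : Metric.infDist p (F.S A) + 1 ≤ Metric.infDist p (F.S B) := by
    rw [Metric.le_infDist (F.Sne B)]
    intro b₁ hb₁
    obtain ⟨p', hp'⟩ := F.proj A p
    obtain ⟨b', hb'⟩ := F.proj A b₁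
    have h2 := pd_tri (F.Sne A) p b₁ b
    have h3 := F.small A B hAB b₁ hb₁ b hb
    have h4 := far_of_pd F.hyp hp' hb' (by linarith)
    have h5 := Metric.infDist_le_dist_of_mem (x := p) hp'.1
    have h6 := dist_nonneg (x := b₁) (y := b')
    linarith
  linarith

lemma fin_ax (p q : Pt W) : {A : 𝒜 | F.θ < pd (F.S A) p q}.Finite := by
  have hδ := F.hδ
  have hc := F.hc
  have hs := F.hs
  apply (F.fin p (dist p q + 3 * F.c + 2 * F.δ)).subset
  intro A hA
  have hA' : F.θ < pd (F.S A) p q := hA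
  unfold Raw.θ at hA'
  obtain ⟨p', hp'⟩ := F.proj A p
  obtain ⟨q', hq'⟩ := F.proj A q
  have h4 := far_of_pd F.hyp hp' hq' (by linarith)
  refine ⟨p', hp'.1, ?_⟩
  have h6 := dist_nonneg (x := q) (y := q')
  linarith

/-- the projection system -/
noncomputable def ps : ProjSys Γ 𝒜 (Pt W) where
  d A p q := pd (F.S A) p q
  S := F.S
  r p A := Metric.infDist p (F.S A)
  θ := F.θ
  θpos := by
    have hδ := F.hδ
    have hc := F.hc
    have hs := F.hs
    unfold Raw.θ
    linarith
  symm A p q := pd_symm (F.Sne A) p q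
  tri A p q s := pd_tri (F.Sne A) p q s
  self A p := pd_self (F.Sne A) p
  inv γ A p q := pd_smul (F.Sne A) (F.mem_smul γ A) p q
  Sinv γ A p hp := F.smul_mem γ A p hp
  Sne := F.Sne
  proj A B p q hAB hp hq := by
    have h1 := F.small A B hAB p hp q hq
    have hδ := F.hδ
    have hc := F.hc
    unfold Raw.θ
    linarith
  beh A B p a b hAB ha hb := by
    by_contra hcon
    push Not at hcon
    have h1 := F.closer hAB hb hcon.1
    have h2 := F.closer hAB.symm ha hcon.2
    linarith
  closer A B p b hAB hb hd := F.closer hAB hb hd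
  fin := F.fin_ax

/-- spinning families from rotation groups with large displacement -/
theorem spq (G : 𝒜 → Subgroup Γ) (M : ℝ) (hM : 200 * F.θ ≤ M)
    (fix : ∀ A, ∀ r ∈ G A, r • A = A) (stab : ∀ A (e : Γ), e • A = A → e ∈ G A)
    (spin : ∀ A, ∀ r ∈ G A, r ≠ 1 → ∀ q ∈ F.S A, M ≤ dist q (r • q))
    (cob : ∃ R : ℝ, ∀ A, ∀ p ∈ F.S A, ∀ q ∈ F.S A, ∃ r ∈ G A, dist p (r • q) ≤ R) :
    ∃ R : Spq F.toSys, R.M = M ∧ R.G = G ∧ R.N = ⨆ A, G A := by
  have hδ := F.hδ
  have hc := F.hc
  have hs := F.hs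
  have hθ : F.c ≤ F.θ := by unfold Raw.θ; linarith
  have hθ1 : 1 ≤ F.θ := by unfold Raw.θ; linarith
  have hconj : ∀ (γ : Γ) A g, g ∈ G A → γ * g * γ⁻¹ ∈ G (γ • A) := by
    intro γ A g hg
    apply stab
    rw [smul_smul, inv_mul_cancel_right, mul_smul, fix A g hg]
  have hnorm : (⨆ A, G A).Normal := by
    constructor
    intro n hn γ
    have h1 : (⨆ A, G A) ≤ (⨆ A, G A).comap (MulAut.conj γ).toMonoidHom := by
      apply iSup_le
      intro A x hx
      rw [Subgroup.mem_comap]
      exact (le_iSup G (γ • A)) (hconj γ A x hx)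
    exact h1 hn
  let sp : Spin F.ps :=
    { G := G
      M := M - F.c
      hM := by
        change 100 * F.θ ≤ _
        linarith
      Gconj := hconj
      Gfix := fun A n hn => fix A n hn
      spin := by
        intro A n p hn hn1
        obtain ⟨p', hp'⟩ := F.proj A p
        have h0 : n • A = A := fix A n hn
        have h1 : IsProj F.c (F.S A) (n • p) (n • p') := by
          apply hp'.smul (γ := n)
          intro x
          have := F.mem_smul n A x
          rwa [h0] at this
        have h2 := le_pd_of_proj hp' h1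
        have h3 := spin A n hn hn1 p' hp'.1
        change M - F.c ≤ pd _ _ _
        linarith }
  refine ⟨{ M := M, N := ⨆ A, G A, normal := hnorm, G := G, G_le := le_iSup G, fix := fix,
            stab := stab, spin := spin, wind := ?_, cob := cob }, rfl, rfl, rfl⟩
  intro n hn hn1 x
  obtain ⟨A, r, hr, hr1, h⟩ := sp.swind x hn hn1
  refine ⟨A, r, hr, hr1, ?_⟩
  have h1 : pd (F.S A) (r • x) (n • x) ≤ 42 * F.θ := h
  change pd (F.S A) (r • x) (n • x) ≤ 50 * F.θ
  linarith

end Raw

end Pool.Agent.TH82.FG
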