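import Pool.Agent.TH63.SC.Cross
import Pool.Agent.TH63.SC.RawSpq
import Pool.Agent.TH82.FG.FamDef

set_option autoImplicit false
set_option linter.unusedSectionVars false

/-!
# The spinning family of a family of periodic broken lines (helper63)
-/

namespace Pool.Agent.TH82.FG

open Pool.Agent.TH68 Pool.Agent.Helper97.Hyp Pool.Agent.TH63.SC

namespace Fam

variable {Γ : Type*} [Group Γ] {W : WNorm Γ} {𝒜 : Type*} [MulAction Γ 𝒜]
  {Y : Sys Γ W 𝒜} {κ : Type*} (D : Fam Y κ)

lemma K_one [Nonempty κ] : 1 ≤ D.K := (D.br (Classical.arbitrary κ)).K_one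

lemma perz (k : κ) (s i : ℤ) : D.P k (i + s * D.m) = D.r k ^ s • D.P k i := by
  have key : ∀ (n : ℕ) (i : ℤ), D.P k (i + n * D.m) = D.r k ^ n • D.P k i := by
    intro n
    induction n with
    | zero => intro i; simp
    | succ n ih =>
      intro i
      have h1 := D.perP k (i + n * D.m)
      rw [ih, smul_smul, ← pow_succ'] at h1
      rw [← h1]
      congr 1
      push_cast
      ring
  rcases Int.natAbs_eq s with hs | hs
  · have h1 := key s.natAbs i
    rw [← zpow_natCast, ← hs] at h1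
    exact h1
  · have h1 := key s.natAbs (i + s * D.m)
    have h2 : i + s * D.m + (s.natAbs : ℤ) * D.m = i := by
      have : (s.natAbs : ℤ) = -s := by omega
      rw [this]; ring
    rw [h2, ← zpow_natCast, show (s.natAbs : ℤ) = -s by omega] at h1
    rw [h1, smul_smul, ← zpow_add, add_neg_cancel, zpow_zero, one_smul]

lemma peraz (k : κ) (s i : ℤ) : D.A k (i + s * D.m) = D.r k ^ s • D.A k i := by
  have key : ∀ (n : ℕ) (i : ℤ), D.A k (i + n * D.m) = D.r k ^ n • D.A k i := by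
    intro n
    induction n with
    | zero => intro i; simp
    | succ n ih =>
      intro i
      have h1 := D.perA k (i + n * D.m)
      rw [ih, smul_smul, ← pow_succ'] at h1
      rw [← h1]
      congr 1
      push_cast
      ring
  rcases Int.natAbs_eq s with hs | hs
  · have h1 := key s.natAbs i
    rw [← zpow_natCast, ← hs] at h1
    exact h1
  · have h1 := key s.natAbs (i + s * D.m)
    have h2 : i + s * D.m + (s.natAbs : ℤ) * D.m = i := by
      have : (s.natAbs : ℤ) = -s := by omega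
      rw [this]; ring
    rw [h2, ← zpow_natCast, show (s.natAbs : ℤ) = -s by omega] at h1
    rw [h1, smul_smul, ← zpow_add, add_neg_cancel, zpow_zero, one_smul]

lemma ax_eq {k : κ} {γ γ' : Γ} (h : D.ax k γ = D.ax k γ') : ∃ s : ℤ, γ' = γ * D.r k ^ s := by
  have h1 : (γ : Γ ⧸ Subgroup.zpowers (D.r k)) = (γ' : Γ ⧸ Subgroup.zpowers (D.r k)) := by
    have := (Sigma.mk.inj_iff.1 h).2
    exact eq_of_heq this
  obtain ⟨s, hs⟩ := QuotientGroup.eq.mp h1
  refine ⟨s, ?_⟩
  have : D.r k ^ s = γ⁻¹ * γ' := hs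
  rw [this, mul_inv_cancel_left]

lemma ax_mul (k : κ) (γ : Γ) (s : ℤ) : D.ax k (γ * D.r k ^ s) = D.ax k γ := by
  unfold ax
  congr 1
  apply QuotientGroup.eq.mpr
  rw [mul_inv_rev, inv_mul_cancel_right]
  exact inv_mem (Subgroup.zpow_mem_zpowers _ _)

lemma smul_ax (g : Γ) (k : κ) (γ : Γ) : g • D.ax k γ = D.ax k (g * γ) := rfl

lemma ax_surj (B : D.Ax) : ∃ (k : κ) (γ : Γ), D.ax k γ = B := by
  obtain ⟨k, q⟩ := B
  obtain ⟨γ, rfl⟩ := QuotientGroup.mk_surjective q
  exact ⟨k, γ, rfl⟩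

lemma mem_S (k : κ) (γ : Γ) (x : Pt W) : x ∈ D.S (D.ax k γ) ↔ ∃ i, x = γ • D.P k i := by
  constructor
  · rintro ⟨β, i, hβ, rfl⟩
    have hβ' : D.ax k β = D.ax k γ := hβ
    obtain ⟨s, hs⟩ := D.ax_eq hβ'.symm
    refine ⟨i + s * D.m, ?_⟩
    rw [D.perz, hs, mul_smul]
    rfl
  · rintro ⟨i, rfl⟩
    exact ⟨γ, i, rfl, rfl⟩

lemma S_iff (k : κ) (γ : Γ) (x : Pt W) :
    x ∈ D.S (D.ax k γ) ↔ γ⁻¹ • x ∈ Set.range (D.P k) := by
  rw [D.mem_S]
  constructor
  · rintro ⟨i, rfl⟩; exact ⟨i, by rw [inv_smul_smul]⟩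
  · rintro ⟨i, hi⟩; exact ⟨i, by rw [hi, smul_inv_smul]⟩

lemma up (k : κ) (i : ℤ) (n : ℕ) : dist (D.P k i) (D.P k (i + n)) ≤ n * (4 * D.l) := by
  induction n with
  | zero => simp
  | succ n ih =>
    have h1 := (D.br k).hi (i + n)
    have h2 := dist_triangle (D.P k i) (D.P k (i + n)) (D.P k (i + n + 1))
    push_cast
    rw [← add_assoc]
    linarith

/-- distinct axes have small projections -/
lemma small_pair {k k' : κ} {g : Γ} (hne : D.ax k 1 ≠ D.ax k' g) (i j : ℤ) :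
    pd (Set.range (D.P k)) (g • D.P k' i) (g • D.P k' j) ≤ 41 * D.l := by
  have hb := D.br k
  have hb' := D.br k'
  have hK := hb.K_one
  have hl := hb.hl
  have hm := D.hm
  have hr : (Set.range (D.P k)).Nonempty := ⟨D.P k 0, 0, rfl⟩
  -- two consecutive common lines
  have hcon : ∀ w w' : ℤ, D.A k w = g • D.A k' w' → D.A k (w + 1) = g • D.A k' (w' + 1) →
      |dist (D.P k' w') (D.P k' (w' + 1)) - dist (D.P k w) (D.P k (w + 1))| ≤ 136 * D.K →
      False := by
    intro w w' h1 h2 h3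
    obtain ⟨h4, s, hs⟩ := D.sep k' k w' w g h1.symm h3
    subst h4
    apply hne
    have e1 : D.A k' w' = D.r k' ^ (-s) • D.A k' w := by
      rw [← D.peraz]; congr 1; rw [show w = w' + D.m * s by linarith]; ring
    have e2 : D.A k' (w' + 1) = D.r k' ^ (-s) • D.A k' (w + 1) := by
      rw [← D.peraz]; congr 1; rw [show w = w' + D.m * s by linarith]; ring
    have h5 := D.triv _ _ (hb'.ne w) (g * D.r k' ^ (-s)) (by rw [mul_smul, ← e1, ← h1])
      (by rw [mul_smul, ← e2, ← h2])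
    have h6 : g = 1 * D.r k' ^ s := by
      rw [one_mul]
      calc g = g * D.r k' ^ (-s) * D.r k' ^ s := by group
        _ = D.r k' ^ s := by rw [h5, one_mul]
    rw [h6, D.ax_mul]
  wlog hij : i < j generalizing i j with H
  · rcases (not_lt.1 hij).eq_or_lt with h1 | h1
    · rw [h1, pd_self hr]; linarith
    · rw [pd_symm hr]; exact H j i h1
  obtain ⟨u, hu⟩ := hb.proj (g • D.P k' i)
  obtain ⟨v, hv⟩ := hb.proj (g • D.P k' j)
  have h1 := pd_le_of_proj hu hv
  by_cases hfar : 9 * (4 * D.l) < dist (D.P k u) (D.P k v)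
  swap
  · push Not at hfar
    linarith
  exfalso
  rcases lt_trichotomy u v with huv | rfl | huv
  · obtain ⟨w, w', e1, e2, e3, e4, e5⟩ := hb.crossing (hb'.smul g) hij huv hu hv hfar
    apply hcon w w' e4 e5
    have t1 := dist_triangle4 (g • D.P k' w') (D.P k w) (D.P k (w + 1)) (g • D.P k' (w' + 1))
    have t2 := dist_triangle4 (D.P k w) (g • D.P k' w') (g • D.P k' (w' + 1)) (D.P k (w + 1))
    rw [dist_smul, dist_comm (g • D.P k' w')] at t1
    rw [dist_smul, dist_comm (g • D.P k' (w' + 1))] at t2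
    rw [abs_le]
    constructor <;> linarith
  · rw [dist_self] at hfar; linarith
  · have hrg : Set.range (fun i : ℤ => D.P k (-i)) = Set.range (D.P k) := by
      ext x
      constructor
      · rintro ⟨i, rfl⟩; exact ⟨-i, rfl⟩
      · rintro ⟨i, rfl⟩; exact ⟨-i, by simp⟩
    obtain ⟨w, w', e1, e2, e3, e4, e5⟩ := hb.rev.crossing (hb'.smul g) hij
      (u := -u) (v := -v) (by omega) (by rw [hrg]; simpa using hu) (by rw [hrg]; simpa using hv)
      (by simpa using hfar)
    have key : ∀ z z' : ℤ, dist (D.P k (-z)) (g • D.P k' z') ≤ 68 * D.K →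
        dist (D.P k (-(z + 1))) (g • D.P k' (z' + 1)) ≤ 68 * D.K →
        D.A k (-z - 1) = g • D.A k' z' → (D.m : ℤ) ∣ (-z - 1) - z' := by
      intro z z' t1 t2 t3
      apply (D.sep k' k z' (-z - 1) g t3.symm _).2
      rw [sub_add_cancel]
      rw [show -(z + 1) = -z - 1 by ring] at t2
      have t4 := dist_triangle4 (g • D.P k' z') (D.P k (-z)) (D.P k (-z - 1)) (g • D.P k' (z' + 1))
      have t5 := dist_triangle4 (D.P k (-z)) (g • D.P k' z') (g • D.P k' (z' + 1)) (D.P k (-z - 1))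
      rw [dist_smul, dist_comm (g • D.P k' z')] at t4
      rw [dist_smul, dist_comm (g • D.P k' (z' + 1))] at t5
      rw [dist_comm (D.P k (-z - 1)) (D.P k (-z)), abs_le]
      constructor <;> linarith
    have m1 := key w w' e1 e2 e4
    have m2 := key (w + 1) (w' + 1) e2 (by
      rw [show w + 1 + 1 = w + 2 by ring, show w' + 1 + 1 = w' + 2 by ring]; exact e3) e5
    have m3 := dvd_sub m1 m2
    have m4 : -w - 1 - w' - (-(w + 1) - 1 - (w' + 1)) = 2 := by ring
    rw [m4] at m3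
    have m5 := Int.le_of_dvd (by norm_num) m3
    omega

lemma mem_stab {k : κ} {γ g : Γ} (hg : g • D.ax k γ = D.ax k γ) :
    ∃ s : ℤ, g = γ * D.r k ^ s * γ⁻¹ := by
  rw [D.smul_ax] at hg
  obtain ⟨s, hs⟩ := D.ax_eq hg.symm
  exact ⟨s, by rw [← hs, mul_inv_cancel_right]⟩

lemma stab_mem (k : κ) (γ : Γ) (s : ℤ) : (γ * D.r k ^ s * γ⁻¹) • D.ax k γ = D.ax k γ := by
  rw [D.smul_ax, inv_mul_cancel_right, D.ax_mul]

/-- the raw system of axes -/
noncomputable def raw [Finite κ] [Nonempty κ] : Raw Γ W D.Ax where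
  δ := Y.δ
  c := 5 * D.l
  s := 85 * D.l - 2 * Y.δ - 1
  hyp := Y.hyp
  hδ := Y.hδ
  hc := by
    have h1 := D.K_one
    have h2 := (D.br (Classical.arbitrary κ)).hl
    linarith
  hs := by
    have h1 := D.K_one
    have h2 := (D.br (Classical.arbitrary κ)).hl
    have h3 := (D.br (Classical.arbitrary κ)).δ_le
    linarith
  S := D.S
  Sne B := by
    obtain ⟨k, γ, rfl⟩ := D.ax_surj B
    exact ⟨γ • D.P k 0, (D.mem_S _ _ _).2 ⟨0, rfl⟩⟩
  smul_mem γ B x hx := by
    obtain ⟨k, β, rfl⟩ := D.ax_surj B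
    obtain ⟨i, rfl⟩ := (D.mem_S _ _ _).1 hx
    rw [D.smul_ax]
    exact (D.mem_S _ _ _).2 ⟨i, by rw [mul_smul]⟩
  proj B x := by
    obtain ⟨k, γ, rfl⟩ := D.ax_surj B
    obtain ⟨m, hm⟩ := (D.br k).proj (γ⁻¹ • x)
    refine ⟨γ • D.P k m, (D.mem_S _ _ _).2 ⟨m, rfl⟩, ?_⟩
    intro s hs
    obtain ⟨i, rfl⟩ := (D.mem_S _ _ _).1 hs
    have h1 := hm.2 (D.P k i) ⟨i, rfl⟩
    have h2 : dist (γ⁻¹ • x) (D.P k m) = dist x (γ • D.P k m) := by
      rw [← dist_smul γ, smul_inv_smul]
    have h3 : dist (γ⁻¹ • x) (D.P k i) = dist x (γ • D.P k i) := by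
      rw [← dist_smul γ, smul_inv_smul]
    rw [dist_smul, ← h2, ← h3]
    have := (D.br k).K_one
    have := (D.br k).hl
    linarith
  small B C hBC p hp q hq := by
    obtain ⟨k, α, rfl⟩ := D.ax_surj B
    obtain ⟨k', β, rfl⟩ := D.ax_surj C
    obtain ⟨i, rfl⟩ := (D.mem_S _ _ _).1 hp
    obtain ⟨j, rfl⟩ := (D.mem_S _ _ _).1 hq
    have hne : (Set.range (D.P k)).Nonempty := ⟨D.P k 0, 0, rfl⟩
    have h1 := pd_smul hne (D.S_iff k α) (α⁻¹ • β • D.P k' i) (α⁻¹ • β • D.P k' j)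
    rw [smul_inv_smul, smul_inv_smul, smul_smul, smul_smul] at h1
    rw [h1]
    have h2 := D.small_pair (k := k) (k' := k') (g := α⁻¹ * β) (fun h => hBC ?_) i j
    · have := (D.br k).K_one
      have := (D.br k).hl
      have := (D.br k).δ_le
      linarith
    · have h3 := congrArg (fun B => α • B) h
      simp only [D.smul_ax, mul_one, mul_inv_cancel_left] at h3
      exact h3
  fin p R := by
    classical
    have key : ∀ k : κ, {B : D.Ax | ∃ γ : Γ, D.ax k γ = B ∧
        dist (D.P k 0) (γ • D.P k 0) ≤ dist (D.P k 0) p + R + D.m * (4 * D.l)}.Finite := by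
      intro k
      apply ((proper (D.P k 0) (dist (D.P k 0) p + R + D.m * (4 * D.l))).image
        (fun γ : Γ => D.ax k γ)).subset
      rintro B ⟨γ, h1, h2⟩
      exact ⟨γ, h2, h1⟩
    apply (Set.finite_iUnion key).subset
    rintro B ⟨x, hx, hd⟩
    obtain ⟨k, γ, rfl⟩ := D.ax_surj B
    obtain ⟨i, rfl⟩ := (D.mem_S _ _ _).1 hx
    have hm := D.hm
    have h0 : (0 : ℤ) < D.m := by omega
    rw [Set.mem_iUnion]
    refine ⟨k, γ * D.r k ^ (i / D.m), D.ax_mul _ _ _, ?_⟩
    have h1 := dist_triangle4 (D.P k 0) p (γ • D.P k i)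
      ((γ * D.r k ^ (i / (D.m : ℤ))) • D.P k 0)
    have h2 : dist (γ • D.P k i) ((γ * D.r k ^ (i / (D.m : ℤ))) • D.P k 0) ≤
        D.m * (4 * D.l) := by
      have h3 := D.perz k (i / D.m) (i % D.m)
      have h4 : i % D.m + i / D.m * D.m = i := by
        rw [mul_comm]; exact Int.emod_add_mul_ediv i D.m
      rw [h4] at h3
      rw [h3, mul_smul, dist_smul, dist_smul, dist_comm]
      have h5 := D.up k 0 (i % D.m).toNat
      have h6 : 0 ≤ i % D.m := Int.emod_nonneg _ h0.ne'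
      have h7 : i % D.m < D.m := Int.emod_lt_of_pos _ h0
      rw [show (0 : ℤ) + ((i % D.m).toNat : ℤ) = i % D.m by omega] at h5
      have h8 : (((i % D.m).toNat : ℕ) : ℝ) ≤ D.m := by
        have : (i % D.m).toNat ≤ D.m := by omega
        exact_mod_cast this
      have h9 := (D.br k).K_one
      have h9' := (D.br k).hl
      have h10 := mul_le_mul_of_nonneg_right h8 (show (0 : ℝ) ≤ 4 * D.l by linarith)
      linarith
    linarith

lemma raw_θ [Finite κ] [Nonempty κ] : D.raw.θ = 100 * D.l := by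
  unfold Raw.θ raw
  ring

lemma spin_le {k : κ} {γ g : Γ} (hg : g • D.ax k γ = D.ax k γ)
    (hg1 : g ≠ 1) {q : Pt W} (hq : q ∈ D.S (D.ax k γ)) : D.m * D.l / 2 ≤ dist q (g • q) := by
  obtain ⟨i, rfl⟩ := (D.mem_S _ _ _).1 hq
  obtain ⟨s, rfl⟩ := D.mem_stab hg
  have hs : s ≠ 0 := by
    rintro rfl
    apply hg1
    rw [zpow_zero, mul_one, mul_inv_cancel]
  have h1 : (γ * D.r k ^ s * γ⁻¹) • γ • D.P k i = γ • D.P k (i + s * D.m) := by
    rw [D.perz, smul_smul, smul_smul]; congr 1; group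
  rw [h1, dist_smul]
  have h2 := (D.br k).growth' i (i + s * D.m)
  rw [add_sub_cancel_left] at h2
  have h3 : (D.m : ℝ) ≤ ((s * (D.m : ℤ)).natAbs : ℝ) := by
    have : D.m ≤ (s * (D.m : ℤ)).natAbs := by
      rw [Int.natAbs_mul, Int.natAbs_natCast]
      have : 1 ≤ s.natAbs := by omega
      nlinarith
    exact_mod_cast this
  have hK := (D.br k).K_one
  have hl := (D.br k).hl
  have h4 : D.l / 2 ≤ D.l - 25 * D.K := by linarith
  calc (D.m : ℝ) * D.l / 2 = D.m * (D.l / 2) := by ring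
    _ ≤ ((s * (D.m : ℤ)).natAbs : ℝ) * (D.l - 25 * D.K) :=
        mul_le_mul h3 h4 (by linarith) (Nat.cast_nonneg _)
    _ ≤ _ := h2

lemma cob [Finite κ] [Nonempty κ] : ∃ R : ℝ, ∀ B : D.Ax, ∀ p ∈ D.S B, ∀ q ∈ D.S B,
    ∃ g ∈ MulAction.stabilizer Γ B, dist p (g • q) ≤ R := by
  have hm := D.hm
  have h0 : (0 : ℤ) < D.m := by omega
  refine ⟨D.m * (4 * D.l), ?_⟩
  intro B p hp q hq
  obtain ⟨k, γ, rfl⟩ := D.ax_surj B
  obtain ⟨i, rfl⟩ := (D.mem_S _ _ _).1 hp
  obtain ⟨j, rfl⟩ := (D.mem_S _ _ _).1 hq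
  refine ⟨γ * D.r k ^ ((i - j) / D.m) * γ⁻¹, ?_, ?_⟩
  · rw [MulAction.mem_stabilizer_iff]
    exact D.stab_mem _ _ _
  · have h1 : (γ * D.r k ^ ((i - j) / (D.m : ℤ)) * γ⁻¹) • γ • D.P k j =
        γ • D.P k (j + (i - j) / D.m * D.m) := by
      rw [D.perz, smul_smul, smul_smul]; congr 1; group
    rw [h1, dist_smul, dist_comm]
    have h5 := D.up k (j + (i - j) / D.m * D.m) ((i - j) % D.m).toNat
    have h6 : 0 ≤ (i - j) % D.m := Int.emod_nonneg _ h0.ne'
    have h7 : (i - j) % D.m < D.m := Int.emod_lt_of_pos _ h0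
    have h4 : (i - j) % D.m + (i - j) / D.m * D.m = i - j := by
      rw [mul_comm]; exact Int.emod_add_mul_ediv (i - j) D.m
    rw [show j + (i - j) / D.m * D.m + (((i - j) % D.m).toNat : ℤ) = i by
      rw [Int.toNat_of_nonneg h6]; linarith] at h5
    have h8 : ((((i - j) % D.m).toNat : ℕ) : ℝ) ≤ D.m := by
      have : ((i - j) % D.m).toNat ≤ D.m := by omega
      exact_mod_cast this
    have h9 := (D.br k).K_one
    have h9' := (D.br k).hl
    have h10 := mul_le_mul_of_nonneg_right h8 (show (0 : ℝ) ≤ 4 * D.l by linarith)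
    linarith

/-- the spinning family of the relators -/
theorem sys_exists [Finite κ] [Nonempty κ] (hm : 40000 ≤ D.m) :
    ∃ (Z : Sys Γ W D.Ax) (R : Spq Z),
      Z.δ = Y.δ ∧ Z.θ = 100 * D.l ∧ Z.S = D.S ∧ R.M = D.m * D.l / 2 ∧
      R.N = Subgroup.normalClosure (Set.range D.r) ∧
      ∀ k γ g, g ∈ R.G (D.ax k γ) ↔ ∃ j : ℤ, g = γ * D.r k ^ j * γ⁻¹ := by
  have hθ := D.raw_θ
  have hl : 0 ≤ D.l := by
    have h1 := D.K_one
    have h2 := (D.br (Classical.arbitrary κ)).hl
    linarith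
  obtain ⟨R, h1, h2, h3⟩ := D.raw.spq (fun B => MulAction.stabilizer Γ B) (D.m * D.l / 2)
    (by
      rw [hθ]
      have : (40000 : ℝ) ≤ D.m := by exact_mod_cast hm
      have := mul_le_mul_of_nonneg_right this hl
      linarith)
    (fun B g hg => hg) (fun B g hg => hg)
    (fun B g hg hg1 q hq => by
      obtain ⟨k, γ, rfl⟩ := D.ax_surj B
      exact D.spin_le hg hg1 hq) D.cob
  refine ⟨D.raw.toSys, R, rfl, hθ, rfl, h1, ?_, ?_⟩
  · rw [h3]
    apply le_antisymm
    · apply iSup_le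
      intro B
      obtain ⟨k, γ, rfl⟩ := D.ax_surj B
      intro g hg
      obtain ⟨s, rfl⟩ := D.mem_stab hg
      exact Subgroup.normalClosure_normal.conj_mem _ (Subgroup.zpow_mem _
        (Subgroup.subset_normalClosure (Set.mem_range_self k)) _) _
    · rw [← h3]
      have := R.normal
      apply Subgroup.normalClosure_le_normal
      rintro _ ⟨k, rfl⟩
      apply R.G_le (D.ax k 1)
      rw [h2]
      have := D.stab_mem k 1 1
      rw [zpow_one, one_mul, inv_one, mul_one] at this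
      exact this
  · intro k γ g
    rw [h2]
    constructor
    · intro hg
      exact D.mem_stab hg
    · rintro ⟨s, rfl⟩
      exact D.stab_mem k γ s

/-- a pair running along an axis crosses one of its lines -/
theorem cross_line (k : κ) (γ : Γ) {x y : Pt W} (h : 100 * D.l < pd (D.S (D.ax k γ)) x y) :
    ∃ i : ℤ, D.l / 2 ≤ pd (Y.S (γ • D.A k i)) x y := by
  have hb := D.br k
  have hK := hb.K_one
  have hl := hb.hl
  have hne : (Set.range (D.P k)).Nonempty := ⟨D.P k 0, 0, rfl⟩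
  -- reduction to `γ = 1`
  suffices H : ∀ x y : Pt W, 100 * D.l < pd (Set.range (D.P k)) x y →
      ∃ i : ℤ, D.l / 2 ≤ pd (Y.S (D.A k i)) x y by
    have h1 := pd_smul hne (D.S_iff k γ) (γ⁻¹ • x) (γ⁻¹ • y)
    rw [smul_inv_smul, smul_inv_smul] at h1
    rw [h1] at h
    obtain ⟨i, hi⟩ := H _ _ h
    refine ⟨i, ?_⟩
    have h2 := pd_smul (Y.Sne (D.A k i)) (T := Y.S (γ • D.A k i)) (γ := γ) (by
      intro z
      constructor
      · intro hz
        have := Y.smul_mem γ⁻¹ _ _ hz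
        rwa [inv_smul_smul] at this
      · intro hz
        have := Y.smul_mem γ _ _ hz
        rwa [smul_inv_smul] at this) (γ⁻¹ • x) (γ⁻¹ • y)
    rw [smul_inv_smul, smul_inv_smul] at h2
    rw [h2]
    exact hi
  -- the oriented version
  have key : ∀ (P : ℤ → Pt W) (A : ℤ → 𝒜), Br Y D.K D.l (4 * D.l) P A → ∀ (x y : Pt W) (u v : ℤ),
      u < v → IsProj (4 * D.l + 2 * D.K) (Set.range P) x (P u) →
      IsProj (4 * D.l + 2 * D.K) (Set.range P) y (P v) → 90 * D.l < dist (P u) (P v) →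
      ∃ i : ℤ, D.l / 2 ≤ pd (Y.S (A i)) x y := by
    intro P A hP x y u v huv hu hv hd
    classical
    have hex : ∃ n : ℕ, 4 * D.l < dist (P u) (P (u + n)) :=
      ⟨(v - u).toNat, by rw [show u + ((v - u).toNat : ℤ) = v by omega]; linarith⟩
    obtain ⟨n, hn⟩ : ∃ n, n = Nat.find hex := ⟨_, rfl⟩
    have hn1 : 4 * D.l < dist (P u) (P (u + n)) := hn ▸ Nat.find_spec hex
    have hn0 : n ≠ 0 := by
      rintro rfl
      rw [Nat.cast_zero, add_zero, dist_self] at hn1
      linarith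
    have hn2 : dist (P u) (P (u + n)) ≤ 8 * D.l := by
      have h1 : ¬ 4 * D.l < dist (P u) (P (u + (n - 1 : ℕ))) := Nat.find_min hex (by omega)
      have h2 := hP.hi (u + (n - 1 : ℕ))
      rw [show u + ((n - 1 : ℕ) : ℤ) + 1 = u + n by omega] at h2
      have h3 := dist_triangle (P u) (P (u + (n - 1 : ℕ))) (P (u + n))
      linarith
    obtain ⟨z, hz⟩ : ∃ z : ℤ, z = u + n := ⟨_, rfl⟩
    rw [← hz] at hn1 hn2
    have hhi := hP.hi z
    have hlo := hP.lo z
    have t1 := dist_triangle4 (P u) (P z) (P (z + 1)) (P v)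
    have hzv : z + 1 < v := by
      by_contra hcon
      push Not at hcon
      have h1 := hP.dist_add (i := u) (j := v) (k := z + 1) huv.le hcon
      have h2 := dist_triangle (P u) (P z) (P (z + 1))
      have h3 := dist_nonneg (x := P v) (y := P (z + 1))
      linarith
    have e1 := hP.split_left (w := z) (w' := z + 1) (by omega) (by omega) hu hn1
    have hrg : Set.range (fun i : ℤ => P (-i)) = Set.range P := by
      ext x
      constructor
      · rintro ⟨i, rfl⟩; exact ⟨-i, rfl⟩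
      · rintro ⟨i, rfl⟩; exact ⟨-i, by simp⟩
    have e2 := hP.rev.split_left (u := -v) (w := -(z + 1)) (w' := -z) (by omega) (by omega)
      (p := y) (by rw [hrg]; simpa using hv) (by
        simp only [neg_neg]
        rw [dist_comm]
        linarith)
    simp only [neg_neg] at e2
    obtain ⟨a, ha, had⟩ := hP.left z
    obtain ⟨b, hb, hbd⟩ := hP.right z
    refine ⟨z, ?_⟩
    have h1 := le_pd (p := x) (q := y) hb ha
    have t2 := dist_triangle x b (P (z + 1))
    have t3 := dist_triangle x (P z) a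
    have t4 := dist_triangle y b (P (z + 1))
    have t4' := dist_triangle y (P (z + 1)) b
    have t5 := dist_triangle y a (P z)
    rw [dist_comm (P z) a] at t3
    rw [dist_comm (P (z + 1)) b] at t4'
    unfold exc at e1 e2
    rw [dist_comm (P (z + 1)) (P z)] at e2
    linarith
  intro x y hxy
  obtain ⟨u, hu⟩ := hb.proj x
  obtain ⟨v, hv⟩ := hb.proj y
  have h1 := pd_le_of_proj hu hv
  rcases lt_trichotomy u v with huv | rfl | huv
  · exact key _ _ hb x y u v huv hu hv (by linarith)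
  · rw [dist_self] at h1; linarith
  · obtain ⟨i, hi⟩ := key _ _ hb y x v u huv hv hu (by rw [dist_comm]; linarith)
    exact ⟨i, by rw [pd_symm (Y.Sne _)]; exact hi⟩

end Fam

end Pool.Agent.TH82.FG
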