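import Pool.Agent.TH82.FG.Defs
import Pool.Agent.TH68.EZ
import Pool.Agent.Helper97.Hyp.System

set_option autoImplicit false
set_option linter.unusedSectionVars false

/-!
# The system of lines of two non-commensurable elements (helper63)
-/

namespace Pool.Agent.Helper97.Hyp.Lox

variable {X : Type*} [PseudoMetricSpace X]
variable {Γ : Type*} [Group Γ] [MulAction Γ X] [IsIsometricSMul Γ X]
variable {δ : ℝ} {o o' : X} {g g' : Γ}

/-- fellow travelling constant of two elements -/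
noncomputable def c7' (o o' : X) (g g' : Γ) (δ : ℝ) : ℝ :=
  c2 o g δ + c2 o' g' δ + δ + 2 * c5 o g δ + c5 o' g' δ + tl o g 1 / 2

/-- projection bound for two elements -/
noncomputable def th1' (o o' : X) (g g' : Γ) (δ : ℝ) : ℝ :=
  ({γ : Γ | dist o (γ • o') ≤ c7' o o' g g' δ}.ncard : ℝ) * tl o g 1 + 2 * c5 o g δ +
    2 * c2 o g δ + δ

lemma th1'_nonneg (h : Lox δ o g) : 0 ≤ th1' o o' g g' δ := by
  have hδ := h.δ_nonneg
  have hc2 := h.c2_nonneg
  have hc5 := h.c5_nonneg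
  have hL := h.tl_ge 1
  push_cast at hL
  have hn : (0 : ℝ) ≤ ({γ : Γ | dist o (γ • o') ≤ c7' o o' g g' δ}.ncard : ℝ) * tl o g 1 := by
    positivity
  unfold th1'
  linarith

lemma proj_pair (h : Lox δ o g) (h' : Lox δ o' g')
    (hprop : ∀ r : ℝ, {γ : Γ | dist o (γ • o') ≤ r}.Finite) {γ : Γ}
    (hγ : ∀ a b : ℤ, a ≠ 0 → b ≠ 0 → γ * g' ^ a * γ⁻¹ ≠ g ^ b) {p q : X}
    (hp : p ∈ ax o' g' (γ : Γ ⧸ E g')) (hq : q ∈ ax o' g' (γ : Γ ⧸ E g')) :
    pd (ax o g ((1 : Γ) : Γ ⧸ E g)) p q ≤ th1' o o' g g' δ := by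
  have hδ := h.δ_nonneg
  have hc2 := h.c2_nonneg
  have hc5 := h.c5_nonneg
  have hL := h.tl_ge 1
  push_cast at hL
  obtain ⟨p', hp'⟩ := (h.qline_ax ((1 : Γ) : Γ ⧸ E g)).proj p
  obtain ⟨q', hq'⟩ := (h.qline_ax ((1 : Γ) : Γ ⧸ E g)).proj q
  have h0 := pd_le_of_proj hp' hq'
  have hn : (0 : ℝ) ≤ ({γ : Γ | dist o (γ • o') ≤ c7' o o' g g' δ}.ncard : ℝ) * tl o g 1 := by
    positivity
  by_cases hfar : c2 o g δ + δ < dist p' q'
  swap
  · push Not at hfar
    unfold th1'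
    linarith
  obtain ⟨i, hi⟩ := h.near_line hp'.1
  obtain ⟨j, hj⟩ := h.near_line hq'.1
  have h1 := far_of_proj h.hyp hp' hq' hfar
  have key : ∀ m : ℤ, ∃ l : ℤ, m ∈ Finset.uIcc i j →
      g ^ (-m) * γ * g' ^ l ∈ {γ : Γ | dist o (γ • o') ≤ c7' o o' g g' δ} := by
    intro m
    by_cases hm : m ∈ Finset.uIcc i j
    swap
    · exact ⟨0, fun h => absurd h hm⟩
    have hch : dist (g ^ i • o) (g ^ m • o) + dist (g ^ m • o) (g ^ j • o) ≤
        dist (g ^ i • o) (g ^ j • o) + tl o g 1 := by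
      rw [Finset.mem_uIcc] at hm
      rcases le_total i j with hij | hij
      · rw [min_eq_left hij, max_eq_right hij] at hm
        exact h.chain hm.1 hm.2
      · rw [min_eq_right hij, max_eq_left hij] at hm
        have := h.chain hm.1 hm.2
        rw [dist_comm (g ^ j • o) (g ^ m • o), dist_comm (g ^ m • o) (g ^ i • o),
          dist_comm (g ^ j • o) (g ^ i • o)] at this
        linarith
    obtain ⟨b, hb⟩ := (h'.qline_ax (γ : Γ ⧸ E g')).proj (g ^ m • o)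
    obtain ⟨l, hl⟩ := h'.near_line ((ax_coe γ b).mp hb.1)
    have hl' : dist b (γ • g' ^ l • o') ≤ c5 o' g' δ := by
      rw [← dist_smul γ, smul_inv_smul] at hl
      exact hl
    refine ⟨l, fun _ => ?_⟩
    have e1 := hb.2 p hp
    have e2 := hb.2 q hq
    have e3 := dist_triangle4 p p' (g ^ i • o) (g ^ m • o)
    have e4 := dist_triangle4 (g ^ m • o) (g ^ j • o) q' q
    have e5 := dist_triangle4 (g ^ i • o) p' q' (g ^ j • o)
    have e6 := dist_triangle p b q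
    have e7 := dist_triangle (g ^ m • o) b (γ • g' ^ l • o')
    rw [dist_comm (g ^ i • o) p'] at e5
    rw [dist_comm (g ^ j • o) q', dist_comm q' q] at e4
    rw [dist_comm (g ^ m • o) p, dist_comm b p] at e1
    change dist o ((g ^ (-m) * γ * g' ^ l) • o') ≤ c7' o o' g g' δ
    have e8 : dist o ((g ^ (-m) * γ * g' ^ l) • o') = dist (g ^ m • o) (γ • g' ^ l • o') := by
      rw [← dist_smul (g ^ m) o]
      congr 1
      rw [smul_smul, smul_smul]
      congr 1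
      group
    rw [e8]
    unfold c7'
    linarith
  choose l hl using key
  have hinj : Set.InjOn (fun m : ℤ => g ^ (-m) * γ * g' ^ (l m)) (Finset.uIcc i j) := by
    intro m _ m' _ heq
    by_contra hne
    have heq' : g ^ (-m) * γ * g' ^ (l m) = g ^ (-m') * γ * g' ^ (l m') := heq
    have hrel : γ * g' ^ (l m - l m') * γ⁻¹ = g ^ (m - m') := by
      calc γ * g' ^ (l m - l m') * γ⁻¹ =
          g ^ m * (g ^ (-m) * γ * g' ^ (l m)) * g' ^ (-(l m')) * γ⁻¹ := by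
            rw [sub_eq_add_neg, zpow_add]; group
        _ = g ^ (m - m') := by rw [heq', sub_eq_add_neg, zpow_add]; group
    refine hγ (l m - l m') (m - m') ?_ (sub_ne_zero.mpr hne) hrel
    intro h0
    rw [h0, zpow_zero, mul_one, mul_inv_cancel] at hrel
    exact h.zpow_ne (sub_ne_zero.mpr hne) hrel.symm
  have hcard : (j - i).natAbs + 1 ≤ {γ : Γ | dist o (γ • o') ≤ c7' o o' g g' δ}.ncard := by
    rw [Set.ncard_eq_toFinset_card _ (hprop _), ← Int.card_uIcc]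
    apply Finset.card_le_card_of_injOn _ _ hinj
    intro m hm
    simp only [Set.Finite.coe_toFinset]
    exact hl m hm
  have h2 := dist_triangle4 p' (g ^ i • o) (g ^ j • o) q'
  rw [dist_zpow, dist_comm (g ^ j • o) q'] at h2
  have h3 := h.tl_nat_le (j - i).natAbs
  have h4 : ((j - i).natAbs : ℝ) * tl o g 1 ≤
      ({γ : Γ | dist o (γ • o') ≤ c7' o o' g g' δ}.ncard : ℝ) * tl o g 1 := by
    apply mul_le_mul_of_nonneg_right _ (by linarith)
    exact_mod_cast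
      (by omega : (j - i).natAbs ≤ {γ : Γ | dist o (γ • o') ≤ c7' o o' g g' δ}.ncard)
  unfold th1'
  linarith

lemma proj_pair' (h : Lox δ o g) (h' : Lox δ o' g')
    (hprop : ∀ r : ℝ, {γ : Γ | dist o (γ • o') ≤ r}.Finite) {α β : Γ}
    (hγ : ∀ a b : ℤ, a ≠ 0 → b ≠ 0 → (α⁻¹ * β) * g' ^ a * (α⁻¹ * β)⁻¹ ≠ g ^ b) {p q : X}
    (hp : p ∈ ax o' g' (β : Γ ⧸ E g')) (hq : q ∈ ax o' g' (β : Γ ⧸ E g')) :
    pd (ax o g (α : Γ ⧸ E g)) p q ≤ th1' o o' g g' δ := by
  have h1 := pd_smul (ax_ne (o := o) ((1 : Γ) : Γ ⧸ E g)) (ax_coe α) (α⁻¹ • p) (α⁻¹ • q)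
  rw [smul_inv_smul, smul_inv_smul] at h1
  change pd (ax o g (α : Γ ⧸ E g)) p q ≤ _
  rw [h1]
  have h2 : ∀ x, x ∈ ax o' g' (β : Γ ⧸ E g') → α⁻¹ • x ∈ ax o' g' ((α⁻¹ * β : Γ) : Γ ⧸ E g') := by
    intro x hx
    rw [ax_coe] at hx ⊢
    rw [smul_smul]
    have : (α⁻¹ * β)⁻¹ * α⁻¹ = β⁻¹ := by group
    rw [this]
    exact hx
  exact h.proj_pair h' hprop hγ (h2 p hp) (h2 q hq)

lemma tl_iter (h : Lox δ o g) (m n : ℕ) : tl o g m + n * (2 * δ + 1) ≤ tl o g (m + n) := by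
  induction n with
  | zero => simp
  | succ n ih =>
    have := h.incr (m + n)
    push_cast
    rw [← add_assoc]
    linarith

/-- powers of loxodromic elements -/
lemma pow (h : Lox δ o g) {j : ℕ} (hj : 1 ≤ j) : Lox δ o (g ^ j) := by
  refine ⟨h.hyp, ?_⟩
  rcases Nat.lt_or_ge 1 j with h1 | h1
  · have h2 := h.tl_iter j j
    have h3 : dist o (g ^ j • o) = tl o g j := rfl
    have h4 : dist o ((g ^ j) ^ 2 • o) = tl o g (j + j) := by
      rw [← pow_mul, mul_two]; rfl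
    rw [h3, h4]
    have hδ := h.δ_nonneg
    have h5 : (2 : ℝ) ≤ j := by exact_mod_cast h1
    have h6 : 2 * (2 * δ + 1) ≤ j * (2 * δ + 1) := mul_le_mul_of_nonneg_right h5 (by linarith)
    linarith
  · have : j = 1 := le_antisymm h1 hj
    subst this
    simpa using h.crit

end Pool.Agent.Helper97.Hyp.Lox

namespace Pool.Agent.TH82.FG

open Pool.Agent.TH68 Pool.Agent.Helper97.Hyp

section tf

variable {Γ : Type*} [Group Γ]

lemma not_fin {Γ : Type*} [Group Γ] (tf : ∀ g : Γ, IsOfFinOrder g → g = 1) {g : Γ} (hg : g ≠ 1) :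
    ¬ IsOfFinOrder g := fun h => hg (tf g h)

/-- roots in torsion free hyperbolic groups -/
lemma root_tf (hΓ : HypGroup Γ) (tf : ∀ g : Γ, IsOfFinOrder g → g = 1) {g : Γ} (hg : g ≠ 1) :
    ∃ g₀ : Γ, Root g₀ ∧ g ∈ Subgroup.zpowers g₀ :=
  ez hΓ (not_fin tf hg) fun x _ _ hx _ => tf x hx

lemma Root.ne_one {g : Γ} (h : Root g) : g ≠ 1 := by
  rintro rfl
  exact h.inf IsOfFinOrder.one

lemma comm_of_conj (hΓ : HypGroup Γ) (tf : ∀ g : Γ, IsOfFinOrder g → g = 1) {g e : Γ}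
    (hg : g ≠ 1) {n : ℤ} (hn : n ≠ 0)
    (he : e * g ^ n * e⁻¹ = g ^ n ∨ e * g ^ n * e⁻¹ = g ^ (-n)) : Commute e g := by
  obtain ⟨g₀, hr, hg₀⟩ := root_tf hΓ tf hg
  obtain ⟨c, hc⟩ := Subgroup.mem_zpowers_iff.1 hg₀
  have hc0 : c ≠ 0 := by
    rintro rfl
    exact hg (by rw [← hc, zpow_zero])
  have key : ∀ m : ℤ, m ≠ 0 → Commute e (g₀ ^ m) → Commute e g := by
    intro m hm h
    obtain ⟨s, hs⟩ := Subgroup.mem_zpowers_iff.1 (hr.cent e m hm h)
    rw [← hs, ← hc]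
    exact (Commute.refl g₀).zpow_zpow _ _
  rcases he with he | he
  · apply key (c * n) (mul_ne_zero hc0 hn)
    rw [zpow_mul, hc]
    exact mul_inv_eq_iff_eq_mul.1 he
  · exfalso
    have h2 : Commute (e * e) (g₀ ^ (c * n)) := by
      rw [zpow_mul, hc]
      apply mul_inv_eq_iff_eq_mul.1
      calc e * e * g ^ n * (e * e)⁻¹ = e * (e * g ^ n * e⁻¹) * e⁻¹ := by group
        _ = e * g ^ (-n) * e⁻¹ := by rw [he]
        _ = (e * g ^ n * e⁻¹)⁻¹ := by group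
        _ = g ^ n := by rw [he]; group
    obtain ⟨d, hd⟩ := Subgroup.mem_zpowers_iff.1 (hr.cent _ _ (mul_ne_zero hc0 hn) h2)
    have h3 : Commute e g := by
      by_cases hd0 : d = 0
      · rw [hd0, zpow_zero] at hd
        have : e = 1 := tf e (isOfFinOrder_iff_pow_eq_one.2 ⟨2, by norm_num, by
          rw [pow_two]; exact hd.symm⟩)
        rw [this]; exact Commute.one_left _
      · apply key d hd0
        rw [hd]
        exact (Commute.refl e).mul_right (Commute.refl e)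
    have h4 : e * g ^ n * e⁻¹ = g ^ n := mul_inv_eq_iff_eq_mul.2 (h3.zpow_right n)
    rw [h4] at he
    have h5 : g ^ (n + n) = 1 := by
      rw [zpow_add]; nth_rewrite 1 [he]; rw [← zpow_add]; simp
    exact inf_zpow_ne (not_fin tf hg) (by omega) h5

lemma mem_E_iff (hΓ : HypGroup Γ) (tf : ∀ g : Γ, IsOfFinOrder g → g = 1) {W : WNorm Γ} {δ : ℝ}
    {o : Pt W} {u : Γ} (hu : u ≠ 1) {a : ℕ} (ha : 0 < a) (h : Lox δ o (u ^ a)) (e : Γ) :
    e ∈ Lox.E (u ^ a) ↔ Commute e u := by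
  constructor
  · intro he
    obtain ⟨n, hn, h1⟩ := h.exists_pow he
    have h2 : ∀ k : ℤ, (u ^ a) ^ k = u ^ ((a : ℤ) * k) := fun k => by
      rw [← zpow_natCast, ← zpow_mul]
    rw [h2, h2] at h1
    apply comm_of_conj hΓ tf hu (n := (a : ℤ) * n) (mul_ne_zero (by omega) (by omega))
    rw [← mul_neg]
    exact h1
  · intro he
    refine ⟨1, 1, one_ne_zero, one_ne_zero, ?_⟩
    have : Commute e ((u ^ a) ^ (1 : ℤ)) := (he.pow_right a).zpow_right 1
    rw [this.eq, mul_inv_cancel_right]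

theorem lines_exist {Γ : Type} [Group Γ] {W : WNorm Γ} {δ : ℝ} (hδ : 1 ≤ δ)
    (hyp : GHyp (Pt W) δ) (tf : ∀ g : Γ, IsOfFinOrder g → g = 1) (u : Bool → Γ)
    (hu : ∀ b, u b ≠ 1)
    (hne : ∀ (h : Γ) (i j : ℤ), i ≠ 0 → h * u true ^ i * h⁻¹ ≠ u false ^ j) :
    ∃ (E : Bool → Subgroup Γ) (a : ℕ) (o : Bool → Pt W) (Y : Sys Γ W (Σ b : Bool, Γ ⧸ E b)),
      0 < a ∧ Y.δ = δ ∧ (∀ b g, g ∈ E b ↔ Commute g (u b)) ∧
      (∀ b (γ : Γ), Y.S ⟨b, (γ : Γ ⧸ E b)⟩ = {x | ∃ e ∈ E b, x = (γ * e) • o b}) ∧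
      (∀ A B : (Σ b : Bool, Γ ⧸ E b), A ≠ B → ∀ γ : Γ, γ • A = A → γ • B = B → γ = 1) ∧
      (∀ b, Lox δ (o b) (u b ^ a)) := by
  have hΓ : HypGroup Γ := ⟨W, δ, hyp⟩
  obtain ⟨J, hJ⟩ := lox_of_inf hyp hδ
  have hloxb : ∀ b, ∃ j : ℕ, 1 ≤ j ∧ ∃ x : Pt W, Lox δ x (u b ^ j) := by
    intro b
    obtain ⟨j, h1, _, x, hx⟩ := hJ (u b) (not_fin tf (hu b))
    exact ⟨j, h1, x, hx⟩
  choose j hj o ho using hloxb
  set a : ℕ := j true * j false with hadef
  have ha : 0 < a := Nat.mul_pos (hj true) (hj false)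
  have hL : ∀ b, Lox δ (o b) (u b ^ a) := by
    intro b
    cases b
    · rw [hadef, mul_comm, pow_mul]; exact (ho false).pow (hj true)
    · rw [hadef, pow_mul]; exact (ho true).pow (hj false)
  have hzp : ∀ b (k : ℤ), (u b ^ a) ^ k = u b ^ ((a : ℤ) * k) := fun b k => by
    rw [← zpow_natCast, ← zpow_mul]
  have hprop : ∀ (b b' : Bool) (r : ℝ), {γ : Γ | dist (o b) (γ • o b') ≤ r}.Finite := by
    intro b b' r
    apply (proper (o b) (r + dist (o b) (o b'))).subset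
    intro γ hγ
    have h1 : dist (o b) (γ • o b') ≤ r := hγ
    change dist (o b) (γ • o b) ≤ _
    have h2 := dist_triangle (o b) (γ • o b') (γ • o b)
    rw [dist_smul, dist_comm (o b') (o b)] at h2
    linarith
  have hcom : ∀ (b b' : Bool), b ≠ b' → ∀ (γ : Γ) (m n : ℤ), m ≠ 0 → n ≠ 0 →
      γ * (u b' ^ a) ^ m * γ⁻¹ ≠ (u b ^ a) ^ n := by
    intro b b' hb γ m n hm hn h
    rw [hzp, hzp] at h
    have ham : (a : ℤ) * m ≠ 0 := mul_ne_zero (by omega) hm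
    have han : (a : ℤ) * n ≠ 0 := mul_ne_zero (by omega) hn
    cases b
    · have : b' = true := by cases b' <;> simp_all
      subst this
      exact hne _ _ _ ham h
    · have : b' = false := by cases b' <;> simp_all
      subst this
      refine hne γ⁻¹ ((a : ℤ) * n) ((a : ℤ) * m) han ?_
      rw [← h]; group
  let E : Bool → Subgroup Γ := fun b => Lox.E (u b ^ a)
  let S : (Σ b : Bool, Γ ⧸ E b) → Set (Pt W) := fun A => Lox.ax (o A.1) (u A.1 ^ a) A.2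
  let θ : ℝ := δ + ∑ b : Bool, ∑ b' : Bool, (Lox.c2 (o b) (u b ^ a) δ + Lox.th1 (o b) (u b ^ a) δ +
    Lox.th1' (o b) (o b') (u b ^ a) (u b' ^ a) δ)
  have hpos : ∀ b b' : Bool, 0 ≤ Lox.c2 (o b) (u b ^ a) δ ∧ 0 ≤ Lox.th1 (o b) (u b ^ a) δ ∧
      0 ≤ Lox.th1' (o b) (o b') (u b ^ a) (u b' ^ a) δ := fun b b' =>
    ⟨(hL b).c2_nonneg, (hL b).th1_nonneg, (hL b).th1'_nonneg⟩
  have hθ : ∀ b b' : Bool, δ + (Lox.c2 (o b) (u b ^ a) δ + Lox.th1 (o b) (u b ^ a) δ +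
      Lox.th1' (o b) (o b') (u b ^ a) (u b' ^ a) δ) ≤ θ := by
    intro b b'
    change _ ≤ δ + _
    apply add_le_add le_rfl
    have h1 : ∀ x ∈ (Finset.univ : Finset Bool), 0 ≤ (∑ b' : Bool, (Lox.c2 (o x) (u x ^ a) δ +
        Lox.th1 (o x) (u x ^ a) δ + Lox.th1' (o x) (o b') (u x ^ a) (u b' ^ a) δ)) := by
      intro x _
      apply Finset.sum_nonneg
      intro y _
      have := hpos x y
      linarith [this.1, this.2.1, this.2.2]
    refine le_trans ?_ (Finset.single_le_sum h1 (Finset.mem_univ b))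
    refine Finset.single_le_sum (f := fun b' => (Lox.c2 (o b) (u b ^ a) δ +
        Lox.th1 (o b) (u b ^ a) δ + Lox.th1' (o b) (o b') (u b ^ a) (u b' ^ a) δ)) ?_
        (Finset.mem_univ b')
    intro y _
    have := hpos b y
    change 0 ≤ _
    linarith [this.1, this.2.1, this.2.2]
  have hmem : ∀ (b : Bool) (γ : Γ) (x : Pt W), x ∈ S ⟨b, (γ : Γ ⧸ E b)⟩ ↔
      ∃ e ∈ E b, x = (γ * e) • o b := by
    intro b γ x
    constructor
    · rintro ⟨β, hβ, rfl⟩
      refine ⟨γ⁻¹ * β, ?_, by rw [mul_inv_cancel_left]⟩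
      exact QuotientGroup.eq.1 hβ.symm
    · rintro ⟨e, he, rfl⟩
      refine ⟨γ * e, ?_, rfl⟩
      apply QuotientGroup.eq.2
      rw [mul_inv_rev, inv_mul_cancel_right]
      exact inv_mem he
  let Y : Sys Γ W (Σ b : Bool, Γ ⧸ E b) :=
    { δ := δ
      θ := θ
      hyp := hyp
      hδ := hδ
      hθ := by
        have h1 := hθ true true
        have h2 := hpos true true
        linarith [h2.1, h2.2.1, h2.2.2]
      S := S
      Sne := fun A => Lox.ax_ne A.2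
      smul_mem := by
        rintro γ ⟨b, A⟩ x hx
        change γ • x ∈ Lox.ax (o b) (u b ^ a) (γ • A)
        rw [Lox.ax_smul, inv_smul_smul]
        exact hx
      proj := by
        rintro ⟨b, A⟩ x
        obtain ⟨q, hq⟩ := ((hL b).qline_ax A).proj x
        have h1 := hθ b b
        have h2 := hpos b b
        exact ⟨q, hq.1, fun s hs => (hq.2 s hs).trans (by linarith [h2.1, h2.2.1, h2.2.2])⟩
      small := by
        rintro ⟨b, A⟩ ⟨b', B⟩ hAB p hp q hq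
        have h1 := hθ b b'
        have h2 := hpos b b'
        by_cases hbb : b = b'
        · subst hbb
          have hAB' : A ≠ B := fun h => hAB (by rw [h])
          have := (hL b).proj_bound (proper (o b)) hAB' hp hq
          refine le_trans this ?_
          linarith [h2.1, h2.2.1, h2.2.2]
        · obtain ⟨α, rfl⟩ := QuotientGroup.mk_surjective A
          obtain ⟨β, rfl⟩ := QuotientGroup.mk_surjective B
          have := (hL b).proj_pair' (hL b') (hprop b b') (α := α) (β := β)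
            (fun m n hm hn => hcom b b' hbb _ m n hm hn) hp hq
          refine le_trans this ?_
          linarith [h2.1, h2.2.1, h2.2.2] }
  have hE : ∀ b g, g ∈ E b ↔ Commute g (u b) := fun b g => mem_E_iff hΓ tf (hu b) ha (hL b) g
  refine ⟨E, a, o, Y, ha, rfl, hE, ?_, ?_, hL⟩
  · intro b γ
    ext x
    exact hmem b γ x
  · rintro ⟨b, A⟩ ⟨b', B⟩ hAB γ hA hB
    by_contra hγ
    obtain ⟨z, hz, hγz⟩ := root_tf hΓ tf hγ
    obtain ⟨g, rfl⟩ := QuotientGroup.mk_surjective A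
    obtain ⟨g', rfl⟩ := QuotientGroup.mk_surjective B
    have key : ∀ (b : Bool) (g : Γ), γ • (⟨b, (g : Γ ⧸ E b)⟩ : Σ b : Bool, Γ ⧸ E b) =
        ⟨b, (g : Γ ⧸ E b)⟩ → ∃ s : ℤ, s ≠ 0 ∧ g * u b * g⁻¹ = z ^ s := by
      intro b g h
      have h1 : ((γ * g : Γ) : Γ ⧸ E b) = (g : Γ ⧸ E b) := by
        have h2 : (⟨b, ((γ * g : Γ) : Γ ⧸ E b)⟩ : Σ b : Bool, Γ ⧸ E b) =
          ⟨b, (g : Γ ⧸ E b)⟩ := h
        exact eq_of_heq (Sigma.mk.inj h2).2
      have h3 : g⁻¹ * (γ * g) ∈ E b := QuotientGroup.eq.1 h1.symm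
      have h4 : Commute (g⁻¹ * (γ * g)) (u b) := (hE b _).1 h3
      have h5 : Commute (g * u b * g⁻¹) γ := by
        have h6 := (h4.conj g).symm
        have h7 : g * (g⁻¹ * (γ * g)) * g⁻¹ = γ := by group
        rwa [h7] at h6
      obtain ⟨c, hc⟩ := Subgroup.mem_zpowers_iff.1 hγz
      have hc0 : c ≠ 0 := by
        rintro rfl
        exact hγ (by rw [← hc, zpow_zero])
      rw [← hc] at h5
      obtain ⟨s, hs⟩ := Subgroup.mem_zpowers_iff.1 (hz.cent _ c hc0 h5)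
      refine ⟨s, ?_, hs.symm⟩
      rintro rfl
      rw [zpow_zero] at hs
      exact hu b (by
        have : u b = g⁻¹ * (g * u b * g⁻¹) * g := by group
        rw [this, ← hs]; group)
    obtain ⟨s, hs0, hs⟩ := key b g hA
    obtain ⟨t, ht0, ht⟩ := key b' g' hB
    have h1 : g * u b ^ t * g⁻¹ = g' * u b' ^ s * g'⁻¹ := by
      rw [← conj_zpow, ← conj_zpow, hs, ht, ← zpow_mul, ← zpow_mul, mul_comm]
    by_cases hbb : b = b'
    · subst hbb
      apply hAB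
      congr 1
      apply QuotientGroup.eq.2
      refine ⟨s, t, hs0, ht0, ?_⟩
      have h2 : (g⁻¹ * g') * u b ^ s * (g⁻¹ * g')⁻¹ = u b ^ t := by
        calc (g⁻¹ * g') * u b ^ s * (g⁻¹ * g')⁻¹ = g⁻¹ * (g' * u b ^ s * g'⁻¹) * g := by group
          _ = u b ^ t := by rw [← h1]; group
      rw [hzp, hzp, mul_comm (a : ℤ), mul_comm (a : ℤ), zpow_mul, zpow_mul, ← h2, conj_zpow]
    · apply hcom b b' hbb (g⁻¹ * g') s t hs0 ht0
      have h2 : (g⁻¹ * g') * u b' ^ s * (g⁻¹ * g')⁻¹ = u b ^ t := by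
        calc (g⁻¹ * g') * u b' ^ s * (g⁻¹ * g')⁻¹ = g⁻¹ * (g' * u b' ^ s * g'⁻¹) * g := by group
          _ = u b ^ t := by rw [← h1]; group
      rw [hzp, hzp, mul_comm (a : ℤ), mul_comm (a : ℤ), zpow_mul, zpow_mul, ← h2, conj_zpow]

end tf

end Pool.Agent.TH82.FG
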