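import Pool.Agent.TH63.SC.Eqv

set_option autoImplicit false
set_option linter.unusedSectionVars false

/-!
# Block words give rigid periodic broken lines (helper63)
-/

namespace Pool.Agent.TH63.SC

open Pool.Agent.Helper97.Hyp Pool.Agent.TH68 Pool.Agent.TH68.C

variable {Γ : Type*} [Group Γ] {W : WNorm Γ} {𝒜 : Type*} [MulAction Γ 𝒜] {ι : Type*}

/-- a system containing the lines of the elements `c i` -/
structure Lines (c : ι → Γ) (Y : Sys Γ W 𝒜) (A₀ : ι → 𝒜) (K : ℝ) : Prop where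
  hθ : Y.θ ≤ K
  near : ∀ i (n : ℤ), ∃ x ∈ Y.S (A₀ i), dist x (c i ^ n • pt W 1) ≤ K
  eq : ∀ i j (g : Γ), g • A₀ i = A₀ j → i = j ∧ Commute g (c i)
  pow : ∀ i (e : Γ), e ≠ 1 → Commute e (c i) → ∃ a b : ℤ, b ≠ 0 ∧ e ^ a = c i ^ b
  com : ∀ i j (t : Γ) (n m : ℤ), n ≠ 0 → t * c i ^ n * t⁻¹ = c j ^ m → i = j ∧ Commute t (c i)

/-- periodic block words: blocks `c (t i) ^ n i * f i` -/
structure Wd (W : WNorm Γ) (c : ι → Γ) (K l L : ℝ) (T : ℕ) (t : ℤ → ι) (n : ℤ → ℤ) (f h : ℤ → Γ)
    (r : Γ) : Prop where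
  hT : 0 < T
  hl : 400 * K ≤ l
  fK : ∀ i, (W.ℓ (f i) : ℝ) ≤ K
  lo : ∀ i, l + K ≤ W.ℓ (c (t i) ^ n i)
  hi : ∀ i, (W.ℓ (c (t i) ^ n i) : ℝ) + K ≤ L
  step : ∀ i, h (i + 1) = h i * (c (t i) ^ n i * f i)
  per : ∀ i, h (i + T) = r * h i
  conn : ∀ i, t i = t (i + 1) → ¬ Commute (f i) (c (t i))
  gap : ∀ i j, t i = t j → (W.ℓ (c (t i) ^ (n j - n i)) : ℝ) ≤ 300 * K →
    n i = n j ∧ ∃ s : ℤ, j = i + s * T
  opp : ∀ i j, t i = t j → 300 * K < W.ℓ (c (t i) ^ (n i + n j))

lemma dist_pt (x y : Γ) : dist (pt W x) (pt W y) = W.ℓ (x⁻¹ * y) := rfl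

lemma dist_one (x : Γ) : dist (pt W 1) (pt W x) = W.ℓ x := by
  rw [dist_pt, inv_one, one_mul]

lemma ell_mul (x y : Γ) : (W.ℓ (x * y) : ℝ) ≤ W.ℓ x + W.ℓ y := by
  exact_mod_cast W.mul_le x y

lemma ell_inv (x : Γ) : (W.ℓ x⁻¹ : ℝ) = W.ℓ x := by rw [W.inv']

/-- lengths of products from below -/
lemma ell_ge_left (x y : Γ) : (W.ℓ x : ℝ) - W.ℓ y ≤ W.ℓ (x * y) := by
  have h1 := ell_mul (W := W) (x * y) y⁻¹
  rw [mul_inv_cancel_right, ell_inv] at h1
  linarith

lemma ell_ge_right (x y : Γ) : (W.ℓ y : ℝ) - W.ℓ x ≤ W.ℓ (x * y) := by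
  have h1 := ell_mul (W := W) x⁻¹ (x * y)
  rw [inv_mul_cancel_left, ell_inv] at h1
  linarith

theorem Wd.eqv {Y : Sys Γ W 𝒜} {c : ι → Γ} {A₀ : ι → 𝒜} {K l L : ℝ} {T : ℕ} {t : ℤ → ι}
    {n : ℤ → ℤ} {f h : ℤ → Γ} {r : Γ} (hY : Lines c Y A₀ K) (hw : Wd W c K l L T t n f h r) :
    Eqv Y (2 * K) l L (fun i => pt W (h i)) (fun i => h i • A₀ (t i)) T r := by
  have hK : 1 ≤ K := Y.hδ.trans (Y.hθ.trans hY.hθ)
  have hstep : ∀ i, dist (pt W (h i)) (pt W (h (i + 1))) = W.ℓ (c (t i) ^ n i * f i) := by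
    intro i
    rw [dist_pt, hw.step, inv_mul_cancel_left]
  -- equality of lines
  have hline : ∀ (g : Γ) (w k : ℤ), h w • A₀ (t w) = g • h k • A₀ (t k) →
      t k = t w ∧ Commute ((h w)⁻¹ * g * h k) (c (t k)) := by
    intro g w k hA
    apply hY.eq
    rw [mul_smul, mul_smul, ← hA, inv_smul_smul]
  -- periodicity
  have hperz : ∀ (s i : ℤ), h (i + s * T) = r ^ s * h i := by
    have key : ∀ (m : ℕ) (i : ℤ), h (i + m * T) = r ^ m * h i := by
      intro m
      induction m with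
      | zero => intro i; simp
      | succ m ih =>
        intro i
        have h1 := hw.per (i + m * T)
        rw [ih, ← mul_assoc, ← pow_succ'] at h1
        rw [← h1]
        congr 1
        push_cast
        ring
    intro s i
    rcases Int.natAbs_eq s with hs | hs
    · have h1 := key s.natAbs i
      rw [← zpow_natCast, ← hs] at h1
      exact h1
    · have h1 := key s.natAbs (i + s * T)
      have h2 : i + s * T + (s.natAbs : ℤ) * T = i := by
        have : (s.natAbs : ℤ) = -s := by omega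
        rw [this]; ring
      rw [h2, ← zpow_natCast, show (s.natAbs : ℤ) = -s by omega] at h1
      rw [h1, ← mul_assoc, ← zpow_add, add_neg_cancel, zpow_zero, one_mul]
  have hsmul : ∀ (g : Γ) (w k : ℤ), dist (pt W (h w)) (g • pt W (h k)) =
      W.ℓ ((h w)⁻¹ * g * h k) := by
    intro g w k
    rw [smul_pt, dist_pt, mul_assoc]
  refine { br := ?_, hT := hw.hT, per := ?_, rig := ?_, rig' := ?_ }
  · refine { hθ := ?_, hl := ?_, left := ?_, right := ?_, ne := ?_, lo := ?_, hi := ?_ }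
    · have := hY.hθ; linarith
    · have := hw.hl; linarith
    · intro i
      obtain ⟨x, hx, hd⟩ := hY.near (t i) 0
      refine ⟨h i • x, Y.smul_mem _ _ _ hx, ?_⟩
      have h1 : pt W (h i) = h i • pt W 1 := (smul_base W (h i)).symm
      rw [h1, dist_smul]
      rw [zpow_zero, one_smul] at hd
      linarith
    · intro i
      obtain ⟨x, hx, hd⟩ := hY.near (t i) (n i)
      refine ⟨h i • x, Y.smul_mem _ _ _ hx, ?_⟩
      have h1 : pt W (h (i + 1)) = h i • (c (t i) ^ n i) • pt W (f i) := by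
        rw [smul_pt, smul_pt, hw.step]
      rw [h1, dist_smul]
      have h2 := dist_triangle x ((c (t i) ^ n i) • pt W 1) ((c (t i) ^ n i) • pt W (f i))
      rw [dist_smul (c (t i) ^ n i), dist_one] at h2
      have := hw.fK i
      linarith
    · intro i hA
      obtain ⟨h1, h2⟩ := hline 1 (i + 1) i (by rw [one_smul]; exact hA.symm)
      apply hw.conn i h1
      rw [mul_one, hw.step] at h2
      have h3 : (h i * (c (t i) ^ n i * f i))⁻¹ * h i = (f i)⁻¹ * (c (t i) ^ n i)⁻¹ := by group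
      rw [h3] at h2
      have h4 : Commute ((f i)⁻¹) (c (t i)) := by
        have h5 : (f i)⁻¹ = (f i)⁻¹ * (c (t i) ^ n i)⁻¹ * c (t i) ^ n i := by group
        rw [h5]
        exact h2.mul_left ((Commute.refl _).zpow_left _)
      exact (Commute.inv_left_iff).1 h4
    · intro i
      rw [hstep]
      have h1 := ell_ge_left (W := W) (c (t i) ^ n i) (f i)
      have := hw.lo i
      have := hw.fK i
      linarith
    · intro i
      rw [hstep]
      have h1 := ell_mul (W := W) (c (t i) ^ n i) (f i)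
      have := hw.hi i
      have := hw.fK i
      linarith
  · intro i
    change pt W (h (i + T)) = r • pt W (h i)
    rw [smul_pt, hw.per]
  · intro g w k h1 h2 _ hA hA'
    obtain ⟨e1, e2⟩ := hline g w k hA
    obtain ⟨e3, e4⟩ := hline g (w + 1) (k + 1) hA'
    change dist (pt W (h w)) (g • pt W (h k)) ≤ _ at h1
    change dist (pt W (h (w + 1))) (g • pt W (h (k + 1))) ≤ _ at h2
    rw [hsmul] at h1 h2
    obtain ⟨e, he⟩ : ∃ e, e = (h w)⁻¹ * g * h k := ⟨_, rfl⟩
    have hg : g = h w * e * (h k)⁻¹ := by rw [he]; group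
    rw [← he] at h1 e2
    have hx : (h (w + 1))⁻¹ * g * h (k + 1) =
        (f w)⁻¹ * (e * c (t w) ^ (n k - n w)) * f k := by
      rw [hw.step, hw.step, hg, e1]
      have e5 : (c (t w) ^ n w)⁻¹ * e = e * (c (t w) ^ n w)⁻¹ := by
        rw [e1] at e2
        exact ((e2.zpow_right (n w)).inv_right.eq).symm
      calc (h w * (c (t w) ^ n w * f w))⁻¹ * (h w * e * (h k)⁻¹) * (h k * (c (t w) ^ n k * f k))
          = (f w)⁻¹ * ((c (t w) ^ n w)⁻¹ * e) * c (t w) ^ n k * f k := by group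
        _ = (f w)⁻¹ * (e * c (t w) ^ (n k - n w)) * f k := by rw [e5]; group
    rw [hx] at h2 e4
    -- the exponents agree
    have h3 : (W.ℓ (c (t w) ^ (n k - n w)) : ℝ) ≤ 300 * K := by
      have a1 := ell_ge_left (W := W) ((f w)⁻¹ * (e * c (t w) ^ (n k - n w))) (f k)
      have a2 := ell_ge_right (W := W) (f w)⁻¹ (e * c (t w) ^ (n k - n w))
      have a3 := ell_ge_right (W := W) e (c (t w) ^ (n k - n w))
      rw [ell_inv] at a2
      have := hw.fK w
      have := hw.fK k
      linarith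
    obtain ⟨h4, s, hs⟩ := hw.gap w k e1.symm h3
    have hf : f k = f w := by
      have h5 := hw.step k
      have h6 := hw.step w
      have h7 := hperz s w
      have h8 := hperz s (w + 1)
      rw [hs] at h5
      rw [show w + s * (T : ℤ) + 1 = w + 1 + s * T by ring, h8, h7, h6, ← hs, e1, ← h4] at h5
      have h9 : r ^ s * (h w * (c (t w) ^ n w * f w)) = r ^ s * h w * c (t w) ^ n w * f w := by
        group
      have h10 : r ^ s * h w * (c (t w) ^ n w * f k) = r ^ s * h w * c (t w) ^ n w * f k := by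
        group
      rw [h9, h10] at h5
      exact (mul_left_cancel h5).symm
    rw [← h4, sub_self, zpow_zero, mul_one, hf] at e4
    -- `e` is trivial
    have he1 : e = 1 := by
      by_contra hne
      obtain ⟨a, b, hb, hab⟩ := hY.pow _ e hne e2
      have hne' : (f w)⁻¹ * e * f w ≠ 1 := by
        intro h5
        apply hne
        calc e = f w * ((f w)⁻¹ * e * f w) * (f w)⁻¹ := by group
          _ = 1 := by rw [h5]; group
      obtain ⟨a', b', hb', hab'⟩ := hY.pow _ _ hne' e4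
      have h5 : ((f w)⁻¹ * e * f w) ^ a' = (f w)⁻¹ * e ^ a' * f w := by
        have := conj_zpow (i := a') (a := (f w)⁻¹) (b := e)
        rw [inv_inv] at this
        exact this
      rw [h5] at hab'
      have h6 : f w * c (t (k + 1)) ^ (b' * a) * (f w)⁻¹ = c (t w) ^ (b * a') := by
        rw [zpow_mul, ← hab', ← e1, zpow_mul, ← hab, ← zpow_mul, mul_comm a a', zpow_mul]
        have h7 : ((f w)⁻¹ * e ^ a' * f w) ^ a = (f w)⁻¹ * (e ^ a') ^ a * f w := by
          have := conj_zpow (i := a) (a := (f w)⁻¹) (b := e ^ a')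
          rw [inv_inv] at this
          exact this
        rw [h7]
        group
      have ha : a ≠ 0 := by
        rintro rfl
        rw [zpow_zero] at hab
        obtain ⟨h7, -⟩ := hY.com (t k) (t k) 1 b b hb (by group)
        have h8 := (hw.opp k k rfl)
        have h9 : c (t k) ^ ((n k + n k) * b) = 1 := by
          rw [mul_comm, zpow_mul, ← hab, one_zpow]
        -- every element commutes with `c (t k)`
        have h10 : ∀ x : Γ, Commute x (c (t k)) := fun x =>
          (hY.com (t k) (t k) x b b hb (by rw [← hab]; group)).2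
        have h11 : t k = t (k + 1) := by
          have h12 : (1 : Γ) * c (t k) ^ b * (1 : Γ)⁻¹ = c (t (k + 1)) ^ (0 : ℤ) := by
            rw [← hab]; simp
          exact (hY.com _ _ _ _ _ hb h12).1
        exact hw.conn k h11 (h10 _)
      have h8 := (hY.com (t (k + 1)) (t w) (f w) (b' * a) (b * a') (mul_ne_zero hb' ha) h6)
      apply hw.conn w
      · rw [← h8.1, e3]
      · rw [← h8.1]; exact h8.2
    have h5 := hperz s w
    rw [← hs] at h5
    rw [he1, mul_one, h5] at hg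
    have h6 : g = r ^ (-s) := by
      rw [hg, zpow_neg]; group
    rw [h6]
    exact Subgroup.zpow_mem_zpowers _ _
  · intro g w k h1 h2 hA
    obtain ⟨e1, e2⟩ := hline g w k hA
    change dist (pt W (h (w + 1))) (g • pt W (h k)) ≤ _ at h1
    change dist (pt W (h w)) (g • pt W (h (k + 1))) ≤ _ at h2
    rw [hsmul] at h1 h2
    obtain ⟨e, he⟩ : ∃ e, e = (h w)⁻¹ * g * h k := ⟨_, rfl⟩
    have hg : g = h w * e * (h k)⁻¹ := by rw [he]; group
    rw [← he] at e2
    have hx : (h (w + 1))⁻¹ * g * h k = (f w)⁻¹ * ((c (t w) ^ n w)⁻¹ * e) := by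
      rw [hw.step, hg]; group
    have hx' : (h w)⁻¹ * g * h (k + 1) = e * c (t w) ^ n k * f k := by
      rw [hw.step, hg, e1]; group
    rw [hx] at h1
    rw [hx'] at h2
    have a1 := ell_ge_right (W := W) (f w)⁻¹ ((c (t w) ^ n w)⁻¹ * e)
    have a2 := ell_ge_left (W := W) (e * c (t w) ^ n k) (f k)
    have a3 := ell_mul (W := W) (e * c (t w) ^ n k) ((c (t w) ^ n w)⁻¹ * e)⁻¹
    have a4 : e * c (t w) ^ n k * ((c (t w) ^ n w)⁻¹ * e)⁻¹ = c (t w) ^ (n w + n k) := by
      have e5 : e * c (t w) ^ n k = c (t w) ^ n k * e := by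
        rw [e1] at e2
        exact (e2.zpow_right (n k)).eq
      rw [e5, mul_inv_rev, inv_inv, mul_assoc, mul_inv_cancel_left, ← zpow_add, add_comm]
    rw [a4, ell_inv] at a3
    rw [ell_inv] at a1
    have := hw.fK w
    have := hw.fK k
    have := hw.opp w k e1.symm
    linarith

end Pool.Agent.TH63.SC
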