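import Pool.Agent.TH63.SC.Pre
import Pool.Agent.TH63.SC.Blk
import Pool.Agent.TH63.SC.Word
import Pool.Agent.TH63.SC.Cells

set_option autoImplicit false
set_option linter.unusedSectionVars false

/-!
# The words of the relators (helper63)
-/

namespace Pool.Agent.TH82.FG

open Pool.Agent.TH68 Pool.Agent.Helper97.Hyp Pool.Agent.TH63.SC

/-- partial words -/
def Wp (v c : GG) (N : ℕ → ℕ) : ℕ → GG
  | 0 => 1
  | j + 1 => Wp v c N j * (c * v ^ N j)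

variable {Q : Type} [Group Q] {ψ : FF →* Q} {P : Subgroup GG} {W : WNorm Q} {δ : ℝ}

lemma Wp_mem {u c : GG} (a : ℕ) (N : ℕ → ℕ) (j : ℕ) :
    Wp (u ^ a) c N j ∈ Subgroup.closure ({u, c} : Set GG) := by
  have hu : u ∈ Subgroup.closure ({u, c} : Set GG) := Subgroup.subset_closure (by simp)
  have hc : c ∈ Subgroup.closure ({u, c} : Set GG) := Subgroup.subset_closure (by simp)
  induction j with
  | zero => exact one_mem _
  | succ j ih => exact mul_mem ih (mul_mem hc (pow_mem (pow_mem hu _) _))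

/-- lengths of powers -/
noncomputable def lam (ψ : FF →* Q) (W : WNorm Q) (v : GG) (n : ℕ) : ℝ := W.ℓ (ψ (al (v ^ n)))

lemma lam_zero (v : GG) : lam ψ W v 0 = 0 := by
  unfold lam
  rw [pow_zero, map_one, map_one, W.one', Nat.cast_zero]

lemma lam_nonneg (v : GG) (n : ℕ) : 0 ≤ lam ψ W v n := Nat.cast_nonneg _

lemma lam_succ (v : GG) (n : ℕ) : lam ψ W v (n + 1) ≤ lam ψ W v n + lam ψ W v 1 := by
  unfold lam
  rw [pow_succ, map_mul, map_mul, pow_one]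
  exact ell_mul _ _

lemma St.ell_ka (h : St ψ P W δ) (b : Bool) (x : GG) : W.ℓ (ψ (ka b x)) = W.ℓ (ψ (al x)) := by
  cases b
  · exact (h.len_eq x).symm
  · rfl

lemma St.lam_ka (h : St ψ P W δ) (b : Bool) (v : GG) (n : ℕ) :
    (W.ℓ (ψ (ka b (v ^ n))) : ℝ) = lam ψ W v n := by
  rw [h.ell_ka]; rfl

/-- exponents with prescribed lengths -/
lemma exp_one {v : GG} {K₀ : ℝ} (hg : ∀ n : ℕ, (n : ℝ) ≤ lam ψ W v n + K₀) {t : ℝ} (ht : 0 ≤ t) :
    ∃ n : ℕ, t ≤ lam ψ W v n ∧ lam ψ W v n ≤ t + lam ψ W v 1 := by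
  classical
  have hex : ∃ n : ℕ, t ≤ lam ψ W v n := by
    refine ⟨⌈t + K₀⌉₊, ?_⟩
    have h1 := hg ⌈t + K₀⌉₊
    have h2 := Nat.le_ceil (t + K₀)
    linarith
  obtain ⟨n, hn⟩ : ∃ n, n = Nat.find hex := ⟨_, rfl⟩
  have h1 : t ≤ lam ψ W v n := hn ▸ Nat.find_spec hex
  refine ⟨n, h1, ?_⟩
  rcases Nat.eq_zero_or_pos n with h0 | h0
  · have := lam_nonneg (ψ := ψ) (W := W) v 1
    rw [h0, lam_zero]
    linarith
  · have h2 : ¬ t ≤ lam ψ W v (n - 1) := Nat.find_min hex (by omega)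
    have h3 := lam_succ (ψ := ψ) (W := W) v (n - 1)
    rw [Nat.sub_add_cancel h0] at h3
    linarith

/-- the exponents -/
structure Exps (ψ : FF →* Q) (W : WNorm Q) (v : GG) (K l : ℝ) (p : ℕ) (N : ℕ → ℕ) : Prop where
  hl : 200 * K ≤ l
  lo : ∀ j, 2 * l ≤ lam ψ W v (N j)
  hi : ∀ j, j < p → lam ψ W v (N j) ≤ 3 * l
  gap : ∀ i j, |lam ψ W v (N i) - lam ψ W v (N j)| ≤ 138 * K → i = j

lemma exps {v : GG} {K₀ : ℝ} (hg : ∀ n : ℕ, (n : ℝ) ≤ lam ψ W v n + K₀) {K : ℝ} (hK : 1 ≤ K)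
    (p : ℕ) (l₀ : ℝ) : ∃ (l : ℝ) (N : ℕ → ℕ), l₀ ≤ l ∧ Exps ψ W v K l p N := by
  have h1 := lam_nonneg (ψ := ψ) (W := W) v 1
  obtain ⟨G, hG⟩ : ∃ G, G = 140 * K + lam ψ W v 1 := ⟨_, rfl⟩
  obtain ⟨l, hl⟩ : ∃ l, l = |l₀| + 200 * K + (p : ℝ) * G + lam ψ W v 1 := ⟨_, rfl⟩
  have hG0 : 0 ≤ G := by linarith
  have hpG : 0 ≤ (p : ℝ) * G := by positivity
  have hl0 : 0 ≤ l := by have := abs_nonneg l₀; linarith
  have hN : ∀ j : ℕ, ∃ n : ℕ, 2 * l + j * G ≤ lam ψ W v n ∧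
      lam ψ W v n ≤ 2 * l + j * G + lam ψ W v 1 := fun j =>
    exp_one hg (by positivity)
  choose N hN1 hN2 using hN
  have hlt : ∀ i j : ℕ, i < j → 140 * K ≤ lam ψ W v (N j) - lam ψ W v (N i) := by
    intro i j hij
    have e1 := hN2 i
    have e2 := hN1 j
    have e3 : (i : ℝ) + 1 ≤ j := by exact_mod_cast hij
    have e4 := mul_le_mul_of_nonneg_right e3 hG0
    linarith
  refine ⟨l, N, ?_, ?_, ?_, ?_, ?_⟩
  · have := le_abs_self l₀; linarith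
  · have := abs_nonneg l₀; linarith
  · intro j
    have := hN1 j
    have : 0 ≤ (j : ℝ) * G := by positivity
    linarith
  · intro j hj
    have e1 := hN2 j
    have e3 : (j : ℝ) ≤ p := by exact_mod_cast hj.le
    have e4 := mul_le_mul_of_nonneg_right e3 hG0
    have := abs_nonneg l₀
    linarith
  · intro i j hij
    rw [abs_le] at hij
    rcases lt_trichotomy i j with h | h | h
    · have := hlt i j h; linarith
    · exact h
    · have := hlt j i h; linarith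

lemma line_ne {E : Bool → Subgroup Q} {b : Bool} {x y : Q} (h : x⁻¹ * y ∉ E b) :
    (⟨b, (x : Q ⧸ E b)⟩ : Σ b : Bool, Q ⧸ E b) ≠ ⟨b, (y : Q ⧸ E b)⟩ := by
  intro h1
  exact h (QuotientGroup.eq.1 (eq_of_heq (Sigma.mk.inj h1).2))

lemma line_ne' {E : Bool → Subgroup Q} {b b' : Bool} (hb : b ≠ b') (x : Q ⧸ E b) (y : Q ⧸ E b') :
    (⟨b, x⟩ : Σ b : Bool, Q ⧸ E b) ≠ ⟨b', y⟩ := by
  intro h1
  exact hb (Sigma.mk.inj h1).1

lemma smul_line {E : Bool → Subgroup Q} (g x : Q) (b : Bool) :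
    g • (⟨b, (x : Q ⧸ E b)⟩ : Σ b : Bool, Q ⧸ E b) = ⟨b, ((g * x : Q) : Q ⧸ E b)⟩ := rfl

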